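import Pool.Agent.N135.ZO.Phi

/-!
CM points.
-/

set_option autoImplicit false

namespace Pool.Agent.N135.ZO

open UpperHalfPlane H294ZP Function Polynomial
open Pool.Agent.Y226 (ZZ ιZ ιZ_apply PsiE map_PsiE modular_family)

/-- `τ` is fixed by a matrix of determinant `N` -/
def Fix (N : ℕ) (τ : ℍ) : Prop := ∃ M : M2, M.det = N ∧ Rel M τ τ

open H294ZP.H610 in
theorem fix_finite {N : ℕ} (hN : 0 < N) (hns : ∀ s : ℕ, s ^ 2 ≠ N) :
    {z : ℂ | ∃ τ : ℍ, Fix N τ ∧ jj τ = z}.Finite := by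
  classical
  have hA : TA := ⟨ta1.1, ta1.2, ta2⟩
  have hC : TC := tc
  have hB : TB := TBproof.tb hA hC
  obtain ⟨ι, _, _, a', d', b', h, had, hh, hperm, hall⟩ := TF676.tf ta1.1 N hN
  have hjN : Lau N N 1 jj := by
    have := lau_reindex hN hA.2.2
    rwa [mul_one] at this
  have hfac : ∀ k : ι, ∃ (m : ℕ) (u : ℂ), U1 u ∧ Lau N m u (fun w => jj w - jj (h k w)) := by
    intro k
    obtain ⟨h1, h2, h3⟩ := had k
    have h4 := (hC.2.2.2.2 hA.2.1 hA.2.2 (a' k) (d' k) (b' k) h1 h2 (h k) (hh k)).1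
    rw [h3] at h4
    refine H294ZP.H610.factor hC hN (n := a' k ^ 2) (hns _) hjN ?_ h4
    refine ⟨lau_int h4, Complex.exp (2 * Real.pi * Complex.I * (b' k) / (d' k)), ?_,
      exp_int _ _ h2⟩
    rw [← Complex.exp_add, neg_add_cancel, Complex.exp_zero]
  choose m u hu hm using hfac
  set D : ℍ → ℂ := fun w => ∏ k, (jj w - jj (h k w)) with hD
  have hDinv : Inv D := by
    intro p q r s hdet' w w' hw
    obtain ⟨σ, hσ⟩ := hperm p q r s hdet' w w' hw
    simp only [hD]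
    rw [← Equiv.prod_comp σ (fun k => jj w - jj (h k w))]
    apply Finset.prod_congr rfl
    intro k _
    rw [hσ k, hA.1 p q r s hdet' w w' hw]
  have hDhol : Hol D := by
    apply hol_prod
    intro k
    obtain ⟨h1, h2, h3⟩ := had k
    exact hol_sub hA.2.1 (hC.2.2.2.2 hA.2.1 hA.2.2 (a' k) (d' k) (b' k) h1 h2 (h k) (hh k)).2
  obtain ⟨hU, hL⟩ := lau_prod hC hN Finset.univ (fun k w => jj w - jj (h k w)) m u hu hm
  set M := ∑ k, m k with hM
  set U := ∏ k, u k with hUdef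
  obtain ⟨P, hPi, hPe, hdvd, hdeg, hlead⟩ := hB N hN M U D hDinv hDhol hL
  obtain ⟨hUi, V, hUV, hVi⟩ := hU
  have hU0 : U ≠ 0 := by
    intro h0; rw [h0, zero_mul] at hUV; exact zero_ne_one hUV
  have hlead' := hlead (hdvd hU0)
  have hP0 : P ≠ 0 := by
    intro h0
    rw [h0, coeff_zero] at hlead'
    exact hU0 hlead'.symm
  refine (P.rootSet_finite ℂ).subset ?_
  rintro z ⟨τ, ⟨A, hAdet, hArel⟩, rfl⟩
  rw [mem_rootSet]
  refine ⟨hP0, ?_⟩
  rw [coe_aeval_eq_eval, ← hPe τ]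
  obtain ⟨k, hk⟩ := hall (A 0 0) (A 0 1) (A 1 0) (A 1 1) (by rw [← det_eq, hAdet]) τ τ hArel
  simp only [hD]
  apply Finset.prod_eq_zero (Finset.mem_univ k)
  rw [← hk, sub_self]

/-- every CM point is fixed by a matrix of nonsquare determinant congruent to one modulo `p` -/
theorem exists_fix (p : ℕ) (hp : 0 < p) {τ : ℍ} (h : IsCM τ) :
    ∃ N : ℕ, 0 < N ∧ (∀ s : ℕ, s ^ 2 ≠ N) ∧ (∃ z : ℤ, (N : ℤ) = 1 + p * z) ∧ Fix N τ := by
  obtain ⟨a, b, c, ha, habc⟩ := h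
  have hK := H610.disc_pos τ a b c ha habc
  set K := 4 * a * c - b ^ 2 with hKdef
  have hpZ : (0 : ℤ) < p := by exact_mod_cast hp
  set T : ℤ := p ^ 2 * K with hT
  have hTpos : 0 < T := by positivity
  obtain ⟨N, hN⟩ : ∃ N : ℕ, (N : ℤ) = (1 + T) ^ 2 + T := ⟨((1 + T) ^ 2 + T).toNat, by
    rw [Int.toNat_of_nonneg (by positivity)]⟩
  have hNpos : 0 < N := by
    have : (0 : ℤ) < N := by rw [hN]; positivity
    exact_mod_cast this
  refine ⟨N, hNpos, ?_, ⟨p * K * (3 + T), by rw [hN, hT]; ring⟩, ?_⟩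
  · intro s hs
    have hs' : (s : ℤ) ^ 2 = (1 + T) ^ 2 + T := by
      rw [← hN]
      exact_mod_cast hs
    have h1 : 1 + T < s := by
      by_contra hcon
      push Not at hcon
      have : (s : ℤ) ^ 2 ≤ (1 + T) ^ 2 := pow_le_pow_left₀ (by positivity) hcon 2
      linarith
    have h2 : (s : ℤ) < 2 + T := by
      by_contra hcon
      push Not at hcon
      have : (2 + T) ^ 2 ≤ (s : ℤ) ^ 2 := pow_le_pow_left₀ (by positivity) hcon 2
      nlinarith
    omega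
  · refine ⟨!![(1 + T) - p * b, -(2 * p * c); 2 * p * a, (1 + T) + p * b], ?_, ?_⟩
    · rw [Matrix.det_fin_two_of, hN, hT, hKdef]
      ring
    · simp only [Rel, den, num, Matrix.of_apply, Matrix.cons_val', Matrix.cons_val_zero,
        Matrix.cons_val_one, Matrix.cons_val_fin_one]
      push_cast
      linear_combination 2 * (p : ℂ) * habc

variable {V : ValuationSubring ℂ} {p : ℕ}

/-- the canonical isogeny commutes with endomorphisms of degree prime to `p` -/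
theorem fix_next (hl : p.Prime) (hpV : V.valuation (p : ℂ) < 1) {τ : ℍ} (hτ : jj τ ∈ V)
    {k : Option (Fin p)} (hk : V.valuation (uu hl.pos k τ) = V.valuation (p : ℂ) ^ 12)
    (hothers : ∀ k', k' ≠ k → V.valuation (uu hl.pos k' τ) = 1) {N : ℕ} (hN : 0 < N)
    (hNV : V.valuation (N : ℂ) = 1) (hfix : Fix N τ) : Fix N (hh hl.pos k τ) := by
  obtain ⟨M, hM, hrel⟩ := hfix
  have hlZ : (0 : ℤ) < p := by exact_mod_cast hl.pos
  have hNZ : (0 : ℤ) < N := by exact_mod_cast hN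
  have hr := hrel.mul (rel_hh hl.pos k τ)
  have hApos : 0 < (gk p k * M).det := by
    rw [det_mul', det_gk, hM]
    positivity
  obtain ⟨k', C, -, hCpos, hCdet, hCrel, hCGG⟩ := exists_fac hApos hl
    (by rw [det_mul', det_gk]; exact dvd_mul_right _ _) hr
  have hCN : C.det = N := by
    rw [det_mul', det_gk, hM] at hCdet
    have : (N : ℤ) * p = C.det * p := by rw [← hCdet]; ring
    exact (mul_right_cancel₀ hlZ.ne' this).symm
  have h1 := GG_mul (A := gk p k) (B := M) (by rw [det_gk]; exact hlZ) (by rw [hM]; exact hNZ)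
    (z := hh hl.pos k τ) hrel
  rw [hCGG] at h1
  have hw : jj (hh hl.pos k' τ) ∈ V := rel_mem (M := gk p k') (by rw [det_gk]; exact hlZ)
    (rel_hh hl.pos k' τ) hτ
  have v1 : V.valuation (GG M τ τ) = 1 := GG_unit (by rw [hM]; exact hNZ)
    (by rw [hM]; exact_mod_cast hNV) hrel hτ
  have v2 : V.valuation (GG C (hh hl.pos k' τ) (hh hl.pos k τ)) = 1 := GG_unit hCpos
    (by rw [hCN]; exact_mod_cast hNV) hCrel hw
  have h2 := congrArg V.valuation h1
  rw [map_mul, map_mul, v1, v2, one_mul, mul_one] at h2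
  have h3 : GG (gk p k) τ (hh hl.pos k τ) = uu hl.pos k τ := rfl
  rw [h3, hk] at h2
  have hkk : k' = k := by
    by_contra hne
    rw [hothers k' hne] at h2
    have h4 : V.valuation (p : ℂ) ^ 12 < 1 := pow_lt_one₀ zero_le hpV (by norm_num)
    rw [← h2] at h4
    exact lt_irrefl _ h4
  subst hkk
  exact ⟨C, hCN, hCrel⟩

/-- a good ordinary CM point -/
structure Good (hl : 0 < p) (P : Pkg p hl) (V : ValuationSubring ℂ) (N : ℕ) (τ : ℍ) : Prop where
  mem : jj τ ∈ V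
  ord : V.valuation (P.h.eval₂ ιZ (jj τ)) = 1
  n0 : V.valuation (jj τ) = 1
  n1 : V.valuation (jj τ - 1728) = 1
  fix : Fix N τ

/-- the value in the valuation ring -/
noncomputable def xx {hl : 0 < p} {P : Pkg p hl} {N : ℕ} (s : {τ : ℍ // Good hl P V N τ}) : V :=
  ⟨jj s.1, s.2.mem⟩

section
variable {hl : 0 < p} {P : Pkg p hl} {N : ℕ}

theorem xx_coe (s : {τ : ℍ // Good hl P V N τ}) : (xx s : ℂ) = jj s.1 := rfl

theorem xx_h (s : {τ : ℍ // Good hl P V N τ}) : IsUnit (P.h.eval₂ (ρV V) (xx s)) := by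
  rw [V.valuation_eq_one_iff, coe_e1]
  exact s.2.ord

theorem xx_0 (s : {τ : ℍ // Good hl P V N τ}) : IsUnit (xx s) := by
  rw [V.valuation_eq_one_iff]
  exact s.2.n0

theorem xx_1 (s : {τ : ℍ // Good hl P V N τ}) : IsUnit (xx s - 1728) := by
  rw [V.valuation_eq_one_iff]
  push_cast
  exact s.2.n1

end

theorem exists_next (hl : p.Prime) (hl2 : p ≠ 2) (hpV : V.valuation (p : ℂ) < 1) (P : Pkg p hl.pos)
    {N : ℕ} (hN : 0 < N) (hNV : V.valuation (N : ℂ) = 1) (s : {τ : ℍ // Good hl.pos P V N τ}) :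
    ∃ s' : {τ : ℍ // Good hl.pos P V N τ}, ∃ k : Option (Fin p),
      V.valuation (uu hl.pos k s.1) = V.valuation (p : ℂ) ^ 12 ∧ s'.1 = hh hl.pos k s.1 := by
  obtain ⟨k, hk, hothers⟩ := exists_can hl hl2 hpV P s.2.mem s.2.ord
  obtain ⟨h1, h2⟩ := can_next hl hpV s.2.mem hk P
  have h3 := fix_next hl hpV s.2.mem hk hothers hN hNV s.2.fix
  have hphi : IsPhi P (xx s) ⟨jj (hh hl.pos k s.1), h1⟩ := isPhi_of hl P hk rfl rfl
  obtain ⟨g0, g1⟩ := phi_res hl P hpV hphi (xx_h s) (xx_0 s) (xx_1 s)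
  refine ⟨⟨hh hl.pos k s.1, ⟨h1, h2, ?_, ?_, h3⟩⟩, k, hk, rfl⟩
  · exact (V.valuation_eq_one_iff _).1 g0
  · have := (V.valuation_eq_one_iff _).1 g1
    push_cast at this
    exact this

/-- a step operator -/
structure Stp (hl : p.Prime) (P : Pkg p hl.pos) (V : ValuationSubring ℂ) (N : ℕ) where
  nx : {τ : ℍ // Good hl.pos P V N τ} → {τ : ℍ // Good hl.pos P V N τ}
  spec : ∀ s, ∃ k : Option (Fin p),
      V.valuation (uu hl.pos k s.1) = V.valuation (p : ℂ) ^ 12 ∧ (nx s).1 = hh hl.pos k s.1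

theorem exists_stp (hl : p.Prime) (hl2 : p ≠ 2) (hpV : V.valuation (p : ℂ) < 1) (P : Pkg p hl.pos)
    {N : ℕ} (hN : 0 < N) (hNV : V.valuation (N : ℂ) = 1) : Nonempty (Stp hl P V N) := by
  choose f hf using exists_next hl hl2 hpV P hN hNV
  exact ⟨⟨f, hf⟩⟩

theorem Stp.phi {hl : p.Prime} {P : Pkg p hl.pos} {N : ℕ} (S : Stp hl P V N)
    (s : {τ : ℍ // Good hl.pos P V N τ}) : IsPhi P (xx s) (xx (S.nx s)) := by
  obtain ⟨k, hk, hs⟩ := S.spec s
  exact isPhi_of hl P hk rfl (by rw [xx_coe, hs])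

theorem xx_finite {hl : 0 < p} {P : Pkg p hl} {N : ℕ} (hN : 0 < N) (hns : ∀ s : ℕ, s ^ 2 ≠ N) :
    (Set.range (xx (V := V) (hl := hl) (P := P) (N := N))).Finite := by
  have h := fix_finite hN hns
  refine Set.Finite.of_finite_image (f := fun z : V => (z : ℂ)) (h.subset ?_)
    (Subtype.val_injective.injOn)
  rintro _ ⟨_, ⟨s, rfl⟩, rfl⟩
  exact ⟨s.1, s.2.fix, rfl⟩

section facts

variable {hl : p.Prime} {P : Pkg p hl.pos} {N N' : ℕ}

/-- going back -/
theorem descend (hl2 : p ≠ 2) (hpV : V.valuation (p : ℂ) < 1) (S : Stp hl P V N)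
    (S' : Stp hl P V N') (i : ℕ) :
    ∀ (s : {τ : ℍ // Good hl.pos P V N τ}) (s' : {τ : ℍ // Good hl.pos P V N' τ}),
    Cl p (xx s' - xx s) → xx (S'.nx^[i] s') = xx (S.nx^[i] s) → xx s' = xx s := by
  induction i with
  | zero => intro s s' _ h; exact h
  | succ i ih =>
    intro s s' ht h
    rw [iterate_succ_apply, iterate_succ_apply] at h
    obtain ⟨b, hb⟩ := phi_p hl hl2 P hpV (xx_h s) (xx_h s') (S.phi s) (S'.phi s') ht
    have h1 := ih (S.nx s) (S'.nx s') (by rw [hb]; exact Cl.next hl hl2 hpV _ _) h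
    obtain ⟨k, hk, hs⟩ := S.spec s
    refine phi_inj hl hl2 hpV P hk (x := xx s) (y := xx s') (φ := xx (S.nx s)) rfl
      (by rw [xx_coe, hs]) (xx_h s) (xx_h s') (xx_0 s) (xx_1 s) ?_ ht
    rw [← h1]
    exact S'.phi s'

/-- Fact B -/
theorem fact_b (hl2 : p ≠ 2) (hpV : V.valuation (p : ℂ) < 1) (S : Stp hl P V N)
    (S' : Stp hl P V N') (hN : 0 < N) (hns : ∀ s : ℕ, s ^ 2 ≠ N) (hN' : 0 < N')
    (hns' : ∀ s : ℕ, s ^ 2 ≠ N') (s : {τ : ℍ // Good hl.pos P V N τ})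
    (s' : {τ : ℍ // Good hl.pos P V N' τ}) (ht : Cl p (xx s' - xx s)) : xx s' = xx s := by
  have hpu := not_unit_p hpV
  have hstep : ∀ i, Cl p (xx (S'.nx^[i] s') - xx (S.nx^[i] s)) := by
    intro i
    induction i with
    | zero => exact ht
    | succ i ih =>
      rw [iterate_succ_apply', iterate_succ_apply']
      obtain ⟨b, hb⟩ := phi_p hl hl2 P hpV (xx_h _) (xx_h _) (S.phi (S.nx^[i] s))
        (S'.phi (S'.nx^[i] s')) ih
      rw [hb]
      exact Cl.next hl hl2 hpV _ _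
  have hmult : ∀ i m, ∃ b, xx (S'.nx^[i + (m + 1)] s') - xx (S.nx^[i + (m + 1)] s) =
      p * (xx (S'.nx^[i] s') - xx (S.nx^[i] s)) * b := by
    intro i m
    induction m with
    | zero =>
      rw [zero_add, iterate_succ_apply', iterate_succ_apply']
      exact phi_p hl hl2 P hpV (xx_h _) (xx_h _) (S.phi (S.nx^[i] s)) (S'.phi (S'.nx^[i] s'))
        (hstep i)
    | succ m ih =>
      obtain ⟨b, hb⟩ := ih
      rw [← add_assoc, iterate_succ_apply', iterate_succ_apply']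
      obtain ⟨b', hb'⟩ := phi_p hl hl2 P hpV (xx_h _) (xx_h _) (S.phi (S.nx^[i + (m + 1)] s))
        (S'.phi (S'.nx^[i + (m + 1)] s')) (hstep (i + (m + 1)))
      rw [hb', hb]
      exact ⟨p * b * b', by ring⟩
  have hfin : (Set.range (xx (V := V) (hl := hl.pos) (P := P) (N := N)) ×ˢ
      Set.range (xx (V := V) (hl := hl.pos) (P := P) (N := N'))).Finite :=
    (xx_finite hN hns).prod (xx_finite hN' hns')
  obtain ⟨i, j, hij, he⟩ := Set.Finite.exists_lt_map_eq_of_forall_mem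
    (f := fun i : ℕ => (xx (S.nx^[i] s), xx (S'.nx^[i] s')))
    (t := Set.range (xx (V := V) (hl := hl.pos) (P := P) (N := N)) ×ˢ
      Set.range (xx (V := V) (hl := hl.pos) (P := P) (N := N')))
    (fun i => Set.mk_mem_prod ⟨_, rfl⟩ ⟨_, rfl⟩) hfin
  have e1 : xx (S.nx^[i] s) = xx (S.nx^[j] s) := congrArg Prod.fst he
  have e2 : xx (S'.nx^[i] s') = xx (S'.nx^[j] s') := congrArg Prod.snd he
  obtain ⟨m, hm⟩ : ∃ m, j = i + (m + 1) := ⟨j - i - 1, by omega⟩
  obtain ⟨b, hb⟩ := hmult i m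
  rw [← hm, ← e1, ← e2] at hb
  have hu : IsUnit (1 + (p : V) * (-b)) := unit_add isUnit_one (not_unit_mul hpu)
  have h0 : (xx (S'.nx^[i] s') - xx (S.nx^[i] s)) * (1 + (p : V) * (-b)) = 0 := by
    linear_combination hb
  rcases mul_eq_zero.1 h0 with h | h
  · exact descend hl2 hpV S S' i s s' ht (sub_eq_zero.1 h)
  · rw [h] at hu
    exact absurd hu not_isUnit_zero

/-- Fact C -/
theorem fact_c (hl2 : p ≠ 2) (hpV : V.valuation (p : ℂ) < 1) (S : Stp hl P V N)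
    (S' : Stp hl P V N') (hN : 0 < N) (hns : ∀ s : ℕ, s ^ 2 ≠ N) (hN' : 0 < N')
    (hns' : ∀ s : ℕ, s ^ 2 ≠ N') (s : {τ : ℍ // Good hl.pos P V N τ})
    (s' : {τ : ℍ // Good hl.pos P V N' τ}) (ht : ¬ IsUnit (xx s' - xx s)) :
    ∃ i, xx (S'.nx^[i] s') = xx (S.nx^[i] s) := by
  have hpu := not_unit_p hpV
  have hnu : ∀ {a b : V}, ¬ IsUnit a → ¬ IsUnit b → ¬ IsUnit (a + b) := by
    intro a b ha hb
    exact (IsLocalRing.mem_maximalIdeal _).1 ((IsLocalRing.maximalIdeal V).add_mem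
      ((IsLocalRing.mem_maximalIdeal _).2 ha) ((IsLocalRing.mem_maximalIdeal _).2 hb))
  have hsq : ∀ i, ∃ a b, xx (S'.nx^[i + 1] s') - xx (S.nx^[i + 1] s) =
      (xx (S'.nx^[i] s') - xx (S.nx^[i] s)) ^ 2 * a + p * b := by
    intro i
    rw [iterate_succ_apply', iterate_succ_apply']
    exact phi_sq hl hl2 P hpV (xx_h _) (xx_h _) (S.phi (S.nx^[i] s)) (S'.phi (S'.nx^[i] s'))
  have hnon : ∀ i, ¬ IsUnit (xx (S'.nx^[i] s') - xx (S.nx^[i] s)) := by
    intro i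
    induction i with
    | zero => exact ht
    | succ i ih =>
      obtain ⟨a, b, hab⟩ := hsq i
      rw [hab, sq, mul_assoc]
      exact hnu (not_unit_mul ih) (not_unit_mul hpu)
  have hmult : ∀ i m, ∃ a b, xx (S'.nx^[i + (m + 1)] s') - xx (S.nx^[i + (m + 1)] s) =
      (xx (S'.nx^[i] s') - xx (S.nx^[i] s)) ^ 2 * a + p * b := by
    intro i m
    induction m with
    | zero => exact hsq i
    | succ m ih =>
      obtain ⟨a, b, hab⟩ := ih
      obtain ⟨a', b', hab'⟩ := hsq (i + (m + 1))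
      rw [← add_assoc, hab', hab]
      set E := xx (S'.nx^[i] s') - xx (S.nx^[i] s)
      exact ⟨E ^ 2 * a ^ 2 * a', (2 * E ^ 2 * a * b + p * b ^ 2) * a' + b', by ring⟩
  have hfin : (Set.range (xx (V := V) (hl := hl.pos) (P := P) (N := N)) ×ˢ
      Set.range (xx (V := V) (hl := hl.pos) (P := P) (N := N'))).Finite :=
    (xx_finite hN hns).prod (xx_finite hN' hns')
  obtain ⟨i, j, hij, he⟩ := Set.Finite.exists_lt_map_eq_of_forall_mem
    (f := fun i : ℕ => (xx (S.nx^[i] s), xx (S'.nx^[i] s')))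
    (t := Set.range (xx (V := V) (hl := hl.pos) (P := P) (N := N)) ×ˢ
      Set.range (xx (V := V) (hl := hl.pos) (P := P) (N := N')))
    (fun i => Set.mk_mem_prod ⟨_, rfl⟩ ⟨_, rfl⟩) hfin
  have e1 : xx (S.nx^[i] s) = xx (S.nx^[j] s) := congrArg Prod.fst he
  have e2 : xx (S'.nx^[i] s') = xx (S'.nx^[j] s') := congrArg Prod.snd he
  obtain ⟨m, hm⟩ : ∃ m, j = i + (m + 1) := ⟨j - i - 1, by omega⟩
  obtain ⟨a, b, hab⟩ := hmult i m
  rw [← hm, ← e1, ← e2] at hab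
  have hu : IsUnit (1 + (xx (S'.nx^[i] s') - xx (S.nx^[i] s)) * (-a)) :=
    unit_add isUnit_one (not_unit_mul (hnon i))
  obtain ⟨v, hv⟩ := hu.exists_right_inv
  refine ⟨i, fact_b hl2 hpV S S' hN hns hN' hns' (S.nx^[i] s) (S'.nx^[i] s') ?_⟩
  set E := xx (S'.nx^[i] s') - xx (S.nx^[i] s)
  have h1 : E * (1 + E * (-a)) = p * b := by linear_combination hab
  have h2 : E = p * b * v := by linear_combination v * h1 - E * hv
  rw [h2]
  exact Cl.next hl hl2 hpV _ _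

theorem cl_of_val {t : V} (hp0 : (p : ℂ) ≠ 0)
    (h : V.valuation (t : ℂ) ^ (p - 1) < V.valuation (p : ℂ)) : Cl p t := by
  have hne : V.valuation (p : ℂ) ≠ 0 := by rwa [Valuation.ne_zero_iff]
  have hlt : V.valuation ((t : ℂ) ^ (p - 1) / p) < 1 := by
    rw [map_div₀, map_pow]
    exact (div_lt_one₀ (zero_lt_iff.2 hne)).2 h
  have hm : (t : ℂ) ^ (p - 1) / p ∈ V := (V.valuation_le_one_iff _).1 hlt.le
  refine ⟨⟨_, hm⟩, ?_, ?_⟩
  · rw [V.valuation_eq_one_iff]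
    intro h1
    rw [h1] at hlt
    exact lt_irrefl _ hlt
  · apply Subtype.ext
    push_cast
    rw [mul_div_cancel₀ _ hp0]

/-- the distances of different ordinary CM points in one residue class -/
theorem radius (hl2 : p ≠ 2) (hpV : V.valuation (p : ℂ) < 1) (S : Stp hl P V N)
    (S' : Stp hl P V N') (hN : 0 < N) (hns : ∀ s : ℕ, s ^ 2 ≠ N) (hN' : 0 < N')
    (hns' : ∀ s : ℕ, s ^ 2 ≠ N') (i : ℕ) :
    ∀ (s : {τ : ℍ // Good hl.pos P V N τ}) (s' : {τ : ℍ // Good hl.pos P V N' τ}),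
    xx (S'.nx^[i] s') = xx (S.nx^[i] s) → xx s' ≠ xx s → V.valuation ((xx s' - xx s : V) : ℂ) < 1 →
    ∃ k, V.valuation ((xx s' - xx s : V) : ℂ) ^ ((p - 1) * p ^ k) = V.valuation (p : ℂ) := by
  have hp0 : (p : ℂ) ≠ 0 := by exact_mod_cast hl.ne_zero
  induction i with
  | zero => intro s s' h hne; exact absurd h hne
  | succ i ih =>
    intro s s' h hne hlt
    rw [iterate_succ_apply, iterate_succ_apply] at h
    rcases lt_trichotomy (V.valuation ((xx s' - xx s : V) : ℂ) ^ (p - 1)) (V.valuation (p : ℂ)) with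
      h1 | h1 | h1
    · exact absurd (fact_b hl2 hpV S S' hN hns hN' hns' s s' (cl_of_val hp0 h1)) hne
    · exact ⟨0, by rw [pow_zero, mul_one]; exact h1⟩
    · have h2 := phi_far hl hl2 P hpV (xx_h s) (xx_h s') (S.phi s) (S'.phi s') h1
      have hne0 : V.valuation ((xx s' - xx s : V) : ℂ) ≠ 0 := by
        rw [Valuation.ne_zero_iff]
        intro h0
        apply hne
        have : xx s' - xx s = 0 := Subtype.ext h0
        exact sub_eq_zero.1 this
      have hne' : xx (S'.nx s') ≠ xx (S.nx s) := by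
        intro h3
        rw [h3, sub_self] at h2
        have h4 : V.valuation ((0 : V) : ℂ) = 0 := by push_cast; exact map_zero _
        rw [h4] at h2
        exact pow_ne_zero _ hne0 h2.symm
      have hlt' : V.valuation ((xx (S'.nx s') - xx (S.nx s) : V) : ℂ) < 1 := by
        rw [h2]
        exact pow_lt_one₀ zero_le hlt hl.ne_zero
      obtain ⟨k, hk⟩ := ih (S.nx s) (S'.nx s') h hne' hlt'
      refine ⟨k + 1, ?_⟩
      rw [h2, ← pow_mul] at hk
      rw [← hk]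
      congr 1
      ring

end facts

/-! ### isogenies -/

/-- values of `j` at isogenous points -/
def Isog (x y : ℂ) : Prop := ∃ (M : M2) (τ w : ℍ), 0 < M.det ∧ Rel M τ w ∧ jj τ = x ∧ jj w = y

theorem Isog.symm {x y : ℂ} (h : Isog x y) : Isog y x := by
  obtain ⟨M, τ, w, h1, h2, h3, h4⟩ := h
  exact ⟨M.adjugate, w, τ, by rw [det_adj]; exact h1, rel_adj h2, h4, h3⟩

theorem transfer {τ τ' w' : ℍ} (hj : jj τ = jj τ') {M : M2} (hM : 0 < M.det) (h : Rel M τ' w') :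
    ∃ (M' : M2) (w : ℍ), 0 < M'.det ∧ Rel M' τ w ∧ jj w = jj w' := by
  obtain ⟨N, hN⟩ : ∃ N : ℕ, M.det = N := ⟨M.det.toNat, by omega⟩
  have hN0 : 0 < N := by
    rw [hN] at hM
    exact_mod_cast hM
  obtain ⟨ι, _, α, δ, β, g, P, h1, h2, -, h3, h4⟩ := modular_family N hN0
  have h5 := h4 τ' w' (M 0 0) (M 0 1) (M 1 0) (M 1 1) (by rw [← det_eq, hN]) h
  rw [← hj, ← h3] at h5
  obtain ⟨k, -, hk⟩ := Finset.prod_eq_zero_iff.1 h5
  refine ⟨!![(α k : ℤ), β k; 0, (δ k : ℤ)], g k τ, ?_, ?_, (sub_eq_zero.1 hk).symm⟩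
  · rw [Matrix.det_fin_two_of, mul_zero, sub_zero]
    have := (h1 k).1
    have := (h1 k).2.1
    positivity
  · have := h2 k τ
    simp only [Rel, den, num, Matrix.of_apply, Matrix.cons_val', Matrix.cons_val_zero,
      Matrix.cons_val_one, Matrix.cons_val_fin_one]
    push_cast
    rw [← this]
    ring

theorem Isog.trans {x y z : ℂ} (h : Isog x y) (h' : Isog y z) : Isog x z := by
  obtain ⟨M, τ, w, h1, h2, h3, h4⟩ := h
  obtain ⟨M', τ', w', h1', h2', h3', h4'⟩ := h'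
  obtain ⟨M'', w'', h5, h6, h7⟩ := transfer (h4.trans h3'.symm) h1' h2'
  refine ⟨M'' * M, τ, w'', ?_, h2.mul h6, h3, h7.trans h4'⟩
  rw [det_mul']
  positivity

theorem isog_refl (τ : ℍ) : Isog (jj τ) (jj τ) := ⟨1, τ, τ, by simp, rel_one τ, rfl, rfl⟩

theorem Stp.isog {hl : p.Prime} {P : Pkg p hl.pos} {N : ℕ} (S : Stp hl P V N)
    (s : {τ : ℍ // Good hl.pos P V N τ}) (i : ℕ) : Isog (jj s.1) (xx (S.nx^[i] s)) := by
  induction i with
  | zero => exact isog_refl _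
  | succ i ih =>
    refine ih.trans ?_
    rw [iterate_succ_apply']
    obtain ⟨k, -, hs⟩ := S.spec (S.nx^[i] s)
    refine ⟨gk p k, (S.nx^[i] s).1, (S.nx (S.nx^[i] s)).1, ?_, ?_, rfl, rfl⟩
    · rw [det_gk]
      exact_mod_cast hl.pos
    · rw [hs]
      exact rel_hh hl.pos k _

end Pool.Agent.N135.ZO
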