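import Pool.Agent.N135.ZO.Fam

/-!
The Laurent expansions of the quotients of `Δ`.
-/

set_option autoImplicit false

namespace Pool.Agent.N135.ZO

open UpperHalfPlane H294ZP Function ModularForm
open Pool.Agent.Y226 (ZZ ιZ ιZ_apply eZ eZ_mul qq_h)

open H294ZP.TA2 (R mp R_mul R_D R_U R_V R_E4 E4_eq D U V U0 UV)

/-- the coefficients of `P(q(h τ))` -/
noncomputable def cf (P : PowerSeries ℤ) (a : ℕ) (ζ : ZZ) (n : ℕ) : ZZ :=
  if a ^ 2 ∣ n then (P.coeff (n / a ^ 2) : ZZ) * ζ ^ (n / a ^ 2) else 0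

theorem hasSum_cf {P : PowerSeries ℤ} {F : ℍ → ℂ} (hF : R (mp P) F) {a d : ℕ} {b : ℤ}
    (ha : 0 < a) (hd : 0 < d) {τ w : ℍ} (hw : (w : ℂ) * d = a * τ + b) :
    HasSum (fun n => ((cf P a (eZ b d hd) n : ZZ) : ℂ) * qq (a * d) τ ^ n) (F w) := by
  have hq := qq_h ha hd hw
  have h1 := hF w
  have hinj : Function.Injective (fun n : ℕ => a ^ 2 * n) := by
    intro x y hxy
    exact Nat.eq_of_mul_eq_mul_left (by positivity) hxy
  rw [← hinj.hasSum_iff]
  · refine TCx.hs_congr h1 (fun n => ?_) rfl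
    simp only [Function.comp, cf]
    rw [if_pos (dvd_mul_right _ _), Nat.mul_div_cancel_left _ (by positivity : 0 < a ^ 2), hq,
      PowerSeries.coeff_map]
    rw [ιZ_apply]
    push_cast
    rw [mul_pow, ← pow_mul]
    simp only [eq_intCast]
    ring
  · intro n hn
    have : ¬ a ^ 2 ∣ n := by
      rintro ⟨k, rfl⟩
      exact hn ⟨k, rfl⟩
    simp [cf, this]

theorem disc_hol : Hol (fun τ => discriminant τ) := H294ZP.TA2.disc_mdiff

theorem Hol.comp_hh {f : ℍ → ℂ} (hf : Hol f) {l : ℕ} (hl : 0 < l) (k : Option (Fin l)) :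
    Hol (fun τ => f (hh hl k τ)) := by
  have hd0 : (kd l k : ℂ) ≠ 0 := by exact_mod_cast (kd_pos hl k).ne'
  unfold Hol at hf ⊢
  have him : ∀ z : ℂ, 0 < z.im → 0 < (((ka l k : ℂ) * z + kb l k) / kd l k).im := by
    intro z hz
    have : (((ka l k : ℂ) * z + kb l k) / kd l k).im = ka l k * z.im / kd l k := by
      rw [Complex.div_natCast_im]
      simp
    rw [this]
    have : (0 : ℝ) < ka l k := by exact_mod_cast ka_pos hl k
    have : (0 : ℝ) < kd l k := by exact_mod_cast kd_pos hl k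
    positivity
  have h1 : DifferentiableOn ℂ (fun z : ℂ => ((ka l k : ℂ) * z + kb l k) / kd l k)
      {z | 0 < z.im} := by
    fun_prop
  have h2 := hf.comp h1 (fun z hz => him z hz)
  refine h2.congr ?_
  intro z hz
  have hz' : 0 < z.im := hz
  simp only [Function.comp]
  rw [ofComplex_apply_of_im_pos hz', ofComplex_apply_of_im_pos (him z hz')]
  congr 1

/-- `1 / Δ` -/
theorem inv_disc_hol : Hol (fun τ => (discriminant τ)⁻¹) := by
  have h := disc_hol
  unfold Hol at *
  exact h.inv fun z _ => discriminant_ne_zero _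

theorem LI.reindex {I : Ideal ZZ} {N : ℕ} (hN : 0 < N) {m : ℕ} {f : ℍ → ℂ} (h : LI I 1 m f) :
    LI I N (N * m) f := by
  classical
  obtain ⟨c, hci, hs⟩ := h
  have hq : ∀ τ : ℍ, qq 1 τ = qq N τ ^ N := by
    intro τ
    unfold qq
    rw [← Complex.exp_nat_mul]
    congr 1
    have : (N : ℂ) ≠ 0 := by exact_mod_cast hN.ne'
    field_simp
    simp
  refine ⟨fun n => if N ∣ n then c (n / N) else 0, ?_, ?_⟩
  · intro n
    by_cases hn : N ∣ n
    · simp only [hn, if_true]; exact hci _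
    · simp only [hn, if_false]; exact I.zero_mem
  · intro τ
    have hinj : Function.Injective (fun n : ℕ => N * n) := by
      intro a b hab
      exact Nat.eq_of_mul_eq_mul_left hN hab
    rw [← hinj.hasSum_iff]
    · have h1 := hs τ
      rw [hq τ] at h1
      refine TCx.hs_congr h1 (fun n => ?_) ?_
      · simp only [comp_apply, dvd_mul_right, if_true, Nat.mul_div_cancel_left n hN, pow_mul]
      · rw [pow_mul]
    · intro x hx
      have : ¬ N ∣ x := by
        rintro ⟨y, rfl⟩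
        exact hx ⟨y, rfl⟩
      simp [this]

theorem LI.of_R {P : PowerSeries ℤ} {F : ℍ → ℂ} {m : ℕ} (h : R (mp P) (fun τ => qq 1 τ ^ m * F τ))
    {I : Ideal ZZ} (hP : ∀ n, ((P.coeff n : ℤ) : ZZ) ∈ I) : LI I 1 m F := by
  refine ⟨fun n => (P.coeff n : ZZ), hP, fun τ => ?_⟩
  refine TCx.hs_congr (h τ) (fun n => ?_) rfl
  rw [PowerSeries.coeff_map]
  push_cast
  simp

/-- expansion of `1 / Δ` -/
theorem LX.inv_disc {N : ℕ} (hN : 0 < N) : LX ⊤ N (fun τ => (discriminant τ)⁻¹) := by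
  refine ⟨⟨N * 1, ?_⟩, inv_disc_hol⟩
  apply LI.reindex hN
  refine LI.of_R (P := V) ?_ (fun n => Submodule.mem_top)
  have := R_V
  simpa [div_eq_mul_inv] using this

/-- expansion of `Δ (g_k τ)` -/
theorem LX.disc_hh {l : ℕ} (hl : 0 < l) (k : Option (Fin l)) :
    LX ⊤ l (fun τ => discriminant (hh hl k τ)) := by
  refine ⟨⟨0, ⟨cf D (ka l k) (eZ (kb l k) (kd l k) (kd_pos hl k)), fun n => Submodule.mem_top,
    fun τ => ?_⟩⟩, Hol.comp_hh disc_hol hl k⟩
  have := hasSum_cf R_D (ka_pos hl k) (kd_pos hl k) (hh_mul hl k τ)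
  rw [ka_mul_kd] at this
  simpa using this

/-- the quotient of the discriminants -/
noncomputable def uu {l : ℕ} (hl : 0 < l) (k : Option (Fin l)) (τ : ℍ) : ℂ :=
  GG (gk l k) τ (hh hl k τ)

theorem uu_eq {l : ℕ} (hl : 0 < l) (k : Option (Fin l)) (τ : ℍ) :
    uu hl k τ = (ka l k : ℂ) ^ 12 * discriminant (hh hl k τ) * (discriminant τ)⁻¹ := by
  unfold uu GG
  have h1 : den (gk l k) τ = kd l k := by simp [den, gk]
  have h2 : (l : ℂ) = ka l k * kd l k := by exact_mod_cast (ka_mul_kd l k).symm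
  have h3 : (kd l k : ℂ) ≠ 0 := by exact_mod_cast (kd_pos hl k).ne'
  rw [h1, det_gk]
  push_cast
  rw [h2, mul_div_cancel_right₀ _ h3, div_eq_mul_inv]

theorem LX.uu {l : ℕ} (hl : 0 < l) (k : Option (Fin l)) : LX ⊤ l (uu hl k) := by
  have h1 := (LX.const (I := ⊤) (N := l) (z := ((ka l k : ℕ) : ZZ) ^ 12) Submodule.mem_top).mul_left
    (LX.disc_hh hl k)
  have h2 := h1.mul_left (LX.inv_disc (N := l) hl)
  have e : ZO.uu hl k = fun τ => (((((ka l k : ℕ) : ZZ) ^ 12 : ZZ) : ℂ) *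
      discriminant (hh hl k τ)) * (discriminant τ)⁻¹ := by
    funext τ
    rw [uu_eq]
    push_cast
    rfl
  rw [e]
  exact h2

/-- the canonical quotient is divisible by `l ^ 12` -/
theorem LX.uu_none {l : ℕ} (hl : 0 < l) :
    LX (Ideal.span {((l : ℕ) : ZZ) ^ 12}) l (ZO.uu hl none) := by
  have h1 := (LX.const (N := l) (Ideal.subset_span (Set.mem_singleton (((l : ℕ) : ZZ) ^ 12)))).mul_right
    (LX.disc_hh hl none)
  have h2 := h1.mul_right (LX.inv_disc (N := l) hl)
  have e : ZO.uu hl none = fun τ => (((((l : ℕ) : ZZ) ^ 12 : ZZ) : ℂ) *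
      discriminant (hh hl none τ)) * (discriminant τ)⁻¹ := by
    funext τ
    rw [uu_eq]
    push_cast
    rfl
  rw [e]
  exact h2

/-- roots of unity of order `l` are congruent to one modulo the primes above `l` -/
theorem eZ_sub_one {l : ℕ} (hl : l.Prime) {I : Ideal ZZ} (hI : I.IsPrime) (hlI : ((l : ℕ) : ZZ) ∈ I)
    (b : ℤ) : eZ b l hl.pos - 1 ∈ I := by
  have h1 : (eZ b l hl.pos) ^ l = 1 := by
    apply Subtype.ext
    show (Complex.exp (2 * Real.pi * Complex.I * b / l)) ^ l = 1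
    have hd0 : (l : ℂ) ≠ 0 := by exact_mod_cast hl.ne_zero
    rw [← Complex.exp_nat_mul]
    have : (l : ℂ) * (2 * Real.pi * Complex.I * b / l) = b * (2 * Real.pi * Complex.I) := by
      field_simp
    rw [this, Complex.exp_int_mul_two_pi_mul_I]
  have hdom : IsDomain (ZZ ⧸ I) := Ideal.Quotient.isDomain I
  have hchar : CharP (ZZ ⧸ I) l := by
    have h0 : ((l : ℕ) : ZZ ⧸ I) = 0 := by
      rw [← map_natCast (Ideal.Quotient.mk I)]
      exact Ideal.Quotient.eq_zero_iff_mem.2 hlI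
    exact (CharP.charP_iff_prime_eq_zero hl).2 h0
  have : Fact l.Prime := ⟨hl⟩
  have h2 : (Ideal.Quotient.mk I (eZ b l hl.pos) - 1) ^ l = 0 := by
    rw [sub_pow_char, one_pow, ← map_pow, h1, map_one, sub_self]
  have h3 := pow_eq_zero_iff hl.ne_zero |>.1 h2
  rw [← map_one (Ideal.Quotient.mk I), ← map_sub] at h3
  exact Ideal.Quotient.eq_zero_iff_mem.1 h3

theorem LX.uu_sub {l : ℕ} (hl : l.Prime) {I : Ideal ZZ} (hI : I.IsPrime) (hlI : ((l : ℕ) : ZZ) ∈ I)
    (b b' : Fin l) : LX I l (fun τ => ZO.uu hl.pos (some b) τ - ZO.uu hl.pos (some b') τ) := by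
  have h1 : LX I l (fun τ => discriminant (hh hl.pos (some b) τ) -
      discriminant (hh hl.pos (some b') τ)) := by
    refine ⟨⟨0, ⟨fun n => cf D 1 (eZ (kb l (some b)) l hl.pos) n -
      cf D 1 (eZ (kb l (some b')) l hl.pos) n, fun n => ?_, fun τ => ?_⟩⟩, ?_⟩
    · simp only [cf, one_pow, one_dvd, if_true, Nat.div_one]
      rw [← mul_sub]
      apply I.mul_mem_left
      have e : ∀ c : Fin l, (eZ (kb l (some c)) l hl.pos) ^ n - 1 ∈ I := fun c => by
        obtain ⟨t, ht⟩ := sub_dvd_pow_sub_pow (eZ (kb l (some c)) l hl.pos) 1 n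
        rw [one_pow] at ht
        rw [ht]
        exact I.mul_mem_right _ (eZ_sub_one hl hI hlI _)
      have := I.sub_mem (e b) (e b')
      simpa using this
    · have h1 := hasSum_cf R_D (ka_pos hl.pos (some b)) (kd_pos hl.pos (some b)) (hh_mul hl.pos (some b) τ)
      have h2 := hasSum_cf R_D (ka_pos hl.pos (some b')) (kd_pos hl.pos (some b')) (hh_mul hl.pos (some b') τ)
      rw [ka_mul_kd] at h1 h2
      refine TCx.hs_congr (h1.sub h2) (fun n => ?_) ?_
      · push_cast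
        rw [sub_mul]
        rfl
      · simp
    · have := H610.hol_sub (Hol.comp_hh disc_hol hl.pos (some b)) (Hol.comp_hh disc_hol hl.pos (some b'))
      exact this
  have h2 := h1.mul_right (LX.inv_disc (N := l) hl.pos)
  have e : (fun τ => ZO.uu hl.pos (some b) τ - ZO.uu hl.pos (some b') τ) = fun τ =>
      (discriminant (hh hl.pos (some b) τ) - discriminant (hh hl.pos (some b') τ)) *
        (discriminant τ)⁻¹ := by
    funext τ
    rw [uu_eq, uu_eq]
    simp [ka]
    ring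
  rw [e]
  exact h2

theorem LX.jj {N : ℕ} (hN : 0 < N) : LX ⊤ N jj :=
  ⟨⟨_, LI.of_lau (TBproof.lau_jj hTA.2.2 N hN)⟩, hTA.2.1⟩

theorem LX.jj_hh {l : ℕ} (hl : 0 < l) (k : Option (Fin l)) :
    LX ⊤ l (fun τ => H294ZP.jj (hh hl k τ)) := by
  have := tc.2.2.2.2 hTA.2.1 hTA.2.2 (ka l k) (kd l k) (kb l k) (ka_pos hl k) (kd_pos hl k)
    (hh hl k) (hh_mul hl k)
  rw [ka_mul_kd] at this
  exact ⟨⟨_, LI.of_lau this.1⟩, this.2⟩

/-- the power series of `q j` -/
noncomputable def W : PowerSeries ℤ :=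
  (1 + 240 * H294ZP.TA2.A) * (1 + 240 * H294ZP.TA2.A) * (1 + 240 * H294ZP.TA2.A) * V

theorem R_W : R (mp W) (fun τ => qq 1 τ * jj τ) := by
  have h := R_mul (R_mul (R_mul R_E4 R_E4) R_E4) R_V
  rw [E4_eq, ← map_mul, ← map_mul, ← map_mul] at h
  intro τ
  have h2 : HasSum (fun n => (mp W).coeff n * qq 1 τ ^ n)
      (E₄ τ * E₄ τ * E₄ τ * (qq 1 τ / discriminant τ)) := h τ
  have h3 : E₄ τ * E₄ τ * E₄ τ * (qq 1 τ / discriminant τ) = qq 1 τ * jj τ := by
    unfold jj
    ring
  rw [h3] at h2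
  exact h2

theorem R_one : R (mp 1) (fun _ => (1 : ℂ)) := by
  intro τ
  have := hasSum_ite_eq (0 : ℕ) (1 : ℂ)
  refine TCx.hs_congr this (fun n => ?_) rfl
  rw [map_one, PowerSeries.coeff_one]
  by_cases hn : n = 0
  · subst hn
    simp
  · simp [hn]

theorem R_pow {P : PowerSeries ℤ} {F : ℍ → ℂ} (h : R (mp P) F) (n : ℕ) :
    R (mp (P ^ n)) (fun τ => F τ ^ n) := by
  induction n with
  | zero =>
    simp only [pow_zero]
    exact R_one
  | succ n ih =>
    simp only [pow_succ, map_mul]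
    have := R_mul ih h
    simpa [map_pow] using this

theorem R_sub' {P Q : PowerSeries ℤ} {F G : ℍ → ℂ} (hP : R (mp P) F) (hQ : R (mp Q) G) :
    R (mp (P - Q)) (fun τ => F τ - G τ) := by
  rw [map_sub]
  exact H294ZP.TA2.R_sub hP hQ

theorem frob_dvd {p : ℕ} (hp : p.Prime) (P : PowerSeries ℤ) (n : ℕ) :
    (p : ℤ) ∣ (P.expand p hp.ne_zero - P ^ p).coeff n := by
  have : Fact p.Prime := ⟨hp⟩
  rw [← ZMod.intCast_zmod_eq_zero_iff_dvd]
  have h1 : ((P.map (Int.castRingHom (ZMod p))).expand p hp.ne_zero).map (frobenius (ZMod p) p) =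
      (P.map (Int.castRingHom (ZMod p))) ^ p :=
    MvPowerSeries.map_frobenius_expand p hp.ne_zero
  have h2 : frobenius (ZMod p) p = RingHom.id _ := by
    ext x
    simp
  rw [h2] at h1
  have h3 : (P.map (Int.castRingHom (ZMod p))).expand p hp.ne_zero =
      (P.map (Int.castRingHom (ZMod p))) ^ p := by
    rw [← h1]
    ext n
    simp
  have h4 : ((P.expand p hp.ne_zero - P ^ p).map (Int.castRingHom (ZMod p))) = 0 := by
    rw [map_sub, map_pow, ← h3, PowerSeries.map_expand, sub_self]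
  have h5 := congrArg (PowerSeries.coeff n) h4
  rw [PowerSeries.coeff_map, map_zero] at h5
  simpa using h5

theorem LX.jj_frob {l : ℕ} (hl : l.Prime) :
    LX (Ideal.span {((l : ℕ) : ZZ)}) l (fun τ => H294ZP.jj (hh hl.pos none τ) - H294ZP.jj τ ^ l) := by
  refine ⟨⟨l * l, ?_⟩, ?_⟩
  · apply LI.reindex hl.pos
    refine LI.of_R (P := W.expand l hl.ne_zero - W ^ l) ?_ (fun n => ?_)
    · have h1 := R_pow R_W l
      have h2 : R (mp (W.expand l hl.ne_zero)) (fun τ => qq 1 τ ^ l * H294ZP.jj (hh hl.pos none τ)) := by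
        intro τ
        have h3 := R_W (hh hl.pos none τ)
        have hq : qq 1 (hh hl.pos none τ) = qq 1 τ ^ l := by
          have h5 := hh_mul hl.pos none τ
          simp only [kd, ka, kb, Nat.cast_one, mul_one, Int.cast_zero, add_zero] at h5
          unfold qq
          rw [← Complex.exp_nat_mul, h5]
          congr 1
          push_cast
          ring
        rw [hq] at h3
        have hinj : Function.Injective (fun n : ℕ => l * n) := by
          intro x y hxy
          exact Nat.eq_of_mul_eq_mul_left hl.pos hxy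
        rw [← hinj.hasSum_iff]
        · refine TCx.hs_congr h3 (fun n => ?_) (by simp only [hq])
          simp only [Function.comp, PowerSeries.coeff_map, PowerSeries.coeff_expand_mul, pow_mul]
        · intro n hn
          have : ¬ l ∣ n := by
            rintro ⟨k, rfl⟩
            exact hn ⟨k, rfl⟩
          rw [PowerSeries.coeff_map, PowerSeries.coeff_expand_of_not_dvd _ _ _ this]
          simp
      have h3 := R_sub' h2 h1
      have e : (fun τ => qq 1 τ ^ l * H294ZP.jj (hh hl.pos none τ) - (qq 1 τ * H294ZP.jj τ) ^ l) =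
          fun τ => qq 1 τ ^ l * (H294ZP.jj (hh hl.pos none τ) - H294ZP.jj τ ^ l) := by
        funext τ
        rw [mul_pow]
        ring
      rw [e] at h3
      exact h3
    · obtain ⟨t, ht⟩ := frob_dvd hl W n
      rw [ht]
      push_cast
      exact Ideal.mul_mem_right _ _ (Ideal.subset_span (Set.mem_singleton _))
  · have h1 := (LX.jj_hh hl.pos none).2
    have h2 := ((LX.jj (N := l) hl.pos).pow l).2
    exact H610.hol_sub h1 h2

end Pool.Agent.N135.ZO
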