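import Mathlib

/-!
Estimates in a local ring.
-/

set_option autoImplicit false

namespace Pool.Agent.N135.ZO

open Polynomial

section ev

variable {R B : Type} [CommRing R] [CommRing B] (ρ : R →+* B)

theorem e1_sub (P : R[X]) (x y : B) : ∃ a, P.eval₂ ρ y - P.eval₂ ρ x = (y - x) * a := by
  obtain ⟨a, ha⟩ := sub_dvd_eval_sub y x (P.map ρ)
  rw [eval_map, eval_map] at ha
  exact ⟨a, ha⟩

theorem e1_taylor (P : R[X]) (x y : B) : ∃ a, P.eval₂ ρ y - P.eval₂ ρ x -
    (y - x) * (derivative P).eval₂ ρ x = (y - x) ^ 2 * a := by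
  obtain ⟨k, hk⟩ := (P.map ρ).binomExpansion x (y - x)
  rw [show x + (y - x) = y by ring, derivative_map, eval_map, eval_map, eval_map] at hk
  exact ⟨k, by rw [hk]; ring⟩

/-- the value of a polynomial in two variables -/
noncomputable def e2 (P : R[X][X]) (x u : B) : B := P.eval₂ (eval₂RingHom ρ x) u

theorem e2_eq (P : R[X][X]) (x u : B) :
    e2 ρ P x u = ∑ i ∈ P.support, (P.coeff i).eval₂ ρ x * u ^ i := by
  unfold e2
  rw [eval₂_eq_sum]
  rfl

theorem e2_sub (P : R[X][X]) (x u y w : B) :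
    ∃ a b, e2 ρ P y w - e2 ρ P x u = (y - x) * a + (w - u) * b := by
  have h1 : ∀ i, ∃ a, (P.coeff i).eval₂ ρ y - (P.coeff i).eval₂ ρ x = (y - x) * a :=
    fun i => e1_sub ρ _ x y
  choose a ha using h1
  have h2 : ∀ i : ℕ, ∃ b, w ^ i - u ^ i = (w - u) * b := fun i => sub_dvd_pow_sub_pow w u i
  choose b hb using h2
  refine ⟨∑ i ∈ P.support, a i * w ^ i, ∑ i ∈ P.support, (P.coeff i).eval₂ ρ x * b i, ?_⟩
  rw [e2_eq, e2_eq, Finset.mul_sum, Finset.mul_sum, ← Finset.sum_add_distrib,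
    ← Finset.sum_sub_distrib]
  refine Finset.sum_congr rfl fun i _ => ?_
  linear_combination w ^ i * ha i + (P.coeff i).eval₂ ρ x * hb i

theorem map_e2 {S : Type} [CommRing S] (σ : B →+* S) (P : R[X][X]) (x u : B) :
    σ (e2 ρ P x u) = e2 (σ.comp ρ) P (σ x) (σ u) := by
  rw [e2_eq, e2_eq, map_sum]
  refine Finset.sum_congr rfl fun i _ => ?_
  rw [map_mul, map_pow, hom_eval₂]

end ev

section loc

variable {B : Type} [CommRing B]

/-- difference of the roots -/
theorem root_diff {c u w hx hy α K K' a b u' w' ω : B} (t : B)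
    (h1 : c + hx * u + u ^ 2 * K = 0) (h2 : c + hy * w + w ^ 2 * K' = 0)
    (hh : hy = hx + t * α) (hK : K' = K + t * a + (w - u) * b) (hu : u = c * u') (hw : w = c * w')
    (hω : (hx + (w + u) * K' + u ^ 2 * b) * ω = 1) : ∃ δ, w - u = c * t * δ := by
  refine ⟨-ω * (α * w' + c * u' ^ 2 * a), ?_⟩
  have e : (w - u) * (hx + (w + u) * K' + u ^ 2 * b) = -(t * (α * w + u ^ 2 * a)) := by
    subst hh
    linear_combination h2 - h1 - u ^ 2 * hK
  have e2 : w - u = ω * (-(t * (α * w + u ^ 2 * a))) := by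
    rw [← e]
    linear_combination -(w - u) * hω
  rw [e2]
  subst hu hw
  ring

/-- the main identity -/
theorem core {c u w hx hy qx qy L L' M M' a b a' b' u' δ φx φy Vx Vy Qx Qy t : B}
    (hu : u = c * u') (hδ : w - u = c * t * δ)
    (hQx : Qx = qx + u * L) (hQy : Qy = qy + w * L') (hVx : Vx = hx + u * M)
    (hVy : Vy = hy + w * M') (hL : L' = L + t * a + (w - u) * b) (hM : M' = M + t * a' + (w - u) * b')
    (hφx : φx * Vx = Qx) (hφy : φy * Vy = Qy) {κ η : B} (hq : qy - qx = t * κ)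
    (hη : hy - hx = t * η) :
    ∃ r, Vx * Vy * (φy - φx) = qy * hx - qx * hy + c * t * r := by
  have hw : w = c * u' + c * t * δ := by rw [← hu]; linear_combination hδ
  have e1 : Vx * Vy * (φy - φx) = (Qy - Qx) * Vx - Qx * (Vy - Vx) := by
    linear_combination Vx * hφy - Vy * hφx
  have e2 : Qy - Qx = qy - qx + c * t * (δ * L' + u' * (a + c * δ * b)) := by
    rw [hQy, hQx]
    have : w * L' - u * L = (w - u) * L' + u * (L' - L) := by ring
    have h3 : L' - L = t * a + c * t * δ * b := by rw [hL, hδ]; ring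
    linear_combination this + L' * hδ + u * h3 + (t * a + c * t * δ * b) * hu
  have e3 : Vy - Vx = hy - hx + c * t * (δ * M' + u' * (a' + c * δ * b')) := by
    rw [hVy, hVx]
    have : w * M' - u * M = (w - u) * M' + u * (M' - M) := by ring
    have h3 : M' - M = t * a' + c * t * δ * b' := by rw [hM, hδ]; ring
    linear_combination this + M' * hδ + u * h3 + (t * a' + c * t * δ * b') * hu
  set q1 := δ * L' + u' * (a + c * δ * b) with hq1
  set v1 := δ * M' + u' * (a' + c * δ * b') with hv1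
  refine ⟨κ * (u' * M) + q1 * Vx - (u' * L) * η - Qx * v1, ?_⟩
  rw [e1, e2, e3]
  have h4 : Vx = hx + c * u' * M := by rw [hVx, hu]
  have h5 : Qx = qx + c * u' * L := by rw [hQx, hu]
  linear_combination (qy - qx) * h4 - (hy - hx) * h5 + c * u' * M * hq - c * u' * L * hη

end loc

/-- the binomial theorem for `p ≥ 3` -/
theorem pow_prime_add {B : Type} [CommRing B] {p : ℕ} (hp : p.Prime) (hp2 : p ≠ 2) (x t : B) :
    ∃ r, (x + t) ^ p = x ^ p + p * x ^ (p - 1) * t + p * t ^ 2 * r + t ^ p := by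
  classical
  have hp3 : 3 ≤ p := by
    have := hp.two_le
    omega
  have h1 : (x + t) ^ p = ∑ i ∈ Finset.range (p + 1), x ^ (p - i) * t ^ i * (p.choose i) := by
    rw [add_comm x t, add_pow]
    refine Finset.sum_congr rfl fun i _ => ?_
    ring
  have h2 : ∀ i ∈ Finset.Ico 2 p, ∃ r, x ^ (p - i) * t ^ i * (p.choose i : B) = p * t ^ 2 * r := by
    intro i hi
    rw [Finset.mem_Ico] at hi
    obtain ⟨m, hm⟩ := hp.dvd_choose_self (by omega : i ≠ 0) hi.2
    obtain ⟨s, hs⟩ := Nat.exists_eq_add_of_le hi.1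
    refine ⟨x ^ (p - i) * t ^ s * m, ?_⟩
    rw [hm, hs]
    push_cast
    ring
  choose! r hr using h2
  refine ⟨∑ i ∈ Finset.Ico 2 p, r i, ?_⟩
  rw [h1, Finset.sum_range_succ, Finset.range_eq_Ico,
    ← Finset.sum_Ico_consecutive _ (by norm_num : 0 ≤ 2) (by omega : 2 ≤ p),
    Finset.sum_congr rfl hr, ← Finset.mul_sum]
  have h3 : ∑ i ∈ Finset.Ico 0 2, x ^ (p - i) * t ^ i * (p.choose i : B) =
      x ^ p + p * x ^ (p - 1) * t := by
    rw [← Finset.range_eq_Ico, Finset.sum_range_succ, Finset.sum_range_one]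
    simp
    ring
  rw [h3]
  simp

section contr

variable {B : Type} [CommRing B]

/-- the values of the two functions involved -/
theorem qh {p : ℕ} {x y hx hy gx gy α β π qx qy : B} {t : B}
    (hqx : qx = x ^ p * hx + p * gx) (hqy : qy = y ^ p * hy + p * gy)
    (hπ : y ^ p - x ^ p = π) (hα : hy = hx + t * α) (hβ : gy = gx + t * β) :
    qy * hx - qx * hy = π * (hx * hy) + p * t * (β * hx - gx * α) := by
  rw [hqx, hqy]
  subst hα hβ
  linear_combination (hx * (hx + t * α)) * hπ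

/-- contraction -/
theorem contr {p : ℕ} {c c' t r π hx hy s Vx Vy vx vy φx φy N : B} (hc : c = p * c')
    (hN : Vx * Vy * (φy - φx) = N + c * t * r) (hN2 : N = π * (hx * hy) + p * t * s)
    (hvx : Vx * vx = 1) (hvy : Vy * vy = 1) (ux : IsUnit hx) (uy : IsUnit hy) :
    ∃ a b, IsUnit a ∧ φy - φx = π * a + p * t * b := by
  refine ⟨vx * vy * (hx * hy), vx * vy * (s + c' * r), ?_, ?_⟩
  · have h1 : IsUnit vx := IsUnit.of_mul_eq_one Vx (by rw [mul_comm]; exact hvx)
    have h2 : IsUnit vy := IsUnit.of_mul_eq_one Vy (by rw [mul_comm]; exact hvy)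
    exact (h1.mul h2).mul (ux.mul uy)
  have e : φy - φx = vx * vy * (Vx * Vy * (φy - φx)) := by
    linear_combination -(φy - φx) * Vy * vy * hvx - (φy - φx) * hvy
  rw [e, hN, hN2, hc]
  ring

end contr

section inj

variable {B : Type} [CommRing B] [IsDomain B]

/-- the derivative is divisible by `p` times a nonunit if the function takes the same value at two
points which are near to each other -/
theorem noninj {p : ℕ} (hp : p.Prime) (hp2 : p ≠ 2) (hpB : (p : B) ≠ 0)
    {x y hx hy gx gy h' g' η γ qx qy c c' r t w u'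
    L M Vx vx Qx φx D s : B} (hty : y = x + t) (ht : t ^ (p - 1) = p * w) (ht0 : t ≠ 0)
    (hqx : qx = x ^ p * hx + p * gx) (hqy : qy = y ^ p * hy + p * gy)
    (hh : hy = hx + t * h' + t ^ 2 * η) (hg : gy = gx + t * g' + t ^ 2 * γ)
    (hc : c = p ^ 2 * c') (hN : qy * hx - qx * hy + c * t * r = 0)
    (hVx : Vx = hx + c * u' * M) (hQx : Qx = qx + c * u' * L) (hφ : φx * Vx = Qx)
    (hv : Vx * vx = 1)
    (hD : D * Vx = (p * x ^ (p - 1) * hx + x ^ p * h' + p * g') - φx * h' + c * s) :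
    ∃ d₁ d₂ d₃, D = p * (t * d₁ + w * d₂ + p * d₃) := by
  obtain ⟨r1, hr1⟩ := pow_prime_add hp hp2 x t
  -- the power `t ^ p`
  have htp : t ^ p = t * (p * w) := by
    rw [← ht, ← pow_succ']
    congr 1
    have := hp.two_le
    omega
  have hyp : y ^ p = x ^ p + t * p * (x ^ (p - 1) + t * r1 + w) := by
    rw [hty, hr1, htp]
    ring
  set k1 := h' * hx + t * η * hx with hk1
  set A := r1 * (hx ^ 2 + t * k1) + x ^ (p - 1) * k1 + (γ * hx - gx * η) with hA
  set M0 := x ^ (p - 1) * hx ^ 2 + (g' * hx - gx * h') with hM0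
  have hmain : qy * hx - qx * hy = t * p * (M0 + t * A + w * (hx ^ 2 + t * k1)) := by
    rw [hqx, hqy, hyp, hg, hh, hM0, hA, hk1]
    ring
  have h0 : M0 + t * A + w * (hx ^ 2 + t * k1) + p * (c' * r) = 0 := by
    rw [hmain, hc] at hN
    have : t * p * (M0 + t * A + w * (hx ^ 2 + t * k1) + p * (c' * r)) = 0 := by
      rw [← hN]; ring
    rcases mul_eq_zero.1 this with h | h
    · exact absurd h (mul_ne_zero ht0 hpB)
    · exact h
  -- the derivative
  have hDV : D * Vx ^ 2 = p * M0 + c * ((p * x ^ (p - 1) * hx + x ^ p * h' + p * g') * (u' * M) -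
      u' * L * h' + s * Vx) := by
    have e1 : D * Vx ^ 2 = (D * Vx) * Vx := by ring
    rw [e1, hD]
    have e2 : ((p * x ^ (p - 1) * hx + x ^ p * h' + p * g') - φx * h' + c * s) * Vx =
        (p * x ^ (p - 1) * hx + x ^ p * h' + p * g') * Vx - (φx * Vx) * h' + c * s * Vx := by ring
    rw [e2, hφ, hQx, hqx, hM0]
    nth_rw 1 [hVx]
    ring
  refine ⟨vx ^ 2 * (-A), vx ^ 2 * (-(hx ^ 2 + t * k1)), vx ^ 2 * (-(c' * r) + c' *
    ((p * x ^ (p - 1) * hx + x ^ p * h' + p * g') * (u' * M) - u' * L * h' + s * Vx)), ?_⟩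
  have e1 : D = vx ^ 2 * (D * Vx ^ 2) := by
    have : (Vx * vx) ^ 2 = 1 := by rw [hv, one_pow]
    linear_combination -D * this
  rw [e1, hDV]
  have hM : M0 = -(t * A + w * (hx ^ 2 + t * k1) + p * (c' * r)) := by linear_combination h0
  rw [hM, hc]
  ring

end inj

end Pool.Agent.N135.ZO
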