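import Pool.Agent.N135.ZO.Val

/-!
The canonical quotient at ordinary points.
-/

set_option autoImplicit false

namespace Pool.Agent.N135.ZO

open UpperHalfPlane H294ZP Function ModularForm Polynomial
open Pool.Agent.Y226 (ZZ ιZ ιZ_apply)

variable {V : ValuationSubring ℂ} {p : ℕ}

theorem lt_of_ne_one {z : ℂ} (hz : z ∈ V) (h : V.valuation z ≠ 1) : V.valuation z < 1 :=
  lt_of_le_of_ne ((V.valuation_le_one_iff _).2 hz) h

theorem lt_mul_mem {a b : ℂ} (ha : V.valuation a < 1) (hb : b ∈ V) : V.valuation (a * b) < 1 := by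
  rw [map_mul]
  rw [← V.valuation_le_one_iff] at hb
  calc V.valuation a * V.valuation b ≤ V.valuation a * 1 := mul_le_mul_right hb _
    _ < 1 := by rw [mul_one]; exact ha

theorem val_le {z : ℂ} (hz : z ∈ V) : V.valuation z ≤ 1 := (V.valuation_le_one_iff _).2 hz

/-- the sum of a unit and an element of the maximal ideal -/
theorem val_add_one {a b : ℂ} (ha : V.valuation a = 1) (hb : V.valuation b < 1) :
    V.valuation (a + b) = 1 := by
  rw [Valuation.map_add_eq_of_lt_left _ (by rw [ha]; exact hb), ha]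

theorem coeff_one_hp {hl : 0 < p} (P : Pkg p hl) (τ : ℍ) : (hp hl τ).coeff 1 = P.h.eval₂ ιZ (jj τ) := by
  have h1 := P.hp_der τ 0
  rw [zero_mul, add_zero] at h1
  rw [← h1, ← coeff_zero_eq_eval_zero, coeff_derivative]
  simp

theorem coeff_lt (hl : p.Prime) (hpV : V.valuation (p : ℂ) < 1) {τ : ℍ} (hτ : jj τ ∈ V) {j : ℕ}
    (hj1 : j ≠ 1) (hj2 : j ≠ p + 1) : V.valuation ((hp hl.pos τ).coeff j) < 1 := by
  set I : Ideal ZZ := Ideal.comap (ρV V) (IsLocalRing.maximalIdeal V) with hI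
  have hprime : I.IsPrime := Ideal.IsPrime.comap (ρV V)
  have hval : ∀ z : ZZ, z ∈ I ↔ V.valuation (ιZ z) < 1 := by
    intro z
    rw [hI, Ideal.mem_comap, ← ρV_coe V z]
    exact V.valuation_lt_one_iff (ρV V z)
  have hpI : ((p : ℕ) : ZZ) ∈ I := by
    rw [hval, map_natCast]
    exact hpV
  obtain ⟨Q, hQ1, hQ2⟩ := exists_hcI hl hprime hpI j hj1 hj2
  rw [hQ2 τ, eval₂_eq_sum_range]
  refine Valuation.map_sum_lt _ one_ne_zero fun i _ => ?_
  exact lt_mul_mem ((hval _).1 (hQ1 i)) (V.pow_mem hτ i)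

/-- a point with a unit quotient is ordinary -/
theorem ord_of_unit (hl : p.Prime) (hpV : V.valuation (p : ℂ) < 1) (P : Pkg p hl.pos) {τ : ℍ}
    (hτ : jj τ ∈ V) (k : Option (Fin p)) (hu : V.valuation (uu hl.pos k τ) = 1) :
    V.valuation (P.h.eval₂ ιZ (jj τ)) = 1 := by
  by_contra hcon
  have hlt := lt_of_ne_one (e1_mem P.h hτ) hcon
  have h0 := eval_hp hl.pos k τ
  rw [eval_eq_sum_range, hp_natDegree, Finset.sum_range_succ] at h0
  have hlead : (hp hl.pos τ).coeff (p + 1) = 1 := by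
    have h1 := hp_monic hl.pos τ
    unfold Polynomial.Monic Polynomial.leadingCoeff at h1
    rwa [hp_natDegree] at h1
  rw [hlead, one_mul] at h0
  have h2 : V.valuation (∑ i ∈ Finset.range (p + 1), (hp hl.pos τ).coeff i * uu hl.pos k τ ^ i) < 1 := by
    refine Valuation.map_sum_lt _ one_ne_zero fun i hi => ?_
    rw [Finset.mem_range] at hi
    have hum : uu hl.pos k τ ^ i ∈ V := V.pow_mem (uu_mem hl k hτ) i
    by_cases h1 : i = 1
    · subst h1
      rw [coeff_one_hp P]
      exact lt_mul_mem hlt hum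
    · exact lt_mul_mem (coeff_lt hl hpV hτ h1 (by omega)) hum
  have h3 : ∑ i ∈ Finset.range (p + 1), (hp hl.pos τ).coeff i * uu hl.pos k τ ^ i =
      -(uu hl.pos k τ ^ (p + 1)) := by linear_combination h0
  rw [h3, Valuation.map_neg, map_pow, hu, one_pow] at h2
  exact lt_irrefl _ h2

/-- the canonical quotient -/
theorem exists_can (hl : p.Prime) (hl2 : p ≠ 2) (hpV : V.valuation (p : ℂ) < 1) (P : Pkg p hl.pos)
    {τ : ℍ} (hτ : jj τ ∈ V) (hO : V.valuation (P.h.eval₂ ιZ (jj τ)) = 1) :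
    ∃ k, V.valuation (uu hl.pos k τ) = V.valuation (p : ℂ) ^ 12 ∧
      ∀ k', k' ≠ k → V.valuation (uu hl.pos k' τ) = 1 := by
  classical
  have hprod := prod_uu hl hl2 τ
  have hmem : ∀ k, V.valuation (uu hl.pos k τ) ≤ 1 := fun k => val_le (uu_mem hl k hτ)
  have hex : ∃ k, V.valuation (uu hl.pos k τ) ≠ 1 := by
    by_contra hcon
    push Not at hcon
    have h1 := congrArg V.valuation hprod
    rw [map_prod, map_pow, Finset.prod_congr rfl (fun k _ => hcon k), Finset.prod_const_one] at h1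
    have h2 : V.valuation (p : ℂ) ^ 12 < 1 := pow_lt_one₀ zero_le hpV (by norm_num)
    rw [← h1] at h2
    exact lt_irrefl _ h2
  obtain ⟨k, hk⟩ := hex
  have hk1 : V.valuation (uu hl.pos k τ) < 1 := lt_of_le_of_ne (hmem k) hk
  have hder := P.hp_der τ (uu hl.pos k τ)
  have hM : e2 ιZ P.M (jj τ) (uu hl.pos k τ) ∈ V := by
    have := coe_e2 V P.M ⟨jj τ, hτ⟩ ⟨uu hl.pos k τ, uu_mem hl k hτ⟩
    rw [← this]
    exact Subtype.mem _
  have hunit : V.valuation ((derivative (hp hl.pos τ)).eval (uu hl.pos k τ)) = 1 := by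
    rw [hder]
    exact val_add_one hO (lt_mul_mem hk1 hM)
  rw [eval_der, map_prod] at hunit
  have hothers : ∀ k', k' ≠ k → V.valuation (uu hl.pos k' τ) = 1 := by
    intro k' hk'
    have h1 : V.valuation (uu hl.pos k τ - uu hl.pos k' τ) = 1 := by
      have hle : ∀ j ∈ Finset.univ.erase k, V.valuation (uu hl.pos k τ - uu hl.pos j τ) ≤ 1 :=
        fun j _ => val_le (sub_mem (uu_mem hl k hτ) (uu_mem hl j hτ))
      refine le_antisymm (hle k' (Finset.mem_erase.2 ⟨hk', Finset.mem_univ _⟩)) ?_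
      rw [← hunit, ← Finset.mul_prod_erase _ _ (Finset.mem_erase.2 ⟨hk', Finset.mem_univ k'⟩)]
      calc _ ≤ V.valuation (uu hl.pos k τ - uu hl.pos k' τ) * 1 := by
            refine mul_le_mul_right (Finset.prod_le_one' fun j hj => ?_) _
            exact hle j (Finset.mem_of_mem_erase hj)
        _ = _ := mul_one _
    have h2 : uu hl.pos k' τ = -(uu hl.pos k τ - uu hl.pos k' τ) + uu hl.pos k τ := by ring
    rw [h2]
    refine val_add_one ?_ hk1
    rw [Valuation.map_neg, h1]
  refine ⟨k, ?_, hothers⟩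
  have h1 := congrArg V.valuation hprod
  rw [map_prod, map_pow, ← Finset.mul_prod_erase _ _ (Finset.mem_univ k),
    Finset.prod_congr rfl (fun j hj => hothers j (Finset.ne_of_mem_erase hj)),
    Finset.prod_const_one, mul_one] at h1
  exact h1

/-- the image under the canonical isogeny is ordinary, and there is an isogeny back with a unit
quotient -/
theorem can_next (hl : p.Prime) (hp0 : V.valuation (p : ℂ) < 1) {τ : ℍ} (hτ : jj τ ∈ V)
    {k : Option (Fin p)} (hk : V.valuation (uu hl.pos k τ) = V.valuation (p : ℂ) ^ 12)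
    (P : Pkg p hl.pos) :
    jj (hh hl.pos k τ) ∈ V ∧ V.valuation (P.h.eval₂ ιZ (jj (hh hl.pos k τ))) = 1 := by
  have hlZ : (0 : ℤ) < p := by exact_mod_cast hl.pos
  have hdet : 0 < (gk p k).det := by rw [det_gk]; exact hlZ
  have hw : jj (hh hl.pos k τ) ∈ V := rel_mem hdet (rel_hh hl.pos k τ) hτ
  refine ⟨hw, ?_⟩
  have hadj := rel_adj (rel_hh hl.pos k τ)
  have hGG := GG_adj hdet (rel_hh hl.pos k τ)
  obtain ⟨k', C, -, hCpos, hCdet, hCrel, hCGG⟩ := exists_fac (M := (gk p k).adjugate)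
    (by rw [det_adj]; exact hdet) hl (by rw [det_adj, det_gk]) hadj
  have hC1 : C.det = 1 := by
    rw [det_adj, det_gk] at hCdet
    have : (1 : ℤ) * p = C.det * p := by rw [one_mul]; exact hCdet
    exact (mul_right_cancel₀ hlZ.ne' this).symm
  rw [GG_sl hC1 hCrel, one_mul] at hCGG
  refine ord_of_unit hl hp0 P hw k' ?_
  have h1 : uu hl.pos k' (hh hl.pos k τ) * uu hl.pos k τ = (p : ℂ) ^ 12 := by
    have h2 : uu hl.pos k τ = GG (gk p k) τ (hh hl.pos k τ) := rfl
    rw [h2, ← hCGG, hGG, det_gk]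
    push_cast
    rfl
  have h3 := congrArg V.valuation h1
  rw [map_mul, hk, map_pow] at h3
  have hne : V.valuation (p : ℂ) ^ 12 ≠ 0 := by
    refine pow_ne_zero _ ?_
    rw [Valuation.ne_zero_iff]
    exact_mod_cast hl.ne_zero
  have h4 : V.valuation (uu hl.pos k' (hh hl.pos k τ)) * V.valuation (p : ℂ) ^ 12 =
      1 * V.valuation (p : ℂ) ^ 12 := by rw [h3, one_mul]
  exact mul_right_cancel₀ hne h4

/-- the points fixed by a matrix whose eigenvalues are not congruent modulo `p` are ordinary -/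
theorem ord_of_fix (hl : p.Prime) (hpV : V.valuation (p : ℂ) < 1) (P : Pkg p hl.pos) {τ : ℍ}
    (hτ : jj τ ∈ V) {M : M2} {e : ℕ} (he : 0 < e) (hdet : M.det = (p : ℤ) ^ e)
    (htr : ¬ (p : ℤ) ∣ M.trace) (hfix : Rel M τ τ) :
    V.valuation (P.h.eval₂ ιZ (jj τ)) = 1 := by
  have hlZ : (0 : ℤ) < p := by exact_mod_cast hl.pos
  have hMpos : 0 < M.det := by rw [hdet]; positivity
  have key : ∀ N : M2, N.det = (p : ℤ) ^ e → Rel N τ τ →
      V.valuation (GG N τ τ) = 1 → V.valuation (P.h.eval₂ ιZ (jj τ)) = 1 := by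
    intro N hN hrel hv
    have hNpos : 0 < N.det := by rw [hN]; positivity
    obtain ⟨k, C, -, hCpos, hCdet, hCrel, hCGG⟩ := exists_fac hNpos hl
      (by rw [hN]; exact dvd_pow_self _ he.ne') hrel
    rw [hCGG] at hv
    have hw : jj (hh hl.pos k τ) ∈ V := rel_mem (M := gk p k) (by rw [det_gk]; exact hlZ)
      (rel_hh hl.pos k τ) hτ
    exact ord_of_unit hl hpV P hτ k (val_mul_one (GG_mem hCpos hCrel hw) (uu_mem hl k hτ) hv).2
  -- the trace is a unit
  have htrV : V.valuation ((M.trace : ℤ) : ℂ) = 1 := by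
    have hcop : IsCoprime M.trace (p : ℤ) := by
      have := (Nat.prime_iff_prime_int.1 hl).irreducible.coprime_iff_not_dvd.2 htr
      exact this.symm
    obtain ⟨a, b, hab⟩ := hcop
    have h1 : (M.trace : ℂ) * (a : ℂ) = 1 + (p : ℂ) * (-(b : ℂ)) := by
      have : ((a * M.trace + b * p : ℤ) : ℂ) = ((1 : ℤ) : ℂ) := by rw [hab]
      push_cast at this
      linear_combination this
    have h2 : V.valuation (1 + (p : ℂ) * (-(b : ℂ))) = 1 :=
      val_add_one (map_one _) (lt_mul_mem hpV (V.neg_mem _ (intCast_mem V b)))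
    rw [← h1] at h2
    exact (val_mul_one (intCast_mem V _) (intCast_mem V _) h2).1
  have hΔ := discriminant_ne_zero τ
  have hd1 := den_ne hMpos τ
  have hd2 := den_ne (M := M.adjugate) (by rw [det_adj]; exact hMpos) τ
  have hsum : den M τ + den M.adjugate τ = (M.trace : ℂ) := by
    unfold den
    rw [Matrix.adjugate_fin_two, Matrix.trace_fin_two]
    simp only [Matrix.of_apply, Matrix.cons_val', Matrix.cons_val_zero, Matrix.cons_val_one,
      Matrix.cons_val_fin_one]
    push_cast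
    ring
  have hmul : den M τ * den M.adjugate τ = (M.det : ℂ) := by
    have h1 := den_mul (A := M.adjugate) (B := M) hfix
    have h2 : den (M.adjugate * M) τ = (M.det : ℂ) := by
      rw [Matrix.adjugate_mul]
      simp [den]
    rw [mul_comm, ← h1, h2]
  -- both are integral
  have hpow1 : den M τ ^ 12 = GG M.adjugate τ τ := by
    unfold GG
    rw [det_adj, mul_div_assoc, div_self hΔ, mul_one, ← hmul, mul_div_assoc, div_self hd2, mul_one]
  have hpow2 : den M.adjugate τ ^ 12 = GG M τ τ := by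
    unfold GG
    rw [mul_div_assoc, div_self hΔ, mul_one, ← hmul, mul_comm, mul_div_assoc, div_self hd1, mul_one]
  have hm1 : V.valuation (den M τ) ≤ 1 := by
    have h1 := val_le (V := V) (GG_mem (M := M.adjugate) (by rw [det_adj]; exact hMpos)
      (rel_adj hfix) hτ)
    rw [← hpow1, map_pow] at h1
    exact (pow_le_one_iff (by norm_num)).1 h1
  have hm2 : V.valuation (den M.adjugate τ) ≤ 1 := by
    have h1 := val_le (V := V) (GG_mem (M := M) hMpos hfix hτ)
    rw [← hpow2, map_pow] at h1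
    exact (pow_le_one_iff (by norm_num)).1 h1
  rcases eq_or_lt_of_le hm1 with h1 | h1
  · refine key M.adjugate (by rw [det_adj, hdet]) (rel_adj hfix) ?_
    rw [← hpow1, map_pow, h1, one_pow]
  rcases eq_or_lt_of_le hm2 with h2 | h2
  · refine key M hdet hfix ?_
    rw [← hpow2, map_pow, h2, one_pow]
  · exfalso
    have h3 := Valuation.map_add_lt V.valuation h1 h2
    rw [hsum, htrV] at h3
    exact lt_irrefl _ h3

end Pool.Agent.N135.ZO
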