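import Pool.Agent.N135.ZO.Prd
import Pool.Agent.Y949.J.Ram2

/-!
The derivative of `j`.
-/

set_option autoImplicit false

namespace Pool.Agent.N135.ZO

open UpperHalfPlane H294ZP Function ModularForm EisensteinSeries Derivative

/-- the derivative of a function on the upper half plane -/
noncomputable def dd (f : ℍ → ℂ) (τ : ℍ) : ℂ := deriv (f ∘ ofComplex) τ

theorem hasDerivAt_dd {f : ℍ → ℂ} (hf : Hol f) (τ : ℍ) :
    HasDerivAt (f ∘ ofComplex) (dd f τ) (τ : ℂ) :=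
  (DifferentiableOn.differentiableAt hf (isOpen_upperHalfPlaneSet.mem_nhds τ.im_pos)).hasDerivAt

theorem dd_E4 (τ : ℍ) : dd (fun w => E₄ w) τ =
    (2 * Real.pi * Complex.I) * (3⁻¹ * (E2 τ * E₄ τ - E₆ τ)) := by
  have h := Pool.Agent.Y949.J.ram4 τ
  unfold normalizedDerivOfComplex at h
  rw [← h, mul_inv_cancel_left₀ Complex.two_pi_I_ne_zero]
  rfl

theorem dd_E6 (τ : ℍ) : dd (fun w => E₆ w) τ =
    (2 * Real.pi * Complex.I) * (2⁻¹ * (E2 τ * E₆ τ - E₄ τ ^ 2)) := by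
  have h := Pool.Agent.Y949.J.ram6 τ
  unfold normalizedDerivOfComplex at h
  rw [← h, mul_inv_cancel_left₀ Complex.two_pi_I_ne_zero]
  rfl

theorem hol_E4 : Hol (fun w => E₄ w) := UpperHalfPlane.mdifferentiable_iff.mp (E₄).holo'

theorem hol_E6 : Hol (fun w => E₆ w) := UpperHalfPlane.mdifferentiable_iff.mp (E₆).holo'

theorem hasDerivAt_disc (τ : ℍ) : HasDerivAt ((fun w => discriminant w) ∘ ofComplex)
    ((2 * Real.pi * Complex.I) * (E2 τ * discriminant τ)) (τ : ℂ) := by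
  have h4 := hasDerivAt_dd hol_E4 τ
  have h6 := hasDerivAt_dd hol_E6 τ
  rw [dd_E4] at h4
  rw [dd_E6] at h6
  have h := ((h4.pow 3).sub (h6.pow 2)).div_const 1728
  have e : ((fun w => discriminant w) ∘ ofComplex) = fun z =>
      ((((fun w => E₄ w) ∘ ofComplex) ^ 3 - ((fun w => E₆ w) ∘ ofComplex) ^ 2) z) / 1728 := by
    funext z
    simp only [Function.comp, Pi.sub_apply, Pi.pow_apply]
    rw [discriminant_eq_E₄_cube_sub_E₆_sq]
  rw [e]
  refine h.congr_deriv ?_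
  have e4 : ((fun w => E₄ w) ∘ ofComplex) (τ : ℂ) = E₄ τ := by simp
  have e6 : ((fun w => E₆ w) ∘ ofComplex) (τ : ℂ) = E₆ τ := by simp
  rw [e4, e6, discriminant_eq_E₄_cube_sub_E₆_sq]
  push_cast
  ring

theorem dd_jj (τ : ℍ) : dd jj τ =
    -(2 * Real.pi * Complex.I) * (E₄ τ ^ 2 * E₆ τ / discriminant τ) := by
  have h4 := hasDerivAt_dd hol_E4 τ
  rw [dd_E4] at h4
  have hΔ := hasDerivAt_disc τ
  have hne : ((fun w => discriminant w) ∘ ofComplex) (τ : ℂ) ≠ 0 := discriminant_ne_zero _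
  have h := (h4.pow 3).div hΔ hne
  have e : (jj ∘ ofComplex) = (((fun w => E₄ w) ∘ ofComplex) ^ 3 /
      ((fun w => discriminant w) ∘ ofComplex)) := by
    funext z
    rfl
  have h2 := hasDerivAt_dd hTA.2.1 τ
  rw [e] at h2
  rw [h2.unique h]
  have e4 : ((fun w => E₄ w) ∘ ofComplex) (τ : ℂ) = E₄ τ := by simp
  have eΔ : ((fun w => discriminant w) ∘ ofComplex) (τ : ℂ) = discriminant τ := by simp
  simp only [Pi.pow_apply]
  rw [e4, eΔ]
  have hd := discriminant_ne_zero τ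
  field_simp
  push_cast
  ring

theorem E4_cube (τ : ℍ) : E₄ τ ^ 3 = jj τ * discriminant τ := by
  unfold jj
  rw [div_mul_cancel₀ _ (discriminant_ne_zero τ)]

theorem E6_sq (τ : ℍ) : E₆ τ ^ 2 = (jj τ - 1728) * discriminant τ := by
  have h1 := E4_cube τ
  have h2 := discriminant_eq_E₄_cube_sub_E₆_sq τ
  have h3 : E₄ τ ^ 3 - E₆ τ ^ 2 = 1728 * discriminant τ := by
    rw [h2]; ring
  linear_combination h1 - h3

theorem dd_jj6 (τ : ℍ) : dd jj τ ^ 6 =
    (2 * Real.pi * Complex.I) ^ 6 * (jj τ ^ 4 * (jj τ - 1728) ^ 3 * discriminant τ) := by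
  rw [dd_jj]
  have hd := discriminant_ne_zero τ
  have h1 : (E₄ τ ^ 2 * E₆ τ / discriminant τ) ^ 6 = jj τ ^ 4 * (jj τ - 1728) ^ 3 * discriminant τ := by
    have e : (E₄ τ ^ 2 * E₆ τ / discriminant τ) ^ 6 =
        (E₄ τ ^ 3) ^ 4 * (E₆ τ ^ 2) ^ 3 / discriminant τ ^ 6 := by
      rw [div_pow]
      ring
    rw [e, E4_cube, E6_sq]
    field_simp
  rw [mul_pow, h1]
  ring

variable {l : ℕ}

theorem dd_comp (hl : 0 < l) (k : Option (Fin l)) {f : ℍ → ℂ} (hf : Hol f) (τ : ℍ) :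
    dd (fun w => f (hh hl k w)) τ = (ka l k : ℂ) / kd l k * dd f (hh hl k τ) := by
  have hd0 : (kd l k : ℂ) ≠ 0 := by exact_mod_cast (kd_pos hl k).ne'
  have h1 := hasDerivAt_dd hf (hh hl k τ)
  have e1 : (hh hl k τ : ℂ) = ((ka l k : ℂ) * τ + kb l k) / kd l k := by
    rw [eq_div_iff hd0]
    exact hh_mul hl k τ
  rw [e1] at h1
  have h2 : HasDerivAt (fun z : ℂ => ((ka l k : ℂ) * z + kb l k) / kd l k)
      ((ka l k : ℂ) * 1 / kd l k) (τ : ℂ) :=
    (((hasDerivAt_id (τ : ℂ)).const_mul (ka l k : ℂ)).add_const (kb l k : ℂ)).div_const _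
  have h3 := h1.comp (τ : ℂ) h2
  have h4 : ((fun w => f (hh hl k w)) ∘ ofComplex) =ᶠ[nhds (τ : ℂ)]
      ((f ∘ ofComplex) ∘ fun z : ℂ => ((ka l k : ℂ) * z + kb l k) / kd l k) := by
    filter_upwards [isOpen_upperHalfPlaneSet.mem_nhds τ.im_pos] with z hz
    have hz' : 0 < z.im := hz
    have him : 0 < (((ka l k : ℂ) * z + kb l k) / kd l k).im := by
      have : (((ka l k : ℂ) * z + kb l k) / kd l k).im = ka l k * z.im / kd l k := by
        rw [Complex.div_natCast_im]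
        simp
      rw [this]
      have : (0 : ℝ) < ka l k := by exact_mod_cast ka_pos hl k
      have : (0 : ℝ) < kd l k := by exact_mod_cast kd_pos hl k
      positivity
    simp only [Function.comp]
    rw [ofComplex_apply_of_im_pos hz', ofComplex_apply_of_im_pos him]
    congr 1
  have h5 := (h3.congr_of_eventuallyEq h4).deriv
  rw [show dd (fun w => f (hh hl k w)) τ = deriv ((fun w => f (hh hl k w)) ∘ ofComplex) τ from rfl,
    h5]
  ring

/-- the sixth power of the derivative of `j (g_k τ)` with respect to `j τ` -/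
theorem der6 (hl : 0 < l) (k : Option (Fin l)) (τ : ℍ) :
    (l : ℂ) ^ 6 * dd (fun w => jj (hh hl k w)) τ ^ 6 * (jj τ ^ 4 * (jj τ - 1728) ^ 3) =
      uu hl k τ * (jj (hh hl k τ) ^ 4 * (jj (hh hl k τ) - 1728) ^ 3) * dd jj τ ^ 6 := by
  rw [dd_comp hl k hTA.2.1, mul_pow, dd_jj6, dd_jj6, uu_eq]
  have hd := discriminant_ne_zero τ
  have hd0 : (kd l k : ℂ) ≠ 0 := by exact_mod_cast (kd_pos hl k).ne'
  have hl' : (l : ℂ) = ka l k * kd l k := by exact_mod_cast (ka_mul_kd l k).symm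
  rw [hl']
  field_simp

theorem dd_jj_ne {τ : ℍ} (h0 : jj τ ≠ 0) (h1 : jj τ ≠ 1728) : dd jj τ ≠ 0 := by
  intro h
  have h2 := dd_jj6 τ
  rw [h, zero_pow (by norm_num)] at h2
  have h3 : jj τ - 1728 ≠ 0 := sub_ne_zero.2 h1
  have h4 := discriminant_ne_zero τ
  exact (mul_ne_zero (pow_ne_zero _ Complex.two_pi_I_ne_zero)
    (mul_ne_zero (mul_ne_zero (pow_ne_zero _ h0) (pow_ne_zero _ h3)) h4)) h2.symm

end Pool.Agent.N135.ZO
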