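import Pool.Agent.N135.ZO.Mat
import Pool.Agent.H676R4.ZPTF

/-!
The representatives of the matrices of prime determinant.
-/

set_option autoImplicit false

namespace Pool.Agent.N135.ZO

open UpperHalfPlane H294ZP Function ModularForm

/-- the upper left entry -/
def ka (l : ℕ) : Option (Fin l) → ℕ
  | none => l
  | some _ => 1

/-- the lower right entry -/
def kd (l : ℕ) : Option (Fin l) → ℕ
  | none => 1
  | some _ => l

/-- the upper right entry -/
def kb (l : ℕ) : Option (Fin l) → ℤ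
  | none => 0
  | some b => (b : ℕ)

/-- the representative -/
def gk (l : ℕ) (k : Option (Fin l)) : M2 := !![(ka l k : ℤ), kb l k; 0, (kd l k : ℤ)]

theorem ka_pos {l : ℕ} (hl : 0 < l) (k : Option (Fin l)) : 0 < ka l k := by
  cases k <;> simp [ka, hl]

theorem kd_pos {l : ℕ} (hl : 0 < l) (k : Option (Fin l)) : 0 < kd l k := by
  cases k <;> simp [kd, hl]

theorem ka_mul_kd (l : ℕ) (k : Option (Fin l)) : ka l k * kd l k = l := by
  cases k <;> simp [ka, kd]

theorem det_gk (l : ℕ) (k : Option (Fin l)) : (gk l k).det = l := by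
  rw [gk, Matrix.det_fin_two_of, mul_zero, sub_zero]
  exact_mod_cast ka_mul_kd l k

/-- the point `g_k τ` -/
noncomputable def hh {l : ℕ} (hl : 0 < l) (k : Option (Fin l)) (τ : ℍ) : ℍ :=
  TF676.hk (ka l k) (kd l k) (kb l k) (ka_pos hl k) (kd_pos hl k) τ

theorem hh_mul {l : ℕ} (hl : 0 < l) (k : Option (Fin l)) (τ : ℍ) :
    (hh hl k τ : ℂ) * (kd l k : ℕ) = (ka l k : ℕ) * τ + (kb l k : ℤ) :=
  TF676.hk_mul _ _ _ _ _ _

theorem rel_hh {l : ℕ} (hl : 0 < l) (k : Option (Fin l)) (τ : ℍ) : Rel (gk l k) τ (hh hl k τ) := by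
  have := hh_mul hl k τ
  simp only [Rel, den, num, gk, Matrix.of_apply, Matrix.cons_val', Matrix.cons_val_zero,
    Matrix.cons_val_one, Matrix.cons_val_fin_one]
  push_cast
  rw [← this]
  ring

/-- factorization of a matrix whose determinant is divisible by a prime -/
theorem factor {l : ℕ} (hl : l.Prime) (C : M2) (h : (l : ℤ) ∣ C.det) :
    ∃ (k : Option (Fin l)) (C' : M2), C = C' * gk l k := by
  have hlp : Prime (l : ℤ) := Nat.prime_iff_prime_int.1 hl
  have : Fact l.Prime := ⟨hl⟩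
  rw [det_eq] at h
  have key : ∀ i : Fin 2, ¬ (l : ℤ) ∣ C i 0 → ∃ b : Fin l, ∀ i', (l : ℤ) ∣ C i' 1 - (b : ℕ) * C i' 0 := by
    intro i hi
    have hi' : ((C i 0 : ℤ) : ZMod l) ≠ 0 := fun h0 =>
      hi ((ZMod.intCast_zmod_eq_zero_iff_dvd _ l).1 h0)
    set z : ZMod l := ((C i 1 : ℤ) : ZMod l) / ((C i 0 : ℤ) : ZMod l) with hz
    have hb : ((z.val : ℕ) : ZMod l) = z := ZMod.natCast_zmod_val z
    have h1 : (l : ℤ) ∣ C i 1 - (z.val : ℕ) * C i 0 := by
      rw [← ZMod.intCast_zmod_eq_zero_iff_dvd]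
      push_cast
      rw [hb, hz, div_mul_cancel₀ _ hi', sub_self]
    refine ⟨⟨z.val, ZMod.val_lt z⟩, fun i' => ?_⟩
    simp only
    obtain ⟨t, ht⟩ := h1
    have h2 : (l : ℤ) ∣ (C i' 1 - (z.val : ℕ) * C i' 0) * C i 0 := by
      have e : (C i' 1 - (z.val : ℕ) * C i' 0) * C i 0 =
          (C i 0 * C i' 1 - C i 1 * C i' 0) + (C i 1 - (z.val : ℕ) * C i 0) * C i' 0 := by ring
      rw [e, ht]
      refine dvd_add ?_ ?_
      · fin_cases i <;> fin_cases i'
        · simp [mul_comm]
        · exact h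
        · have : C 1 0 * C 0 1 - C 1 1 * C 0 0 = -(C 0 0 * C 1 1 - C 0 1 * C 1 0) := by ring
          simp only [Fin.mk_one, Fin.zero_eta]
          rw [this]
          exact (dvd_neg).2 h
        · simp [mul_comm]
      · rw [mul_assoc]
        exact dvd_mul_right _ _
    rcases hlp.dvd_or_dvd h2 with h3 | h3
    · exact h3
    · exact absurd h3 hi
  by_cases h0 : (l : ℤ) ∣ C 0 0 ∧ (l : ℤ) ∣ C 1 0
  · obtain ⟨⟨s, hs⟩, ⟨t, ht⟩⟩ := h0
    refine ⟨none, !![s, C 0 1; t, C 1 1], ?_⟩
    ext i j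
    rw [mul_entries]
    fin_cases i <;> fin_cases j <;> simp [gk, ka, kb, kd, hs, ht, mul_comm]
  · have h1 : ∃ i : Fin 2, ¬ (l : ℤ) ∣ C i 0 := by
      by_contra hcon
      push Not at hcon
      exact h0 ⟨hcon 0, hcon 1⟩
    obtain ⟨i, hi⟩ := h1
    obtain ⟨b, hb⟩ := key i hi
    obtain ⟨s, hs⟩ := hb 0
    obtain ⟨t, ht⟩ := hb 1
    refine ⟨some b, !![C 0 0, s; C 1 0, t], ?_⟩
    have hs' : C 0 1 = C 0 0 * (b : ℕ) + s * l := by linear_combination hs
    have ht' : C 1 1 = C 1 0 * (b : ℕ) + t * l := by linear_combination ht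
    ext i j
    rw [mul_entries]
    fin_cases i <;> fin_cases j <;> simp [gk, ka, kb, kd, hs', ht']

theorem gk_unique {l : ℕ} (hl : 1 < l) {k k' : Option (Fin l)} {E : M2}
    (h : gk l k' = E * gk l k) : k = k' := by
  have e00 := congrFun (congrFun h 0) 0
  have e01 := congrFun (congrFun h 0) 1
  have e10 := congrFun (congrFun h 1) 0
  have e11 := congrFun (congrFun h 1) 1
  rw [mul_entries] at e00 e01 e10 e11
  cases k with
  | none =>
    cases k' with
    | none => rfl
    | some b' =>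
      exfalso
      simp [gk, ka, kb, kd] at e00
      have h1 : (l : ℤ) ∣ 1 := ⟨E 0 0, by rw [mul_comm]; exact e00⟩
      have h2 := Int.le_of_dvd one_pos h1
      omega
  | some b =>
    cases k' with
    | none =>
      exfalso
      simp [gk, ka, kb, kd] at e00 e01 e10 e11
      rw [← e10] at e11
      have h1 : (l : ℤ) ∣ 1 := ⟨E 1 1, by rw [e11]; ring⟩
      have h2 := Int.le_of_dvd one_pos h1
      omega
    | some b' =>
      simp [gk, ka, kb, kd] at e00 e01 e10 e11
      rw [← e00] at e01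
      have hb := b.2
      have hb' := b'.2
      congr 1
      apply Fin.ext
      have e1 : ((b' : ℕ) : ℤ) = (b : ℕ) + E 0 1 * l := by linarith
      have h0 : E 0 1 = 0 := by
        by_contra hne
        rcases lt_or_gt_of_ne hne with h1 | h1
        · have : E 0 1 * (l : ℤ) ≤ -1 * l := mul_le_mul_of_nonneg_right (by omega) (by omega)
          omega
        · have : 1 * (l : ℤ) ≤ E 0 1 * l := mul_le_mul_of_nonneg_right (by omega) (by omega)
          omega
      rw [h0] at e1
      omega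

theorem det_mul' (A B : M2) : (A * B).det = A.det * B.det := Matrix.det_mul A B

/-- the representatives are permuted by the modular group -/
theorem perm {l : ℕ} (hl : l.Prime) {γ : M2} (hγ : γ.det = 1) {τ w : ℍ} (hw : Rel γ τ w) :
    ∃ σ : Equiv.Perm (Option (Fin l)), ∀ k,
      jj (hh hl.pos k w) = jj (hh hl.pos (σ k) τ) ∧
      GG (gk l k) w (hh hl.pos k w) = GG (gk l (σ k)) τ (hh hl.pos (σ k) τ) := by
  classical
  have hl0 : (l : ℤ) ≠ 0 := by exact_mod_cast hl.ne_zero
  have h1 : ∀ k : Option (Fin l), ∃ (k' : Option (Fin l)) (E : M2), gk l k * γ = E * gk l k' := by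
    intro k
    apply factor hl
    rw [det_mul', det_gk]
    exact dvd_mul_right _ _
  choose s E hE using h1
  have hdet : ∀ k, (E k).det = 1 := by
    intro k
    have := congrArg Matrix.det (hE k)
    rw [det_mul', det_mul', det_gk, det_gk, hγ] at this
    exact mul_right_cancel₀ hl0 (by rw [← this]; ring)
  have hinj : Injective s := by
    intro k k' hkk
    have e1 := hE k
    have e2 := hE k'
    rw [← hkk] at e2
    apply gk_unique hl.one_lt (E := E k' * (E k).adjugate)
    have e3 : (E k).adjugate * (gk l k * γ) = gk l (s k) := by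
      rw [e1, ← mul_assoc, Matrix.adjugate_mul, hdet k, one_smul, one_mul]
    have e4 : gk l k' * γ = (E k' * (E k).adjugate * gk l k) * γ := by
      rw [e2, ← e3]
      simp only [mul_assoc]
    have e5 := congrArg (fun x => x * γ.adjugate) e4
    rw [mul_assoc, mul_assoc, Matrix.mul_adjugate, hγ, one_smul, mul_one, mul_one] at e5
    exact e5
  refine ⟨Equiv.ofBijective s (Finite.injective_iff_bijective.1 hinj), fun k => ?_⟩
  show jj (hh hl.pos k w) = jj (hh hl.pos (s k) τ) ∧
      GG (gk l k) w (hh hl.pos k w) = GG (gk l (s k)) τ (hh hl.pos (s k) τ)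
  have hlZ : (0 : ℤ) < l := by exact_mod_cast hl.pos
  have r1 : Rel (gk l k * γ) τ (hh hl.pos k w) := hw.mul (rel_hh hl.pos k w)
  obtain ⟨z, hz⟩ := exists_rel (M := E k) (by rw [hdet k]; norm_num) (hh hl.pos (s k) τ)
  have r2 : Rel (E k * gk l (s k)) τ z := (rel_hh hl.pos (s k) τ).mul hz
  rw [← hE k] at r2
  have hzz : hh hl.pos k w = z := Rel.unique (by rw [det_mul', det_gk, hγ]; simpa using hlZ) r1 r2
  have hz' : Rel (E k) (hh hl.pos (s k) τ) (hh hl.pos k w) := by rw [hzz]; exact hz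
  refine ⟨hz'.jj (hdet k), ?_⟩
  have g1 := GG_mul (A := gk l k) (B := γ) (by rw [det_gk]; exact hlZ) (by rw [hγ]; norm_num)
    (z := hh hl.pos k w) hw
  have g2 := GG_mul (A := E k) (B := gk l (s k)) (by rw [hdet k]; norm_num)
    (by rw [det_gk]; exact hlZ) (z := hh hl.pos k w) (rel_hh hl.pos (s k) τ)
  rw [hE k, g2, GG_sl (hdet k) hz', GG_sl hγ hw, one_mul, mul_one] at g1
  exact g1.symm

end Pool.Agent.N135.ZO
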