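import Pool.Agent.N135.ZO.Loc

/-!
From number fields to valuation rings.
-/

set_option autoImplicit false

namespace Pool.Agent.N135.ZO

open UpperHalfPlane H294ZP Function NumberField IsDedekindDomain

open MvPolynomial in
/-- Above every prime ideal of a ring `Λ ⊆ ℂ` there is a valuation ring of `ℂ` which extends the
Gauss valuation. -/
theorem exists_place_gauss {Λ : Type} [CommRing Λ] [Algebra Λ ℂ] (𝔭 : Ideal Λ) [𝔭.IsPrime]
    {τ : Type} (x : τ → ℂ) (hx : AlgebraicIndependent Λ x) :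
    ∃ V : ValuationSubring ℂ, (∀ P : MvPolynomial τ Λ, V.valuation (aeval x P) ≤ 1) ∧
      (∀ P : MvPolynomial τ Λ, V.valuation (aeval x P) < 1 ↔
        MvPolynomial.map (Ideal.Quotient.mk 𝔭) P = 0) := by
  classical
  let f : MvPolynomial τ Λ →+* ℂ := (aeval x : MvPolynomial τ Λ →ₐ[Λ] ℂ).toRingHom
  have hf : Function.Injective f := hx
  let e : MvPolynomial τ Λ ≃+* f.range := RingEquiv.ofBijective f.rangeRestrict
    ⟨fun a b h => hf (congrArg Subtype.val h), f.rangeRestrict_surjective⟩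
  let g : MvPolynomial τ Λ →+* MvPolynomial τ (Λ ⧸ 𝔭) := MvPolynomial.map (Ideal.Quotient.mk 𝔭)
  let P' : Ideal (MvPolynomial τ Λ) := RingHom.ker g
  have hP' : P'.IsPrime := RingHom.ker_isPrime g
  let P : Ideal f.range := Ideal.comap (e.symm : f.range →+* MvPolynomial τ Λ) P'
  have hP : P.IsPrime := Ideal.comap_isPrime _ _
  obtain ⟨V, hV⟩ := (LocalSubring.ofPrime f.range P).exists_le_valuationSubring
  have hmem : ∀ z : MvPolynomial τ Λ, f z ∈ V := fun z =>
    hV.1 (LocalSubring.le_ofPrime _ _ ⟨z, rfl⟩)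
  have hunit : ∀ z : MvPolynomial τ Λ, V.valuation (f z) < 1 ↔ g z = 0 := by
    intro z
    have h1 : IsUnit (algebraMap f.range (LocalSubring.ofPrime f.range P).toSubring (e z)) ↔
        e z ∈ P.primeCompl := IsLocalization.AtPrime.isUnit_to_map_iff _ P _
    have h2 : e z ∈ P.primeCompl ↔ g z ≠ 0 := by
      rw [Ideal.mem_primeCompl_iff, Ideal.mem_comap]
      rw [RingHom.coe_coe, e.symm_apply_apply, RingHom.mem_ker]
    have h3 : V.valuation (f z) = 1 ↔ IsUnit (⟨f z, hmem z⟩ : V) :=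
      (ValuationSubring.valuation_eq_one_iff V (⟨f z, hmem z⟩ : V)).symm
    have h4 : IsUnit (⟨f z, hmem z⟩ : V) ↔
        IsUnit (algebraMap f.range (LocalSubring.ofPrime f.range P).toSubring (e z)) := by
      have h5 : (⟨f z, hmem z⟩ : V) = Subring.inclusion hV.1
          (algebraMap f.range (LocalSubring.ofPrime f.range P).toSubring (e z)) := rfl
      constructor
      · intro h
        exact hV.2.1 _ (h5 ▸ h)
      · intro h
        rw [h5]
        exact h.map (Subring.inclusion hV.1)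
    have h6 : V.valuation (f z) ≤ 1 := (ValuationSubring.valuation_le_one_iff _ _).2 (hmem z)
    rw [lt_iff_le_and_ne, ne_eq, h3, h4, h1, h2, not_not]
    exact ⟨fun h => h.2, fun h => ⟨h6, h⟩⟩
  exact ⟨V, fun P => (ValuationSubring.valuation_le_one_iff _ _).2 (hmem P), hunit⟩

/-- A form homogeneous of degree `deg i` in the variables `(ξ i, ζ i)`. -/
structure MForm (R : Type) (n : ℕ) where
  deg : Fin n → ℕ
  coeff : ((i : Fin n) → Fin (deg i + 1)) → R

/-- the value of a form -/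
def MForm.eval {R : Type} [CommRing R] {n : ℕ} (F : MForm R n) {k : Type} [CommRing k]
    (π : R →+* k) (ξ ζ : Fin n → k) : k :=
  ∑ e, π (F.coeff e) * ∏ i, ξ i ^ (e i : ℕ) * ζ i ^ (F.deg i - e i)

theorem MForm.map_eval {R : Type} [CommRing R] {n : ℕ} (F : MForm R n) {k k' : Type} [CommRing k]
    [CommRing k'] (π : R →+* k) (f : k →+* k') (ξ ζ : Fin n → k) :
    f (F.eval π ξ ζ) = F.eval (f.comp π) (fun i => f (ξ i)) (fun i => f (ζ i)) := by
  unfold MForm.eval
  rw [map_sum]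
  refine Finset.sum_congr rfl fun e _ => ?_
  rw [map_mul, map_prod]
  congr 1
  refine Finset.prod_congr rfl fun i _ => ?_
  rw [map_mul, map_pow, map_pow]

theorem MForm.eval_mul {R : Type} [CommRing R] {n : ℕ} (F : MForm R n) {k : Type} [CommRing k]
    (π : R →+* k) (y ζ : Fin n → k) : F.eval π (fun i => y i * ζ i) ζ =
      F.eval π y (fun _ => 1) * ∏ i, ζ i ^ F.deg i := by
  unfold MForm.eval
  rw [Finset.sum_mul]
  refine Finset.sum_congr rfl fun e _ => ?_
  rw [mul_assoc, ← Finset.prod_mul_distrib]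
  congr 1
  refine Finset.prod_congr rfl fun i _ => ?_
  rw [one_pow, mul_one, mul_pow, mul_assoc, ← pow_add]
  congr 2
  have := (e i).2
  omega

/-- The reduction modulo `v` of the variety defined by the forms is in general position: for every
point over an extension of the residue field, the number of coordinates `0` and `∞` plus the number
of algebraically independent coordinates is at most `m`. -/
def GenPos {R : Type} [CommRing R] (v : Ideal R) {n : ℕ} {T : Type} (F : T → MForm R n) (m : ℕ) :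
    Prop :=
  ∀ (k : Type) [Field k] [Algebra (R ⧸ v) k] (ξ ζ : Fin n → k), (∀ i, ξ i ≠ 0 ∨ ζ i ≠ 0) →
    (∀ t, (F t).eval ((algebraMap (R ⧸ v) k).comp (Ideal.Quotient.mk v)) ξ ζ = 0) →
    ∀ W : Finset (Fin n), AlgebraicIndependent (R ⧸ v) (fun i : W => ξ i / ζ i) →
      {i | ξ i = 0 ∨ ζ i = 0}.ncard + W.card ≤ m

open MvPolynomial in
theorem indep_affine {K : Type} [Field K] [Algebra K ℂ] {ι : Type} {x y : ι → ℂ} (s l : ι → K)
    (hl : ∀ i, l i ≠ 0) (hxy : ∀ i, x i = algebraMap K ℂ (s i) + algebraMap K ℂ (l i) * y i)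
    (hx : AlgebraicIndependent K x) : AlgebraicIndependent K y := by
  rw [algebraicIndependent_iff] at hx ⊢
  intro P hP
  let φ : MvPolynomial ι K →ₐ[K] MvPolynomial ι K := aeval fun i => C (l i)⁻¹ * (X i - C (s i))
  let ψ : MvPolynomial ι K →ₐ[K] MvPolynomial ι K := aeval fun i => C (s i) + C (l i) * X i
  have h1 : ψ (φ P) = P := by
    have : (ψ.comp φ) = AlgHom.id K _ := by
      refine MvPolynomial.algHom_ext fun i => ?_
      simp only [φ, ψ, AlgHom.comp_apply, aeval_X, map_mul, map_sub, AlgHom.id_apply]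
      rw [← algebraMap_eq, AlgHom.commutes, AlgHom.commutes, algebraMap_eq]
      rw [add_sub_cancel_left, ← mul_assoc, ← C_mul, inv_mul_cancel₀ (hl i), C_1, one_mul]
    exact DFunLike.congr_fun this P
  have h2 : aeval x (φ P) = aeval y P := by
    have : (aeval x).comp φ = (aeval y : MvPolynomial ι K →ₐ[K] ℂ) := by
      refine MvPolynomial.algHom_ext fun i => ?_
      simp only [φ, AlgHom.comp_apply, aeval_X, map_mul, map_sub]
      rw [← algebraMap_eq, AlgHom.commutes, AlgHom.commutes, hxy i, map_inv₀]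
      have : algebraMap K ℂ (l i) ≠ 0 := by
        rw [Ne, map_eq_zero]
        exact hl i
      field_simp
      ring
    exact DFunLike.congr_fun this P
  have h3 := hx (φ P) (by rw [h2, hP])
  rw [← h1, h3, map_zero]

section vals

variable {K : Type} [Field K] [NumberField K] {σ : K →+* ℂ} {v : HeightOneSpectrum (𝓞 K)}
  {V : ValuationSubring ℂ}

theorem val_lt_of (hA1 : ∀ a : 𝓞 K, V.valuation (σ a) ≤ 1)
    (hA2 : ∀ a : 𝓞 K, V.valuation (σ a) < 1 ↔ a ∈ v.asIdeal) {x : K} (hx : v.valuation K x < 1) :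
    V.valuation (σ x) < 1 := by
  obtain ⟨a, d, had⟩ := HeightOneSpectrum.exists_primeCompl_mul_eq_of_integer v x hx.le
  have hd : V.valuation (σ (algebraMap (𝓞 K) K d)) = 1 :=
    le_antisymm (hA1 _) (not_lt.1 fun h => d.2 ((hA2 d).1 h))
  have hd' : v.valuation K (algebraMap (𝓞 K) K d) ≤ 1 := v.valuation_le_one _
  have ha : v.valuation K (algebraMap (𝓞 K) K a) < 1 := by
    rw [← had, map_mul]
    calc v.valuation K x * v.valuation K (algebraMap (𝓞 K) K d) ≤ v.valuation K x * 1 :=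
          mul_le_mul_right hd' _
      _ < 1 := by rw [mul_one]; exact hx
  have ha' := (hA2 a).2 ((v.valuation_lt_one_iff_mem a).1 ha)
  have e := congrArg (fun z => V.valuation (σ z)) had
  simp only [map_mul] at e
  rw [hd, mul_one] at e
  rw [e]
  exact ha'

theorem val_le_of (hA1 : ∀ a : 𝓞 K, V.valuation (σ a) ≤ 1)
    (hA2 : ∀ a : 𝓞 K, V.valuation (σ a) < 1 ↔ a ∈ v.asIdeal) {x : K} (hx : v.valuation K x ≤ 1) :
    V.valuation (σ x) ≤ 1 := by
  obtain ⟨a, d, had⟩ := HeightOneSpectrum.exists_primeCompl_mul_eq_of_integer v x hx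
  have hd : V.valuation (σ (algebraMap (𝓞 K) K d)) = 1 :=
    le_antisymm (hA1 _) (not_lt.1 fun h => d.2 ((hA2 d).1 h))
  have e := congrArg (fun z => V.valuation (σ z)) had
  simp only [map_mul] at e
  rw [hd, mul_one] at e
  rw [e]
  exact hA1 a

theorem val_one_of (hA1 : ∀ a : 𝓞 K, V.valuation (σ a) ≤ 1)
    (hA2 : ∀ a : 𝓞 K, V.valuation (σ a) < 1 ↔ a ∈ v.asIdeal) {x : K} (hx : v.valuation K x = 1) :
    V.valuation (σ x) = 1 := by
  have h1 := val_le_of hA1 hA2 hx.le
  have h2 : V.valuation (σ x⁻¹) ≤ 1 := val_le_of hA1 hA2 (by rw [map_inv₀, hx, inv_one])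
  rw [map_inv₀, map_inv₀] at h2
  have hne : x ≠ 0 := by
    rintro rfl
    rw [map_zero] at hx
    exact zero_ne_one hx
  have hne' : V.valuation (σ x) ≠ 0 := by
    rw [Valuation.ne_zero_iff, Ne, map_eq_zero]
    exact hne
  exact le_antisymm h1 ((inv_le_one₀ (zero_lt_iff.2 hne')).1 h2)

theorem val_pow_lt (hA1 : ∀ a : 𝓞 K, V.valuation (σ a) ≤ 1)
    (hA2 : ∀ a : 𝓞 K, V.valuation (σ a) < 1 ↔ a ∈ v.asIdeal) {x y : K} (hy : y ≠ 0)
    (h : v.valuation K x < v.valuation K y) : V.valuation (σ x) < V.valuation (σ y) := by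
  have hy1 : v.valuation K y ≠ 0 := by rwa [Valuation.ne_zero_iff]
  have hy2 : V.valuation (σ y) ≠ 0 := by
    rw [Valuation.ne_zero_iff, Ne, map_eq_zero]
    exact hy
  have h1 : V.valuation (σ (x / y)) < 1 := by
    refine val_lt_of hA1 hA2 ?_
    rw [map_div₀]
    exact (div_lt_one₀ (zero_lt_iff.2 hy1)).2 h
  rw [map_div₀, map_div₀] at h1
  exact (div_lt_one₀ (zero_lt_iff.2 hy2)).1 h1

theorem val_ne (hA1 : ∀ a : 𝓞 K, V.valuation (σ a) ≤ 1)
    (hA2 : ∀ a : 𝓞 K, V.valuation (σ a) < 1 ↔ a ∈ v.asIdeal) {x y : K} (hx : x ≠ 0) (hy : y ≠ 0)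
    (h : v.valuation K x ≠ v.valuation K y) : V.valuation (σ x) ≠ V.valuation (σ y) := by
  rcases lt_or_gt_of_ne h with h | h
  · exact (val_pow_lt hA1 hA2 hy h).ne
  · exact (val_pow_lt hA1 hA2 hx h).ne'

end vals

/-- the common part -/
theorem glob_core {K : Type} [Field K] [NumberField K] (σ : K →+* ℂ) (v : HeightOneSpectrum (𝓞 K))
    {p : ℕ} (hl : p.Prime) (hl2 : p ≠ 2) (hpv : (p : 𝓞 K) ∈ v.asIdeal) {n : ℕ}
    (c : Fin n → K) (τ : Fin n → ℍ) (hτ : ∀ i, jj (τ i) = σ (c i)) (hcm : ∀ i, IsCM (τ i))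
    (hord : ∀ i, OrdAt p (τ i)) (h0 : ∀ i, v.valuation K (c i) = 1)
    (h1 : ∀ i, v.valuation K (c i - 1728) = 1)
    (hiso : ∀ i j, i ≠ j → ¬ Isog (jj (τ i)) (jj (τ j)))
    (l : Fin n → K) (hlne : ∀ i, l i ≠ 0) (hllt : ∀ i, v.valuation K (l i) < 1)
    (hlr : ∀ i (k : ℕ), v.valuation K (l i) ^ ((p - 1) * p ^ k) ≠ v.valuation K p)
    {r : ℕ} (Z : SpecialDatum n r) {x : Fin n → ℂ} (hxZ : x ∈ Z.locus) (y : Fin n → ℂ)
    (hxy : ∀ i, x i = jj (τ i) + σ (l i) * y i)
    (W : Finset (Fin n)) (hW : AlgebraicIndependent ℚ (fun i : W => x i)) :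
    ∃ V : ValuationSubring ℂ, (∀ a : 𝓞 K, V.valuation (σ a) ≤ 1) ∧
      (∀ a : 𝓞 K, V.valuation (σ a) < 1 ↔ a ∈ v.asIdeal) ∧
      (∀ i ∈ W, y i ∈ V) ∧
      (∀ Q : MvPolynomial W (𝓞 K),
        V.valuation (MvPolynomial.eval₂ (σ.comp (algebraMap (𝓞 K) K)) (fun i : W => y i) Q) < 1 ↔
        MvPolynomial.map (Ideal.Quotient.mk v.asIdeal) Q = 0) ∧
      n ≤ r + {i | V.valuation (y i) ≠ 1}.ncard := by
  classical
  let _ : Algebra K ℂ := σ.toAlgebra
  let _ : Algebra (𝓞 K) ℂ := (σ.comp (algebraMap (𝓞 K) K)).toAlgebra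
  have _ : IsScalarTower (𝓞 K) K ℂ := IsScalarTower.of_algebraMap_eq (fun _ => rfl)
  have hmap : ∀ a : 𝓞 K, algebraMap (𝓞 K) ℂ a = σ a := fun _ => rfl
  have hKx : AlgebraicIndependent K (fun i : W => x i) := hW.extendScalars K
  have hKy : AlgebraicIndependent K (fun i : W => y i) :=
    indep_affine (fun i : W => c i) (fun i : W => l i) (fun i => hlne i)
      (fun i => by rw [hxy i, hτ i]; rfl) hKx
  have hOy : AlgebraicIndependent (𝓞 K) (fun i : W => y i) :=
    hKy.restrictScalars (RingOfIntegers.coe_injective)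
  have hprime : v.asIdeal.IsPrime := v.isPrime
  obtain ⟨V, hV1, hV2⟩ := exists_place_gauss v.asIdeal (fun i : W => y i) hOy
  have hA1 : ∀ a : 𝓞 K, V.valuation (σ a) ≤ 1 := by
    intro a
    have := hV1 (MvPolynomial.C a)
    rwa [MvPolynomial.aeval_C] at this
  have hA2 : ∀ a : 𝓞 K, V.valuation (σ a) < 1 ↔ a ∈ v.asIdeal := by
    intro a
    have := hV2 (MvPolynomial.C a)
    rw [MvPolynomial.aeval_C, hmap, MvPolynomial.map_C, MvPolynomial.C_eq_zero,
      Ideal.Quotient.eq_zero_iff_mem] at this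
    exact this
  have hpV : V.valuation (p : ℂ) < 1 := by
    have := (hA2 (p : 𝓞 K)).2 hpv
    simpa using this
  have hpK : (p : K) ≠ 0 := by exact_mod_cast hl.ne_zero
  have hloc := local_main hl hl2 hpV τ hcm hord
    (fun i => by rw [hτ i]; exact val_one_of hA1 hA2 (h0 i))
    (fun i => by
      have := val_one_of hA1 hA2 (h1 i)
      have e : σ (c i - 1728) = σ (c i) - 1728 := by
        rw [map_sub]
        congr 1
        exact map_ofNat σ 1728
      rw [hτ i, ← e]
      exact this) hiso Z hxZ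
  have hyW : ∀ i ∈ W, y i ∈ V := by
    intro i hi
    have := hV1 (MvPolynomial.X ⟨i, hi⟩)
    rw [MvPolynomial.aeval_X] at this
    exact (V.valuation_le_one_iff _).1 this
  refine ⟨V, hA1, hA2, hyW, fun Q => hV2 Q, hloc.trans ?_⟩
  have hp0 : V.valuation (p : ℂ) ≠ 0 := by
    rw [Valuation.ne_zero_iff]
    exact_mod_cast hl.ne_zero
  have hexp : ∀ k : ℕ, (p - 1) * p ^ k ≠ 0 := by
    intro k
    have h2 := hl.two_le
    have h3 : 0 < p ^ k := pow_pos hl.pos k
    exact Nat.mul_ne_zero (by omega) (by omega)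
  set A : Set (Fin n) := {i | ¬ (V.valuation (x i - jj (τ i)) < 1 ∧ ∀ k : ℕ,
        V.valuation (x i - jj (τ i)) ^ ((p - 1) * p ^ k) ≠ V.valuation (p : ℂ))} with hA
  have hdis : Disjoint A {i | x i = jj (τ i)} := by
    rw [Set.disjoint_left]
    intro i hi hi'
    apply hi
    have h2 : x i - jj (τ i) = 0 := sub_eq_zero.2 hi'
    rw [h2, map_zero]
    refine ⟨zero_lt_one, fun k => ?_⟩
    rw [zero_pow (hexp k)]
    exact hp0.symm
  rw [add_assoc, ← Set.ncard_union_eq hdis (Set.toFinite _) (Set.toFinite _)]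
  refine Nat.add_le_add_left (Set.ncard_le_ncard ?_ (Set.toFinite _)) _
  have hσl : ∀ i, V.valuation (σ (l i)) ≠ 0 := by
    intro i
    rw [Valuation.ne_zero_iff, Ne, map_eq_zero]
    exact hlne i
  have hsub : ∀ i, x i - jj (τ i) = σ (l i) * y i := fun i => by rw [hxy i]; ring
  rintro i (hi | hi) hy1
  · apply hi
    have h2 : V.valuation (x i - jj (τ i)) = V.valuation (σ (l i)) := by
      rw [hsub, map_mul, hy1, mul_one]
    rw [h2]
    refine ⟨val_lt_of hA1 hA2 (hllt i), fun k => ?_⟩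
    have h3 := val_ne hA1 hA2 (x := l i ^ ((p - 1) * p ^ k)) (y := (p : K))
      (pow_ne_zero _ (hlne i)) hpK (by rw [map_pow]; exact hlr i k)
    rw [map_pow, map_pow, map_natCast] at h3
    exact h3
  · have h2 : x i - jj (τ i) = 0 := sub_eq_zero.2 hi
    rw [hsub] at h2
    have h3 := congrArg V.valuation h2
    rw [map_mul, hy1, mul_one, map_zero] at h3
    exact hσl i h3

theorem glob_main {K : Type} [Field K] [NumberField K] (σ : K →+* ℂ) (v : HeightOneSpectrum (𝓞 K))
    {p : ℕ} (hl : p.Prime) (hl2 : p ≠ 2) (hpv : (p : 𝓞 K) ∈ v.asIdeal) {n : ℕ}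
    (c : Fin n → K) (τ : Fin n → ℍ) (hτ : ∀ i, jj (τ i) = σ (c i)) (hcm : ∀ i, IsCM (τ i))
    (hord : ∀ i, OrdAt p (τ i)) (h0 : ∀ i, v.valuation K (c i) = 1)
    (h1 : ∀ i, v.valuation K (c i - 1728) = 1)
    (hiso : ∀ i j, i ≠ j → ¬ Isog (jj (τ i)) (jj (τ j)))
    (l : Fin n → K) (hlne : ∀ i, l i ≠ 0) (hllt : ∀ i, v.valuation K (l i) < 1)
    (hlr : ∀ i (k : ℕ), v.valuation K (l i) ^ ((p - 1) * p ^ k) ≠ v.valuation K p)
    {T : Type} (F : T → MForm (𝓞 K) n) {m : ℕ} (hgen : GenPos v.asIdeal F m)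
    {r : ℕ} (Z : SpecialDatum n r) {x : Fin n → ℂ} (hxZ : x ∈ Z.locus) (y : Fin n → ℂ)
    (hy : ∀ t, (F t).eval (σ.comp (algebraMap (𝓞 K) K)) y (fun _ => 1) = 0)
    (hxy : ∀ i, x i = jj (τ i) + σ (l i) * y i)
    (W : Finset (Fin n)) (hW : AlgebraicIndependent ℚ (fun i : W => x i)) :
    n + W.card ≤ r + m := by
  classical
  obtain ⟨V, hA1, hA2, hyW, hV2, hcount⟩ := glob_core σ v hl hl2 hpv c τ hτ hcm hord h0 h1 hiso l
    hlne hllt hlr Z hxZ y hxy W hW
  -- the residues
  let π : 𝓞 K →+* V :=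
    { toFun := fun a => ⟨σ a, (V.valuation_le_one_iff _).1 (hA1 a)⟩
      map_one' := Subtype.ext (by simp)
      map_mul' := fun a b => Subtype.ext (by simp)
      map_zero' := Subtype.ext (by simp)
      map_add' := fun a b => Subtype.ext (by simp) }
  let κ := IsLocalRing.ResidueField V
  let res : V →+* κ := IsLocalRing.residue V
  have hker : ∀ a ∈ v.asIdeal, (res.comp π) a = 0 := by
    intro a ha
    show IsLocalRing.residue V (π a) = 0
    rw [IsLocalRing.residue_eq_zero_iff, V.valuation_lt_one_iff]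
    exact (hA2 a).2 ha
  let _ : Algebra (𝓞 K ⧸ v.asIdeal) κ := (Ideal.Quotient.lift v.asIdeal (res.comp π) hker).toAlgebra
  have hres : (algebraMap (𝓞 K ⧸ v.asIdeal) κ).comp (Ideal.Quotient.mk v.asIdeal) = res.comp π := by
    ext a
    rfl
  -- the coordinates
  have hco : ∀ i, ∃ ξ ζ : V, (ξ : ℂ) = y i * ζ ∧ (res ξ ≠ 0 ∨ res ζ ≠ 0) ∧
      (V.valuation (y i) ≠ 1 → res ξ = 0 ∨ res ζ = 0) ∧ (y i ∈ V → ζ = 1) := by
    intro i
    by_cases hi : y i ∈ V
    · refine ⟨⟨y i, hi⟩, 1, by simp, Or.inr (by simp), fun h => Or.inl ?_, fun _ => rfl⟩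
      show IsLocalRing.residue V _ = 0
      rw [IsLocalRing.residue_eq_zero_iff, V.valuation_lt_one_iff]
      exact lt_of_ne_one hi h
    · have hgt : 1 < V.valuation (y i) := by
        rw [← not_le, V.valuation_le_one_iff]
        exact hi
      have hne : y i ≠ 0 := by
        rintro h
        rw [h, map_zero] at hgt
        exact absurd hgt (not_lt.2 zero_le)
      have hinv : (y i)⁻¹ ∈ V := (V.mem_or_inv_mem (y i)).resolve_left hi
      have hlt : V.valuation (y i)⁻¹ < 1 := by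
        rw [map_inv₀]
        exact inv_lt_one_of_one_lt₀ hgt
      refine ⟨1, ⟨(y i)⁻¹, hinv⟩, ?_, Or.inl (by simp), fun _ => Or.inr ?_, fun h => absurd h hi⟩
      · show (1 : ℂ) = y i * (y i)⁻¹
        rw [mul_inv_cancel₀ hne]
      · show IsLocalRing.residue V _ = 0
        rw [IsLocalRing.residue_eq_zero_iff, V.valuation_lt_one_iff]
        exact hlt
  choose ξ ζ hξ hne hzero hone using hco
  have hF : ∀ t, (F t).eval ((algebraMap (𝓞 K ⧸ v.asIdeal) κ).comp (Ideal.Quotient.mk v.asIdeal))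
      (fun i => res (ξ i)) (fun i => res (ζ i)) = 0 := by
    intro t
    rw [hres, ← MForm.map_eval]
    have h2 : (F t).eval π ξ ζ = 0 := by
      apply Subtype.ext
      have h3 := MForm.map_eval (F t) π V.subtype ξ ζ
      have h4 : V.subtype.comp π = σ.comp (algebraMap (𝓞 K) K) := by
        ext a
        rfl
      rw [h4] at h3
      have h5 : (fun i => V.subtype (ξ i)) = fun i => y i * V.subtype (ζ i) := funext hξ
      rw [h5, MForm.eval_mul, hy t, zero_mul] at h3
      exact h3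
    rw [h2, map_zero]
  have hind : AlgebraicIndependent (𝓞 K ⧸ v.asIdeal) (fun i : W => res (ξ i) / res (ζ i)) := by
    have e : (fun i : W => res (ξ i) / res (ζ i)) = fun i : W => res (ξ i) := by
      funext i
      rw [hone i (hyW i i.2), map_one, div_one]
    rw [e, algebraicIndependent_iff]
    intro Q hQ
    obtain ⟨Q, rfl⟩ := MvPolynomial.map_surjective (Ideal.Quotient.mk v.asIdeal)
      Ideal.Quotient.mk_surjective Q
    rw [← hV2 Q]
    have h2 : MvPolynomial.eval₂ (σ.comp (algebraMap (𝓞 K) K)) (fun i : W => y i) Q =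
        ((MvPolynomial.eval₂ π (fun i : W => ξ i) Q : V) : ℂ) := by
      have h3 := MvPolynomial.eval₂_comp_left V.subtype π (fun i : W => ξ i) Q
      have h4 : (fun i : W => y i) = V.subtype ∘ fun i : W => ξ i := by
        funext i
        simp only [Function.comp]
        have := hξ i
        rw [hone i (hyW i i.2)] at this
        simpa using this.symm
      rw [h4]
      exact h3.symm
    rw [h2, ← V.valuation_lt_one_iff, ← IsLocalRing.residue_eq_zero_iff]
    have h5 := MvPolynomial.eval₂_comp_left res π (fun i : W => ξ i) Q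
    have h6 : MvPolynomial.aeval (fun i : W => res (ξ i))
        (MvPolynomial.map (Ideal.Quotient.mk v.asIdeal) Q) =
        MvPolynomial.eval₂ (res.comp π) (res ∘ fun i : W => ξ i) Q := by
      rw [MvPolynomial.aeval_def, MvPolynomial.eval₂_map, hres]
      rfl
    rw [h6, ← h5] at hQ
    exact hQ
  have hgp := hgen κ (fun i => res (ξ i)) (fun i => res (ζ i)) hne hF W hind
  have hc2 : {i | V.valuation (y i) ≠ 1}.ncard ≤ {i | res (ξ i) = 0 ∨ res (ζ i) = 0}.ncard :=
    Set.ncard_le_ncard (fun i hi => hzero i hi) (Set.toFinite _)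
  omega

end Pool.Agent.N135.ZO
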