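import Pool.Agent.H294ZP.Main
import Pool.Agent.Y226.ZP.Modular

/-!
Laurent expansions with coefficients in an ideal of the ring of algebraic integers.
-/

set_option autoImplicit false

namespace Pool.Agent.N135.ZO

open UpperHalfPlane H294ZP Polynomial Function
open Pool.Agent.Y226 (ZZ ιZ ιZ_apply)

/-- `f` has a Laurent expansion in `q ^ (1 / N)` with coefficients in the ideal `I` of the ring of
algebraic integers and a pole of order at most `m`. -/
def LI (I : Ideal ZZ) (N m : ℕ) (f : ℍ → ℂ) : Prop :=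
  ∃ c : ℕ → ZZ, (∀ n, c n ∈ I) ∧
    ∀ τ : ℍ, HasSum (fun n => ((c n : ZZ) : ℂ) * qq N τ ^ n) (qq N τ ^ m * f τ)

theorem LI.lau {I : Ideal ZZ} {N m : ℕ} {f : ℍ → ℂ} (h : LI I N m f) :
    ∃ A : ZZ, A ∈ I ∧ Lau N m (A : ℂ) f := by
  obtain ⟨c, hc, hs⟩ := h
  exact ⟨c 0, hc 0, fun n => (c n : ℂ), rfl, fun n => (c n).2, hs⟩

theorem LI.of_lau {N m : ℕ} {A : ℂ} {f : ℍ → ℂ} (h : Lau N m A f) : LI ⊤ N m f := by
  obtain ⟨c, -, hc, hs⟩ := h
  exact ⟨fun n => ⟨c n, hc n⟩, fun n => Submodule.mem_top, hs⟩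

theorem LI.mono {I J : Ideal ZZ} (hIJ : I ≤ J) {N m : ℕ} {f : ℍ → ℂ} (h : LI I N m f) :
    LI J N m f := by
  obtain ⟨c, hc, hs⟩ := h
  exact ⟨c, fun n => hIJ (hc n), hs⟩

theorem LI.shift {I : Ideal ZZ} {N m : ℕ} {f : ℍ → ℂ} (k : ℕ) (h : LI I N m f) :
    LI I N (m + k) f := by
  obtain ⟨c, hc, hs⟩ := h
  refine ⟨fun n => if n < k then 0 else c (n - k), fun n => ?_, fun τ => ?_⟩
  · dsimp only
    split_ifs
    · exact I.zero_mem
    · exact hc _
  · have h1 := (hs τ).mul_left (qq N τ ^ k)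
    have hinj : Function.Injective (fun n : ℕ => n + k) := add_left_injective k
    have h2 := (hinj.hasSum_iff
      (f := fun n : ℕ => (((if n < k then 0 else c (n - k) : ZZ)) : ℂ) * qq N τ ^ n)
      (a := qq N τ ^ (m + k) * f τ) (by
        intro n hn
        have : n < k := by
          by_contra hlt
          push Not at hlt
          exact hn ⟨n - k, by simp only; omega⟩
        simp [this]))
    rw [← h2]
    refine TCx.hs_congr h1 (fun n => ?_) ?_
    · simp only [Function.comp]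
      rw [if_neg (by omega), Nat.add_sub_cancel, pow_add]
      ring
    · rw [pow_add]
      ring

theorem LI.up {I : Ideal ZZ} {N m m' : ℕ} {f : ℍ → ℂ} (h : LI I N m f) (hm : m ≤ m') :
    LI I N m' f := by
  obtain ⟨k, rfl⟩ := Nat.exists_eq_add_of_le hm
  exact h.shift k

theorem LI.const {I : Ideal ZZ} {N : ℕ} {z : ZZ} (hz : z ∈ I) : LI I N 0 (fun _ => (z : ℂ)) := by
  refine ⟨fun n => if n = 0 then z else 0, fun n => ?_, fun τ => ?_⟩
  · dsimp only
    split_ifs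
    · exact hz
    · exact I.zero_mem
  · have h := hasSum_single (f := fun n : ℕ => (((if n = 0 then z else 0 : ZZ)) : ℂ) * qq N τ ^ n) 0
      (by intro n hn; simp [hn])
    simpa using h

theorem LI.add {I : Ideal ZZ} {N m : ℕ} {f g : ℍ → ℂ} (hf : LI I N m f) (hg : LI I N m g) :
    LI I N m (fun τ => f τ + g τ) := by
  obtain ⟨c, hc, hs⟩ := hf
  obtain ⟨e, he, hs'⟩ := hg
  refine ⟨fun n => c n + e n, fun n => I.add_mem (hc n) (he n), fun τ => ?_⟩
  refine TCx.hs_congr ((hs τ).add (hs' τ)) (fun n => ?_) (by ring)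
  push_cast
  ring

theorem LI.mul {I J : Ideal ZZ} {N m k : ℕ} {f g : ℍ → ℂ} (hf : LI I N m f) (hg : LI J N k g) :
    LI (I * J) N (m + k) (fun τ => f τ * g τ) := by
  obtain ⟨c, hc, hs⟩ := hf
  obtain ⟨e, he, hs'⟩ := hg
  refine ⟨fun n => ∑ p ∈ Finset.HasAntidiagonal.antidiagonal n, c p.1 * e p.2, fun n =>
    Submodule.sum_mem _ fun p _ => Ideal.mul_mem_mul (hc _) (he _), fun τ => ?_⟩
  have s1 : Summable (fun n => ‖(c n : ℂ) * qq N τ ^ n‖) := (hs τ).summable.norm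
  have s2 : Summable (fun n => ‖(e n : ℂ) * qq N τ ^ n‖) := (hs' τ).summable.norm
  have h1 := tsum_mul_tsum_eq_tsum_sum_antidiagonal_of_summable_norm s1 s2
  have h2 := (summable_norm_sum_mul_antidiagonal_of_summable_norm s1 s2).of_norm
  rw [(hs τ).tsum_eq, (hs' τ).tsum_eq] at h1
  have h3 := h2.hasSum
  rw [← h1] at h3
  refine TCx.hs_congr h3 (fun n => ?_) ?_
  · push_cast
    rw [Finset.sum_mul]
    apply Finset.sum_congr rfl
    intro p hp
    rw [← Finset.HasAntidiagonal.mem_antidiagonal.1 hp, pow_add]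
    ring
  · rw [pow_add]
    ring

/-- holomorphic functions with a Laurent expansion with coefficients in `I` -/
def LX (I : Ideal ZZ) (N : ℕ) (f : ℍ → ℂ) : Prop := (∃ m, LI I N m f) ∧ Hol f

theorem LX.mono {I J : Ideal ZZ} (hIJ : I ≤ J) {N : ℕ} {f : ℍ → ℂ} (h : LX I N f) : LX J N f := by
  obtain ⟨⟨m, h1⟩, h2⟩ := h
  exact ⟨⟨m, h1.mono hIJ⟩, h2⟩

theorem LX.const {I : Ideal ZZ} {N : ℕ} {z : ZZ} (hz : z ∈ I) : LX I N (fun _ => (z : ℂ)) :=
  ⟨⟨0, LI.const hz⟩, TDaux.Hol.const _⟩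

theorem LX.add {I : Ideal ZZ} {N : ℕ} {f g : ℍ → ℂ} (hf : LX I N f) (hg : LX I N g) :
    LX I N (fun τ => f τ + g τ) := by
  obtain ⟨⟨m, h1⟩, h2⟩ := hf
  obtain ⟨⟨m', h1'⟩, h2'⟩ := hg
  exact ⟨⟨max m m', (h1.up (le_max_left _ _)).add (h1'.up (le_max_right _ _))⟩,
    TDaux.Hol.add h2 h2'⟩

theorem LX.mul' {I J : Ideal ZZ} {N : ℕ} {f g : ℍ → ℂ} (hf : LX I N f) (hg : LX J N g) :
    LX (I * J) N (fun τ => f τ * g τ) := by
  obtain ⟨⟨m, h1⟩, h2⟩ := hf
  obtain ⟨⟨m', h1'⟩, h2'⟩ := hg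
  exact ⟨⟨m + m', h1.mul h1'⟩, TDaux.Hol.mul h2 h2'⟩

theorem LX.mul_left {I : Ideal ZZ} {N : ℕ} {f g : ℍ → ℂ} (hf : LX ⊤ N f) (hg : LX I N g) :
    LX I N (fun τ => f τ * g τ) := (hf.mul' hg).mono Ideal.mul_le_right

theorem LX.mul_right {I : Ideal ZZ} {N : ℕ} {f g : ℍ → ℂ} (hf : LX I N f) (hg : LX ⊤ N g) :
    LX I N (fun τ => f τ * g τ) := (hf.mul' hg).mono Ideal.mul_le_left

theorem LX.neg {I : Ideal ZZ} {N : ℕ} {f : ℍ → ℂ} (hf : LX I N f) : LX I N (fun τ => - f τ) := by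
  have h := (LX.const (I := ⊤) (N := N) (z := -1) Submodule.mem_top).mul_left hf
  simpa using h

theorem LX.sub {I : Ideal ZZ} {N : ℕ} {f g : ℍ → ℂ} (hf : LX I N f) (hg : LX I N g) :
    LX I N (fun τ => f τ - g τ) := by
  simpa only [sub_eq_add_neg] using hf.add hg.neg

theorem LX.sum {I : Ideal ZZ} {N : ℕ} {ι : Type} (s : Finset ι) (f : ι → ℍ → ℂ)
    (h : ∀ i ∈ s, LX I N (f i)) : LX I N (fun τ => ∑ i ∈ s, f i τ) := by
  classical
  induction s using Finset.induction_on with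
  | empty =>
    have := LX.const (N := N) I.zero_mem
    simpa using this
  | insert a s ha ih =>
    simp only [Finset.sum_insert ha]
    exact (h a (Finset.mem_insert_self _ _)).add
      (ih fun i hi => h i (Finset.mem_insert_of_mem hi))

theorem LX.one {N : ℕ} : LX ⊤ N (fun _ => (1 : ℂ)) := by
  have := LX.const (I := ⊤) (N := N) (z := 1) Submodule.mem_top
  simpa using this

theorem LX.prod {N : ℕ} {ι : Type} (s : Finset ι) (f : ι → ℍ → ℂ)
    (h : ∀ i ∈ s, LX ⊤ N (f i)) : LX ⊤ N (fun τ => ∏ i ∈ s, f i τ) := by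
  classical
  induction s using Finset.induction_on with
  | empty => simpa using LX.one
  | insert a s ha ih =>
    simp only [Finset.prod_insert ha]
    exact (h a (Finset.mem_insert_self _ _)).mul_left
      (ih fun i hi => h i (Finset.mem_insert_of_mem hi))

theorem LX.pow {N : ℕ} {f : ℍ → ℂ} (hf : LX ⊤ N f) (k : ℕ) : LX ⊤ N (fun τ => f τ ^ k) := by
  induction k with
  | zero => simpa using LX.one
  | succ k ih =>
    simp only [pow_succ]
    exact ih.mul_left hf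

theorem LI.shift_down {I : Ideal ZZ} {N m : ℕ} {f : ℍ → ℂ} (h : LI I N (m + 1) f)
    (h0 : ∀ A : ℂ, Lau N (m + 1) A f → A = 0) : LI I N m f := by
  obtain ⟨c, hc, hs⟩ := h
  have hc0 : (c 0 : ℂ) = 0 := h0 _ ⟨fun n => (c n : ℂ), rfl, fun n => (c n).2, hs⟩
  refine ⟨fun n => c (n + 1), fun n => hc _, fun τ => ?_⟩
  have h1 : HasSum (fun n => ((c (n + 1) : ZZ) : ℂ) * qq N τ ^ (n + 1))
      (qq N τ ^ (m + 1) * f τ) := by
    have := (hasSum_nat_add_iff' (f := fun n => ((c n : ZZ) : ℂ) * qq N τ ^ n)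
      (g := qq N τ ^ (m + 1) * f τ) 1).2 (hs τ)
    simpa [hc0] using this
  have h2 := h1.mul_left (qq N τ)⁻¹
  have hq := TBproof.qq_ne_zero N τ
  refine TCx.hs_congr h2 (fun n => ?_) ?_
  · rw [pow_succ]; field_simp
  · rw [pow_succ]; field_simp

/-- two expansions of the same function -/
theorem LI.lead_unique {N m : ℕ} {A B : ℂ} {f : ℍ → ℂ} (hN : 0 < N) (hA : Lau N m A f)
    (hB : Lau N m B f) : A = B := by
  have h1 := TBproof.lau_limit N m A f hN hA
  have h2 := TBproof.lau_limit N m B f hN hB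
  exact tendsto_nhds_unique h1 h2

theorem hTA : TA := ⟨ta1.1, ta1.2, ta2⟩

/-- invariant functions with expansions with coefficients in an ideal are polynomials in `j` with
coefficients in this ideal -/
theorem tbI (I : Ideal ZZ) (N : ℕ) (hN : 0 < N) (m : ℕ) : ∀ f : ℍ → ℂ, Inv f → Hol f →
    LI I N m f → ∃ P : ZZ[X], (∀ k, P.coeff k ∈ I) ∧ ∀ τ, f τ = P.eval₂ ιZ (jj τ) := by
  induction m with
  | zero =>
    intro f hI hH hL
    obtain ⟨A, hA, hLau⟩ := hL.lau
    refine ⟨C A, fun k => ?_, fun τ => ?_⟩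
    · rw [coeff_C]
      split_ifs
      · exact hA
      · exact I.zero_mem
    · rw [eval₂_C, ιZ_apply]
      exact TBproof.const_of_lau_zero f N A hN hI hH hLau τ
  | succ m ih =>
    intro f hI hH hL
    obtain ⟨A, hA, hLau⟩ := hL.lau
    by_cases hd : N ∣ m + 1
    · obtain ⟨k, hk⟩ := hd
      have hpow : Lau N (m + 1) 1 (fun τ => jj τ ^ k) := by
        rw [hk]; exact TBproof.lau_jj_pow tc hTA.2.2 N hN k
      have hpowI : LI ⊤ N (m + 1) (fun τ => jj τ ^ k) := LI.of_lau hpow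
      have hcst : LI I N 0 (fun _ => ((-A : ZZ) : ℂ)) := LI.const (I.neg_mem hA)
      have h1 := (hcst.mul hpowI).mono (J := I) Ideal.mul_le_left
      rw [zero_add] at h1
      have h2 := hL.add h1
      have hlau2 : Lau N (m + 1) (A + -A * 1 : ℂ) (fun τ => f τ + ((-A : ZZ) : ℂ) * jj τ ^ k) := by
        have e1 : Lau N 0 (-(A : ℂ)) (fun _ => -(A : ℂ)) := tc.1 N (-A) hN (-A).2
        have e2 := tc.2.2.2.1 N 0 (m + 1) (-A) 1 _ _ hN e1 hpow
        rw [zero_add] at e2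
        have e3 := tc.2.2.1 N (m + 1) A (-A * 1) _ _ hN hLau e2
        push_cast
        exact e3
      have h3 : LI I N m (fun τ => f τ + ((-A : ZZ) : ℂ) * jj τ ^ k) := by
        refine h2.shift_down fun B hB => ?_
        have := LI.lead_unique hN hB hlau2
        rw [this]
        ring
      obtain ⟨P, hP1, hP2⟩ := ih _ (by
        intro a b c d h τ w hw
        show f w + ((-A : ZZ) : ℂ) * jj w ^ k = f τ + ((-A : ZZ) : ℂ) * jj τ ^ k
        rw [hI a b c d h τ w hw, hTA.1 a b c d h τ w hw]) (by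
        have := TBproof.hol_sub f jj A k hH hTA.2.1
        push_cast
        exact this) h3
      refine ⟨P + C A * X ^ k, fun i => ?_, fun τ => ?_⟩
      · rw [coeff_add, coeff_C_mul_X_pow]
        refine I.add_mem (hP1 i) ?_
        split_ifs
        · exact hA
        · exact I.zero_mem
      · have := hP2 τ
        rw [eval₂_add, ← this, eval₂_mul, eval₂_C, eval₂_X_pow, ιZ_apply]
        push_cast
        ring
    · have hA0 : ∀ B : ℂ, Lau N (m + 1) B f → B = 0 := fun B hB =>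
        TBproof.lead_zero N (m + 1) B f hN hI hB hd
      exact ih f hI hH (hL.shift_down hA0)

theorem tbX (I : Ideal ZZ) (N : ℕ) (hN : 0 < N) (f : ℍ → ℂ) (hI : Inv f) (hf : LX I N f) :
    ∃ P : ZZ[X], (∀ k, P.coeff k ∈ I) ∧ ∀ τ, f τ = P.eval₂ ιZ (jj τ) := by
  obtain ⟨⟨m, h1⟩, h2⟩ := hf
  exact tbI I N hN m f hI h2 h1

end Pool.Agent.N135.ZO
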