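import Pool.Agent.N135.ZO.CM
import Pool.Agent.H294ZP.Crit

/-!
Special points and special subvarieties near ordinary CM points.
-/

set_option autoImplicit false

namespace Pool.Agent.N135.ZO

open UpperHalfPlane H294ZP Function Polynomial
open Pool.Agent.Y226 (ZZ ιZ ιZ_apply PsiE map_PsiE modular_family)

variable {V : ValuationSubring ℂ} {p : ℕ}

/-- good values -/
structure G0 {hl : 0 < p} (P : Pkg p hl) (V : ValuationSubring ℂ) (z : ℂ) : Prop where
  mem : z ∈ V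
  ord : V.valuation (P.h.eval₂ ιZ z) = 1
  n0 : V.valuation z = 1
  n1 : V.valuation (z - 1728) = 1

theorem G0.congr {hl : 0 < p} {P : Pkg p hl} {z z' : ℂ} (h : G0 P V z)
    (hz : V.valuation (z' - z) < 1) : G0 P V z' := by
  have hm : z' ∈ V := by
    have : z' = z + (z' - z) := by ring
    rw [this]
    exact V.add_mem _ _ h.mem ((V.valuation_le_one_iff _).1 hz.le)
  refine ⟨hm, ?_, ?_, ?_⟩
  · obtain ⟨a, ha⟩ := e1_sub (ρV V) P.h ⟨z, h.mem⟩ ⟨z', hm⟩
    have h1 : P.h.eval₂ ιZ z' = P.h.eval₂ ιZ z + (z' - z) * a := by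
      have := congrArg (fun w : V => (w : ℂ)) ha
      push_cast at this
      rw [coe_e1, coe_e1] at this
      linear_combination this
    rw [h1]
    exact val_add_one h.ord (lt_mul_mem hz a.2)
  · have : z' = z + (z' - z) := by ring
    rw [this]
    exact val_add_one h.n0 hz
  · have : z' - 1728 = (z - 1728) + (z' - z) := by ring
    rw [this]
    exact val_add_one h.n1 hz

theorem val_one_add_p (hpV : V.valuation (p : ℂ) < 1) (z : ℤ) : V.valuation (1 + (p : ℂ) * z) = 1 :=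
  val_add_one (map_one _) (lt_mul_mem hpV (intCast_mem V z))

theorem exists_good {hl : 0 < p} {P : Pkg p hl} (hpV : V.valuation (p : ℂ) < 1) {τ : ℍ}
    (hcm : IsCM τ) (h : G0 P V (jj τ)) : ∃ N : ℕ, 0 < N ∧ (∀ s : ℕ, s ^ 2 ≠ N) ∧
      V.valuation (N : ℂ) = 1 ∧ Good hl P V N τ := by
  obtain ⟨N, h1, h2, ⟨z, hz⟩, h3⟩ := exists_fix p hl hcm
  refine ⟨N, h1, h2, ?_, h.mem, h.ord, h.n0, h.n1, h3⟩
  have : (N : ℂ) = 1 + p * z := by exact_mod_cast congrArg (fun n : ℤ => (n : ℂ)) hz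
  rw [this]
  exact val_one_add_p hpV z

/-- the distances of singular moduli in an ordinary residue class -/
theorem cm_radius (hl : p.Prime) (hl2 : p ≠ 2) (hpV : V.valuation (p : ℂ) < 1) (P : Pkg p hl.pos)
    {τ τ' : ℍ} (hcm : IsCM τ) (hcm' : IsCM τ') (h : G0 P V (jj τ))
    (hlt : V.valuation (jj τ' - jj τ) < 1) (hne : jj τ' ≠ jj τ) :
    ∃ k, V.valuation (jj τ' - jj τ) ^ ((p - 1) * p ^ k) = V.valuation (p : ℂ) := by
  obtain ⟨N, hN, hns, hNV, hg⟩ := exists_good hpV hcm h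
  obtain ⟨N', hN', hns', hNV', hg'⟩ := exists_good hpV hcm' (h.congr hlt)
  obtain ⟨S⟩ := exists_stp hl hl2 hpV P hN hNV
  obtain ⟨S'⟩ := exists_stp hl hl2 hpV P hN' hNV'
  have e : ((xx (⟨τ', hg'⟩ : {τ : ℍ // Good hl.pos P V N' τ}) -
      xx (⟨τ, hg⟩ : {τ : ℍ // Good hl.pos P V N τ}) : V) : ℂ) = jj τ' - jj τ := by
    push_cast
    rfl
  obtain ⟨i, hi⟩ := fact_c hl2 hpV S S' hN hns hN' hns' ⟨τ, hg⟩ ⟨τ', hg'⟩ (by
    intro hu
    rw [V.valuation_eq_one_iff, e] at hu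
    rw [hu] at hlt
    exact lt_irrefl _ hlt)
  have h1 := radius hl2 hpV S S' hN hns hN' hns' i ⟨τ, hg⟩ ⟨τ', hg'⟩ hi
    (fun h => hne (congrArg (fun w : V => (w : ℂ)) h)) (by rw [e]; exact hlt)
  rw [e] at h1
  exact h1

/-- Fact C for singular moduli -/
theorem cm_isog (hl : p.Prime) (hl2 : p ≠ 2) (hpV : V.valuation (p : ℂ) < 1) (P : Pkg p hl.pos)
    {τ τ' : ℍ} (hcm : IsCM τ) (hcm' : IsCM τ') (h : G0 P V (jj τ))
    (hlt : V.valuation (jj τ' - jj τ) < 1) : Isog (jj τ) (jj τ') := by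
  obtain ⟨N, hN, hns, hNV, hg⟩ := exists_good hpV hcm h
  obtain ⟨N', hN', hns', hNV', hg'⟩ := exists_good hpV hcm' (h.congr hlt)
  obtain ⟨S⟩ := exists_stp hl hl2 hpV P hN hNV
  obtain ⟨S'⟩ := exists_stp hl hl2 hpV P hN' hNV'
  obtain ⟨i, hi⟩ := fact_c hl2 hpV S S' hN hns hN' hns' ⟨τ, hg⟩ ⟨τ', hg'⟩ (by
    intro hu
    rw [V.valuation_eq_one_iff] at hu
    push_cast at hu
    rw [xx_coe, xx_coe] at hu
    rw [hu] at hlt
    exact lt_irrefl _ hlt)
  have h1 := S.isog ⟨τ, hg⟩ i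
  have h2 := S'.isog ⟨τ', hg'⟩ i
  rw [← hi] at h1
  exact h1.trans h2.symm

theorem isCM_of_rel {M : M2} (hM : 0 < M.det) {τ w : ℍ} (h : Rel M τ w) (hcm : IsCM τ) :
    IsCM w := by
  obtain ⟨a, b, c, ha, habc⟩ := hcm
  have hK := H610.disc_pos τ a b c ha habc
  have hadj := rel_adj h
  unfold Rel den num at hadj
  rw [Matrix.adjugate_fin_two] at hadj
  simp only [Matrix.of_apply, Matrix.cons_val', Matrix.cons_val_zero, Matrix.cons_val_one,
    Matrix.cons_val_fin_one] at hadj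
  push_cast at hadj
  rw [det_eq] at hM
  generalize M 0 0 = A at *
  generalize M 0 1 = B at *
  generalize M 1 0 = C at *
  generalize M 1 1 = D at *
  refine ⟨a * D ^ 2 - b * D * C + c * C ^ 2, -(2 * a * D * B) + b * (D * A + B * C) - 2 * c * C * A,
    a * B ^ 2 - b * B * A + c * A ^ 2, ?_, ?_⟩
  · intro h0
    have h1 : (2 * a * D - b * C) ^ 2 + (4 * a * c - b ^ 2) * C ^ 2 = 0 := by
      linear_combination 4 * a * h0
    have h2 : 0 ≤ (2 * a * D - b * C) ^ 2 := sq_nonneg _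
    have h3 : 0 ≤ (4 * a * c - b ^ 2) * C ^ 2 := by positivity
    have h4 : (4 * a * c - b ^ 2) * C ^ 2 = 0 := by linarith
    have h5 : (2 * a * D - b * C) ^ 2 = 0 := by linarith
    have h6 : C = 0 := by
      rcases mul_eq_zero.1 h4 with h | h
      · exact absurd h hK.ne'
      · exact pow_eq_zero_iff (by norm_num) |>.1 h
    rw [h6] at h5
    have h7 : D = 0 := by
      have := pow_eq_zero_iff (by norm_num : (2 : ℕ) ≠ 0) |>.1 h5
      rw [mul_zero, sub_zero] at this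
      rcases mul_eq_zero.1 this with h | h
      · rcases mul_eq_zero.1 h with h | h
        · norm_num at h
        · exact absurd h ha
      · exact h
    rw [h6, h7] at hM
    simp at hM
  · -- hadj : τ * (-C w + A) = D w - B
    push_cast
    have e1 : ((a : ℂ) * (τ : ℂ) ^ 2 + b * τ + c) * (-(C : ℂ) * w + A) ^ 2 = 0 := by
      rw [habc, zero_mul]
    have e2 : ((a : ℂ) * (τ : ℂ) ^ 2 + b * τ + c) * (-(C : ℂ) * w + A) ^ 2 =
        a * (τ * (-(C : ℂ) * w + A)) ^ 2 + b * (τ * (-(C : ℂ) * w + A)) * (-(C : ℂ) * w + A) +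
          c * (-(C : ℂ) * w + A) ^ 2 := by ring
    rw [e2, hadj] at e1
    linear_combination e1

/-- the modular equation modulo the maximal ideal -/
theorem psi_congr {x y x' y' : ℂ} (hx : x ∈ V) (hy : y ∈ V) (hx' : V.valuation (x' - x) < 1)
    (hy' : V.valuation (y' - y) < 1) (Q : ℕ → ZZ[X]) (D : ℕ) (h : PsiE ιZ Q D x' y' = 0) :
    V.valuation (PsiE ιZ Q D x y) < 1 := by
  have hm : ∀ {z z' : ℂ}, z ∈ V → V.valuation (z' - z) < 1 → z' ∈ V := by
    intro z z' hz hlt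
    have : z' = z + (z' - z) := by ring
    rw [this]
    exact V.add_mem _ _ hz ((V.valuation_le_one_iff _).1 hlt.le)
  set X : V := ⟨x, hx⟩
  set Y : V := ⟨y, hy⟩
  set X' : V := ⟨x', hm hx hx'⟩
  set Y' : V := ⟨y', hm hy hy'⟩
  have r : ∀ {a b : V}, V.valuation ((b : ℂ) - a) < 1 →
      IsLocalRing.residue V b = IsLocalRing.residue V a := by
    intro a b hab
    rw [← sub_eq_zero, ← map_sub, IsLocalRing.residue_eq_zero_iff, V.valuation_lt_one_iff]
    push_cast
    exact hab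
  have h1 : PsiE (ρV V) Q D X' Y' = 0 := by
    apply Subtype.ext
    have := map_PsiE (ρV V) V.subtype Q D X' Y'
    rw [sub_comp] at this
    exact this.trans h
  have h2 := map_PsiE (ρV V) (IsLocalRing.residue V) Q D X' Y'
  rw [h1, map_zero, r (a := X) (b := X') hx', r (a := Y) (b := Y') hy', ← map_PsiE] at h2
  have h3 := (IsLocalRing.residue_eq_zero_iff _).1 h2.symm
  rw [V.valuation_lt_one_iff] at h3
  have h4 := map_PsiE (ρV V) V.subtype Q D X Y
  rw [sub_comp] at h4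
  have h5 : ((PsiE (ρV V) Q D X Y : V) : ℂ) = PsiE ιZ Q D x y := h4
  rwa [h5] at h3

/-- Points in the classes of two ordinary singular moduli which are isogenous. -/
theorem near_isog (hl : p.Prime) (hl2 : p ≠ 2) (hpV : V.valuation (p : ℂ) < 1) (P : Pkg p hl.pos)
    {τ τ' : ℍ} (hcm : IsCM τ) (hcm' : IsCM τ') (h : G0 P V (jj τ)) (h' : G0 P V (jj τ'))
    {w w' : ℍ} {M : M2} (hM : 0 < M.det) (hrel : Rel M w w')
    (hw : V.valuation (jj w - jj τ) < 1) (hw' : V.valuation (jj w' - jj τ') < 1) :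
    Isog (jj τ) (jj τ') := by
  classical
  obtain ⟨N, hN⟩ : ∃ N : ℕ, M.det = N := ⟨M.det.toNat, by omega⟩
  have hN0 : 0 < N := by
    rw [hN] at hM
    exact_mod_cast hM
  obtain ⟨ι, _, α, δ, β, g, Q, h1, h2, -, h3, h4⟩ := modular_family N hN0
  have h5 := h4 w w' (M 0 0) (M 0 1) (M 1 0) (M 1 1) (by rw [← det_eq, hN]) hrel
  have h6 := psi_congr h.mem h'.mem hw hw' Q _ h5
  rw [← h3] at h6
  have hrelk : ∀ k, Rel !![(α k : ℤ), β k; 0, (δ k : ℤ)] τ (g k τ) := by
    intro k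
    have := h2 k τ
    simp only [Rel, den, num, Matrix.of_apply, Matrix.cons_val', Matrix.cons_val_zero,
      Matrix.cons_val_one, Matrix.cons_val_fin_one]
    push_cast
    rw [← this]
    ring
  have hdetk : ∀ k, 0 < (!![(α k : ℤ), β k; 0, (δ k : ℤ)] : M2).det := by
    intro k
    rw [Matrix.det_fin_two_of, mul_zero, sub_zero]
    have := (h1 k).1
    have := (h1 k).2.1
    positivity
  have hmem : ∀ k, jj (g k τ) ∈ V := fun k => rel_mem (hdetk k) (hrelk k) h.mem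
  have h7 : ∃ k, V.valuation (jj τ' - jj (g k τ)) < 1 := by
    by_contra hcon
    push Not at hcon
    rw [map_prod] at h6
    have h8 : ∀ k, V.valuation (jj τ' - jj (g k τ)) = 1 := fun k =>
      le_antisymm (val_le (sub_mem h'.mem (hmem k))) (hcon k)
    rw [Finset.prod_congr rfl (fun k _ => h8 k), Finset.prod_const_one] at h6
    exact lt_irrefl _ h6
  obtain ⟨k, hk⟩ := h7
  have h9 : V.valuation (jj (g k τ) - jj τ') < 1 := by
    rw [← Valuation.map_neg]
    rwa [neg_sub]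
  have h10 := cm_isog hl hl2 hpV P (isCM_of_rel (hdetk k) (hrelk k) hcm) hcm' (h'.congr h9) hk
  exact Isog.trans ⟨_, τ, g k τ, hdetk k, hrelk k, rfl, rfl⟩ h10

/-- two values of the same class are isogenous -/
theorem rel_of_two {z w w' : ℍ} {M M' : M2} (hM : 0 < M.det) (hM' : 0 < M'.det)
    (h : Rel M z w) (h' : Rel M' z w') : ∃ A : M2, 0 < A.det ∧ Rel A w w' := by
  refine ⟨M' * M.adjugate, ?_, (rel_adj h).mul h'⟩
  rw [det_mul', det_adj]
  positivity

/-- ordinary CM point: fixed by an integral matrix whose determinant is a power of `p` and whose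
trace is prime to `p` -/
def OrdAt (p : ℕ) (τ : ℍ) : Prop := ∃ (e : ℕ) (M : M2), 0 < e ∧ M.det = (p : ℤ) ^ e ∧
  ¬ (p : ℤ) ∣ M.trace ∧ Rel M τ τ

/-- The local theorem. -/
theorem local_main (hl : p.Prime) (hl2 : p ≠ 2) (hpV : V.valuation (p : ℂ) < 1) {n r : ℕ}
    (τ : Fin n → ℍ) (hcm : ∀ i, IsCM (τ i)) (hord : ∀ i, OrdAt p (τ i))
    (h0 : ∀ i, V.valuation (jj (τ i)) = 1) (h1 : ∀ i, V.valuation (jj (τ i) - 1728) = 1)
    (hiso : ∀ i j, i ≠ j → ¬ Isog (jj (τ i)) (jj (τ j))) (Z : SpecialDatum n r) {x : Fin n → ℂ}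
    (hx : x ∈ Z.locus) :
    n ≤ r + {i | ¬ (V.valuation (x i - jj (τ i)) < 1 ∧ ∀ k : ℕ,
        V.valuation (x i - jj (τ i)) ^ ((p - 1) * p ^ k) ≠ V.valuation (p : ℂ))}.ncard +
      {i | x i = jj (τ i)}.ncard := by
  classical
  set Q : Fin n → Prop := fun i => V.valuation (x i - jj (τ i)) < 1 ∧ ∀ k : ℕ,
        V.valuation (x i - jj (τ i)) ^ ((p - 1) * p ^ k) ≠ V.valuation (p : ℂ) with hQ
  change n ≤ r + {i | ¬ Q i}.ncard + {i | x i = jj (τ i)}.ncard
  obtain ⟨P⟩ := exists_pkg hl hl2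
  have hmem : ∀ i, jj (τ i) ∈ V := fun i => (V.valuation_le_one_iff _).1 (h0 i).le
  have hG : ∀ i, G0 P V (jj (τ i)) := by
    intro i
    obtain ⟨e, M, he, hdet, htr, hfix⟩ := hord i
    exact ⟨hmem i, ord_of_fix hl hpV P (hmem i) he hdet htr hfix, h0 i, h1 i⟩
  set J : Finset (Fin n) := Finset.univ.filter fun i => Q i ∧ x i ≠ jj (τ i) with hJ
  obtain ⟨z, hz⟩ := hx
  have hnone : ∀ i ∈ J, Z.cls i ≠ none := by
    intro i hi hn
    rw [hJ, Finset.mem_filter] at hi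
    obtain ⟨-, hi1, hi2⟩ := hi
    have hxi := (hz i).1 hn
    obtain ⟨hq1, hq2⟩ := hi1
    rw [hxi] at hq1 hq2 hi2
    obtain ⟨k, hk⟩ := cm_radius hl hl2 hpV P (hcm i) (Z.isCM i) (hG i) hq1 hi2
    exact hq2 k hk
  have hinj : ∀ i ∈ J, ∀ j ∈ J, Z.cls i = Z.cls j → i = j := by
    intro i hi j hj hij
    by_contra hne
    obtain ⟨k, hk⟩ := Option.ne_none_iff_exists'.1 (hnone i hi)
    rw [hJ, Finset.mem_filter] at hi hj
    obtain ⟨w, hw1, hw2⟩ := (hz i).2 k hk
    obtain ⟨w', hw1', hw2'⟩ := (hz j).2 k (hij ▸ hk)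
    obtain ⟨A, hA, hrel⟩ := rel_of_two (M := Z.mat i) (M' := Z.mat j) (z := z k) (Z.det_pos i)
      (Z.det_pos j) hw1 hw1'
    refine hiso i j hne (near_isog hl hl2 hpV P (hcm i) (hcm j) (hG i) (hG j) hA hrel ?_ ?_)
    · rw [← hw2]
      exact hi.2.1.1
    · rw [← hw2']
      exact hj.2.1.1
  have hcard : J.card ≤ r := by
    have hr : J.card = (J.image Z.cls).card := by
      rw [Finset.card_image_of_injOn]
      intro i hi j hj hij
      exact hinj i hi j hj hij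
    rw [hr]
    have hsub : J.image Z.cls ⊆ (Finset.univ : Finset (Fin r)).image some := by
      intro c hc
      obtain ⟨i, hi, rfl⟩ := Finset.mem_image.1 hc
      obtain ⟨k, hk⟩ := Option.ne_none_iff_exists'.1 (hnone i hi)
      rw [hk]
      exact Finset.mem_image_of_mem _ (Finset.mem_univ k)
    calc (J.image Z.cls).card ≤ _ := Finset.card_le_card hsub
      _ ≤ (Finset.univ : Finset (Fin r)).card := Finset.card_image_le
      _ = r := by simp
  have e1 : {i | ¬ Q i}.ncard = (Finset.univ.filter fun i => ¬ Q i).card := by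
    rw [← Set.ncard_coe_finset]
    congr 1
    ext i
    simp
  have e2 : {i | x i = jj (τ i)}.ncard = (Finset.univ.filter fun i => x i = jj (τ i)).card := by
    rw [← Set.ncard_coe_finset]
    congr 1
    ext i
    simp
  rw [e1, e2]
  have hcover : (Finset.univ : Finset (Fin n)) ⊆ (J ∪
      (Finset.univ.filter fun i => ¬ Q i)) ∪ (Finset.univ.filter fun i => x i = jj (τ i)) := by
    intro i _
    simp only [Finset.mem_union, Finset.mem_filter, hJ, Finset.mem_univ, true_and]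
    by_cases hb : x i = jj (τ i)
    · exact Or.inr hb
    · left
      by_cases ha : Q i
      · exact Or.inl ⟨ha, hb⟩
      · exact Or.inr ha
  calc n = (Finset.univ : Finset (Fin n)).card := by simp
    _ ≤ _ := Finset.card_le_card hcover
    _ ≤ _ := Finset.card_union_le _ _
    _ ≤ _ := Nat.add_le_add_right (Finset.card_union_le _ _) _
    _ ≤ _ := Nat.add_le_add_right (Nat.add_le_add_right hcard _) _

end Pool.Agent.N135.ZO
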