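import Pool.Agent.N135.ZO.Lau

/-!
The action of integral matrices of positive determinant and the quotients of `Δ`.
-/

set_option autoImplicit false

namespace Pool.Agent.N135.ZO

open UpperHalfPlane H294ZP Function ModularForm

/-- integral `2 × 2` matrices -/
abbrev M2 : Type := Matrix (Fin 2) (Fin 2) ℤ

/-- the denominator `c τ + d` -/
noncomputable def den (M : M2) (τ : ℍ) : ℂ := (M 1 0 : ℂ) * τ + (M 1 1 : ℂ)

/-- the numerator `a τ + b` -/
noncomputable def num (M : M2) (τ : ℍ) : ℂ := (M 0 0 : ℂ) * τ + (M 0 1 : ℂ)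

/-- `w = M τ` -/
def Rel (M : M2) (τ w : ℍ) : Prop := (w : ℂ) * den M τ = num M τ

theorem det_eq (M : M2) : M.det = M 0 0 * M 1 1 - M 0 1 * M 1 0 := Matrix.det_fin_two M

theorem den_ne {M : M2} (hM : 0 < M.det) (τ : ℍ) : den M τ ≠ 0 := by
  intro h
  unfold den at h
  have him := congrArg Complex.im h
  have hre := congrArg Complex.re h
  simp at him hre
  have hy : τ.im ≠ 0 := τ.im_pos.ne'
  have h1 : M 1 0 = 0 := by
    rcases him with h | h
    · exact h
    · exact absurd h hy
  rw [h1] at hre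
  have h2 : M 1 1 = 0 := by
    have : (M 1 1 : ℝ) = 0 := by simpa using hre
    exact_mod_cast this
  rw [det_eq, h1, h2] at hM
  simp at hM

/-- the point `M τ` -/
theorem exists_rel {M : M2} (hM : 0 < M.det) (τ : ℍ) : ∃ w : ℍ, Rel M τ w := by
  have hd := den_ne hM τ
  have h1 : 0 < (num M τ / den M τ).im := by
    have h2 : (num M τ / den M τ).im = (M.det : ℝ) * τ.im / Complex.normSq (den M τ) := by
      rw [Complex.div_im]
      have e1 : (num M τ).im = M 0 0 * τ.im := by simp [num]
      have e2 : (num M τ).re = M 0 0 * τ.re + M 0 1 := by simp [num]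
      have e3 : (den M τ).im = M 1 0 * τ.im := by simp [den]
      have e4 : (den M τ).re = M 1 0 * τ.re + M 1 1 := by simp [den]
      have e5 : (τ : ℂ).re = τ.re := rfl
      rw [e1, e2, e3, e4, det_eq]
      push_cast
      field_simp
      ring
    rw [h2]
    have h3 : 0 < Complex.normSq (den M τ) := Complex.normSq_pos.2 hd
    have h4 : (0 : ℝ) < M.det := by exact_mod_cast hM
    have := τ.im_pos
    positivity
  refine ⟨⟨num M τ / den M τ, h1⟩, ?_⟩
  show (num M τ / den M τ) * den M τ = num M τ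
  exact div_mul_cancel₀ _ hd

theorem Rel.unique {M : M2} (hM : 0 < M.det) {τ w w' : ℍ} (h : Rel M τ w) (h' : Rel M τ w') :
    w = w' := by
  apply UpperHalfPlane.ext
  have hd := den_ne hM τ
  exact mul_right_cancel₀ hd (h.trans h'.symm)

theorem mul_entries (A B : M2) (i j : Fin 2) : (A * B) i j = A i 0 * B 0 j + A i 1 * B 1 j := by
  simp [Matrix.mul_apply, Fin.sum_univ_two]

theorem den_mul {A B : M2} {τ w : ℍ} (h : Rel B τ w) : den (A * B) τ = den A w * den B τ := by
  unfold Rel at h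
  unfold den at *
  unfold num at h
  rw [mul_entries, mul_entries]
  push_cast
  linear_combination -(A 1 0 : ℂ) * h

theorem num_mul {A B : M2} {τ w : ℍ} (h : Rel B τ w) : num (A * B) τ = num A w * den B τ := by
  unfold Rel at h
  unfold num at *
  unfold den at *
  rw [mul_entries, mul_entries]
  push_cast
  linear_combination -(A 0 0 : ℂ) * h

theorem Rel.mul {A B : M2} {τ w z : ℍ} (h : Rel B τ w) (h' : Rel A w z) : Rel (A * B) τ z := by
  unfold Rel at *
  rw [den_mul h, num_mul h, ← h']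
  ring

theorem rel_one (τ : ℍ) : Rel 1 τ τ := by
  simp [Rel, den, num]

theorem den_one (τ : ℍ) : den 1 τ = 1 := by
  simp [den]

theorem Rel.jj {M : M2} (hM : M.det = 1) {τ w : ℍ} (h : Rel M τ w) : jj w = jj τ := by
  refine hTA.1 (M 0 0) (M 0 1) (M 1 0) (M 1 1) ?_ τ w h
  rw [← det_eq, hM]

theorem disc_rel {M : M2} (hM : M.det = 1) {τ w : ℍ} (h : Rel M τ w) :
    discriminant w = den M τ ^ 12 * discriminant τ := by
  have hdet : M 0 0 * M 1 1 - M 0 1 * M 1 0 = 1 := by rw [← det_eq, hM]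
  have hM' : !![M 0 0, M 0 1; M 1 0, M 1 1] = M := (Matrix.eta_fin_two M).symm
  let γ : Matrix.SpecialLinearGroup (Fin 2) ℤ := ⟨!![M 0 0, M 0 1; M 1 0, M 1 1], by
    rw [Matrix.det_fin_two_of]; exact hdet⟩
  have hden : UpperHalfPlane.denom γ τ = den M τ := by
    rw [ModularGroup.denom_apply]
    simp [γ, den]
  have hw : w = γ • τ := by
    apply UpperHalfPlane.ext
    rw [coe_specialLinearGroup_apply]
    have hne : den M τ ≠ 0 := den_ne (by rw [hM]; norm_num) τ
    have h2 : (w : ℂ) = num M τ / den M τ := by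
      rw [eq_div_iff hne]; exact h
    rw [h2]
    simp [γ, num, den]
  have h12 : discriminant (γ • τ) = (UpperHalfPlane.denom γ τ) ^ (12 : ℤ) * discriminant τ := by
    have := SlashInvariantForm.slash_action_eqn' CuspForm.discriminant
      (MonoidHom.mem_range.mpr ⟨γ, rfl⟩) τ
    exact this
  rw [hw, h12, hden]
  norm_cast

/-- the quotient `(N / (c τ + d)) ^ 12 Δ(M τ) / Δ(τ)` for a matrix `M` of determinant `N` -/
noncomputable def GG (M : M2) (τ w : ℍ) : ℂ :=
  ((M.det : ℂ) / den M τ) ^ 12 * discriminant w / discriminant τ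

theorem GG_mul {A B : M2} (hA : 0 < A.det) (hB : 0 < B.det) {τ w z : ℍ} (h : Rel B τ w) :
    GG (A * B) τ z = GG A w z * GG B τ w := by
  unfold GG
  rw [den_mul h, Matrix.det_mul]
  have h1 := discriminant_ne_zero τ
  have h2 := discriminant_ne_zero w
  have h3 := den_ne hA w
  have h4 := den_ne hB τ
  push_cast
  field_simp

theorem GG_sl {M : M2} (hM : M.det = 1) {τ w : ℍ} (h : Rel M τ w) : GG M τ w = 1 := by
  unfold GG
  rw [disc_rel hM h, hM]
  have h1 := discriminant_ne_zero τ
  have h3 := den_ne (by rw [hM]; norm_num : 0 < M.det) τ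
  push_cast
  field_simp

theorem GG_ne {M : M2} (hM : 0 < M.det) (τ w : ℍ) : GG M τ w ≠ 0 := by
  unfold GG
  have h1 := discriminant_ne_zero τ
  have h2 := discriminant_ne_zero w
  have h3 := den_ne hM τ
  have h4 : (M.det : ℂ) ≠ 0 := by exact_mod_cast hM.ne'
  exact div_ne_zero (mul_ne_zero (pow_ne_zero _ (div_ne_zero h4 h3)) h2) h1

theorem GG_smul (N : ℕ) (hN : 0 < N) {M : M2} (hM : M = (N : ℤ) • (1 : M2)) (τ : ℍ) :
    Rel M τ τ ∧ GG M τ τ = (N : ℂ) ^ 12 := by
  subst hM
  constructor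
  · simp [Rel, den, num]
    ring
  · unfold GG
    have h1 := discriminant_ne_zero τ
    have hN' : (N : ℂ) ≠ 0 := by exact_mod_cast hN.ne'
    have h2 : ((N : ℤ) • (1 : M2)).det = (N : ℤ) ^ 2 := by
      rw [Matrix.det_smul]
      simp
    have h3 : den ((N : ℤ) • (1 : M2)) τ = N := by
      simp [den]
    rw [h2, h3]
    push_cast
    field_simp

end Pool.Agent.N135.ZO
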