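import Pool.Agent.N135.ZO.Can

/-!
The canonical value is contracting and injective on residue classes modulo `p`.
-/

set_option autoImplicit false

namespace Pool.Agent.N135.ZO

open UpperHalfPlane H294ZP Function Polynomial
open Pool.Agent.Y226 (ZZ ιZ ιZ_apply)

variable {V : ValuationSubring ℂ} {p : ℕ}

/-- the equations of the canonical value -/
def IsPhi {hl : 0 < p} (P : Pkg p hl) (x φ : V) : Prop := ∃ u u' : V,
  (p : V) ^ 12 + P.h.eval₂ (ρV V) x * u + u ^ 2 * e2 (ρV V) P.K x u = 0 ∧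
  u = (p : V) ^ 12 * u' ∧
  φ * (P.h.eval₂ (ρV V) x + u * e2 (ρV V) P.M x u) =
    x ^ p * P.h.eval₂ (ρV V) x + p * P.g.eval₂ (ρV V) x + u * e2 (ρV V) P.L x u

theorem unit_add {a b : V} (ha : IsUnit a) (hb : ¬ IsUnit b) : IsUnit (a + b) := by
  by_contra hcon
  have h1 := (IsLocalRing.mem_maximalIdeal _).2 hcon
  have h2 := (IsLocalRing.mem_maximalIdeal _).2 hb
  have h3 := (IsLocalRing.maximalIdeal V).sub_mem h1 h2
  rw [add_sub_cancel_right] at h3
  exact (IsLocalRing.mem_maximalIdeal _).1 h3 ha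

theorem not_unit_mul {a b : V} (hb : ¬ IsUnit a) : ¬ IsUnit (a * b) := fun h =>
  hb (isUnit_of_mul_isUnit_left h)

theorem not_unit_p (hpV : V.valuation (p : ℂ) < 1) : ¬ IsUnit (p : V) := by
  intro h
  rw [V.valuation_eq_one_iff] at h
  have : ((p : V) : ℂ) = (p : ℂ) := by push_cast; rfl
  rw [this] at h
  rw [h] at hpV
  exact lt_irrefl _ hpV

theorem IsPhi.intro (hl : p.Prime) (P : Pkg p hl.pos) {τ : ℍ}
    {k : Option (Fin p)} (hk : V.valuation (uu hl.pos k τ) = V.valuation (p : ℂ) ^ 12)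
    {x φ : V} (hx : (x : ℂ) = jj τ) (hφ : (φ : ℂ) = jj (hh hl.pos k τ)) :
    ∃ u u' : V, (u : ℂ) = uu hl.pos k τ ∧
  (p : V) ^ 12 + P.h.eval₂ (ρV V) x * u + u ^ 2 * e2 (ρV V) P.K x u = 0 ∧
  u = (p : V) ^ 12 * u' ∧
  φ * (P.h.eval₂ (ρV V) x + u * e2 (ρV V) P.M x u) =
    x ^ p * P.h.eval₂ (ρV V) x + p * P.g.eval₂ (ρV V) x + u * e2 (ρV V) P.L x u := by
  have hτ : jj τ ∈ V := hx ▸ x.2
  have hne : (p : ℂ) ^ 12 ≠ 0 := pow_ne_zero _ (by exact_mod_cast hl.ne_zero)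
  have hu' : uu hl.pos k τ / (p : ℂ) ^ 12 ∈ V := by
    rw [← V.valuation_le_one_iff, map_div₀, hk, map_pow]
    exact div_self_le_one _
  refine ⟨⟨uu hl.pos k τ, uu_mem hl k hτ⟩, ⟨_, hu'⟩, rfl, ?_, ?_, ?_⟩
  · apply Subtype.ext
    push_cast
    rw [coe_e1, coe_e2, hx]
    have h1 := P.hp_eval τ (uu hl.pos k τ)
    rw [eval_hp] at h1
    exact h1.symm
  · apply Subtype.ext
    push_cast
    rw [mul_div_cancel₀ _ hne]
  · apply Subtype.ext
    push_cast
    rw [coe_e1, coe_e1, coe_e2, coe_e2, hx, hφ]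
    have h1 := P.hp_der τ (uu hl.pos k τ)
    have h2 := P.qp_eval τ (uu hl.pos k τ)
    rw [eval_qp, h1] at h2
    exact h2

theorem isPhi_of (hl : p.Prime) (P : Pkg p hl.pos) {τ : ℍ}
    {k : Option (Fin p)} (hk : V.valuation (uu hl.pos k τ) = V.valuation (p : ℂ) ^ 12)
    {x φ : V} (hx : (x : ℂ) = jj τ) (hφ : (φ : ℂ) = jj (hh hl.pos k τ)) : IsPhi P x φ := by
  obtain ⟨u, u', -, h⟩ := IsPhi.intro hl P hk hx hφ
  exact ⟨u, u', h⟩

theorem phi_pow {hl : 0 < p} (P : Pkg p hl) (hpV : V.valuation (p : ℂ) < 1) {x φ : V}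
    (h : IsPhi P x φ) (hx : IsUnit (P.h.eval₂ (ρV V) x)) : ∃ a, φ = x ^ p + p * a := by
  obtain ⟨u, u', h1, h2, h3⟩ := h
  have hpu := not_unit_p hpV
  have hV : IsUnit (P.h.eval₂ (ρV V) x + u * e2 (ρV V) P.M x u) := by
    refine unit_add hx ?_
    rw [h2, pow_succ', mul_assoc, mul_assoc]
    exact not_unit_mul hpu
  obtain ⟨v, hv⟩ := hV.exists_right_inv
  have hu : u = p * (p ^ 11 * u') := by rw [h2]; ring
  refine ⟨v * (P.g.eval₂ (ρV V) x + (p ^ 11 * u') * (e2 (ρV V) P.L x u - x ^ p * e2 (ρV V) P.M x u)), ?_⟩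
  generalize hM : e2 (ρV V) P.M x u = M at *
  generalize hL : e2 (ρV V) P.L x u = L at *
  have e1 : (φ - x ^ p) * (P.h.eval₂ (ρV V) x + u * M) =
      p * (P.g.eval₂ (ρV V) x + (p ^ 11 * u') * (L - x ^ p * M)) := by
    linear_combination h3 + (L - x ^ p * M) * hu
  have e2 : φ - x ^ p = v * ((φ - x ^ p) * (P.h.eval₂ (ρV V) x + u * M)) := by
    linear_combination -(φ - x ^ p) * hv
  rw [e1] at e2
  linear_combination e2

/-- the comparison of two values -/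
theorem phi_core {hl : 0 < p} (P : Pkg p hl) (hpV : V.valuation (p : ℂ) < 1) {x y φx φy u u' w w' : V}
    (hx : IsUnit (P.h.eval₂ (ρV V) x)) (hy : IsUnit (P.h.eval₂ (ρV V) y))
    (h1 : (p : V) ^ 12 + P.h.eval₂ (ρV V) x * u + u ^ 2 * e2 (ρV V) P.K x u = 0)
    (h2 : u = (p : V) ^ 12 * u')
    (h3 : φx * (P.h.eval₂ (ρV V) x + u * e2 (ρV V) P.M x u) =
      x ^ p * P.h.eval₂ (ρV V) x + p * P.g.eval₂ (ρV V) x + u * e2 (ρV V) P.L x u)
    (h1' : (p : V) ^ 12 + P.h.eval₂ (ρV V) y * w + w ^ 2 * e2 (ρV V) P.K y w = 0)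
    (h2' : w = (p : V) ^ 12 * w')
    (h3' : φy * (P.h.eval₂ (ρV V) y + w * e2 (ρV V) P.M y w) =
      y ^ p * P.h.eval₂ (ρV V) y + p * P.g.eval₂ (ρV V) y + w * e2 (ρV V) P.L y w) :
    ∃ r, (P.h.eval₂ (ρV V) x + u * e2 (ρV V) P.M x u) *
      (P.h.eval₂ (ρV V) y + w * e2 (ρV V) P.M y w) * (φy - φx) =
      (y ^ p * P.h.eval₂ (ρV V) y + p * P.g.eval₂ (ρV V) y) * P.h.eval₂ (ρV V) x -
      (x ^ p * P.h.eval₂ (ρV V) x + p * P.g.eval₂ (ρV V) x) * P.h.eval₂ (ρV V) y +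
      (p : V) ^ 12 * (y - x) * r := by
  have hpu := not_unit_p hpV
  obtain ⟨α, hα⟩ := e1_sub (ρV V) P.h x y
  obtain ⟨β, hβ⟩ := e1_sub (ρV V) P.g x y
  obtain ⟨κ, hκ⟩ : ∃ κ, y ^ p - x ^ p = (y - x) * κ := sub_dvd_pow_sub_pow y x p
  obtain ⟨aK, bK, hK⟩ := e2_sub (ρV V) P.K x u y w
  obtain ⟨aL, bL, hL⟩ := e2_sub (ρV V) P.L x u y w
  obtain ⟨aM, bM, hM⟩ := e2_sub (ρV V) P.M x u y w
  generalize P.h.eval₂ (ρV V) x = hx0 at *
  generalize P.h.eval₂ (ρV V) y = hy0 at *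
  generalize P.g.eval₂ (ρV V) x = gx0 at *
  generalize P.g.eval₂ (ρV V) y = gy0 at *
  generalize e2 (ρV V) P.K x u = K at *
  generalize e2 (ρV V) P.K y w = K' at *
  generalize e2 (ρV V) P.L x u = L at *
  generalize e2 (ρV V) P.L y w = L' at *
  generalize e2 (ρV V) P.M x u = M at *
  generalize e2 (ρV V) P.M y w = M' at *
  have hω : IsUnit (hx0 + ((w + u) * K' + u ^ 2 * bK)) := by
    refine unit_add hx ?_
    have : (w + u) * K' + u ^ 2 * bK = p * (p ^ 11 * ((w' + u') * K' + u' * u * bK)) := by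
      linear_combination K' * h2' + (K' + u * bK) * h2
    rw [this]
    exact not_unit_mul hpu
  obtain ⟨ω, hω⟩ := hω.exists_right_inv
  obtain ⟨δ, hδ⟩ := root_diff (t := y - x) (α := α) (a := aK) (b := bK) (ω := ω) h1 h1'
    (by linear_combination hα) (by linear_combination hK) h2 h2' (by linear_combination hω)
  obtain ⟨r, hr⟩ := core (t := y - x) (qx := x ^ p * hx0 + p * gx0) (qy := y ^ p * hy0 + p * gy0)
    (κ := κ * hy0 + x ^ p * α + p * β) (η := α) (a := aL) (b := bL) (a' := aM) (b' := bM)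
    h2 hδ rfl rfl rfl rfl
    (by linear_combination hL) (by linear_combination hM) h3 h3'
    (by linear_combination hy0 * hκ + x ^ p * hα + p * hβ) hα
  exact ⟨r, hr⟩

theorem phi_sub {hl : 0 < p} (P : Pkg p hl) (hpV : V.valuation (p : ℂ) < 1) {x y φx φy : V}
    (hx : IsUnit (P.h.eval₂ (ρV V) x)) (hy : IsUnit (P.h.eval₂ (ρV V) y)) (h : IsPhi P x φx)
    (h' : IsPhi P y φy) :
    ∃ a b, IsUnit a ∧ φy - φx = (y ^ p - x ^ p) * a + p * (y - x) * b := by
  obtain ⟨u, u', h1, h2, h3⟩ := h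
  obtain ⟨w, w', h1', h2', h3'⟩ := h'
  have hpu := not_unit_p hpV
  obtain ⟨r, hr⟩ := phi_core P hpV hx hy h1 h2 h3 h1' h2' h3'
  obtain ⟨α, hα⟩ := e1_sub (ρV V) P.h x y
  obtain ⟨β, hβ⟩ := e1_sub (ρV V) P.g x y
  have hqh := qh (p := p) (x := x) (y := y) (hx := P.h.eval₂ (ρV V) x) (hy := P.h.eval₂ (ρV V) y)
    (gx := P.g.eval₂ (ρV V) x) (gy := P.g.eval₂ (ρV V) y) (α := α) (β := β) (t := y - x) rfl rfl rfl
    (by linear_combination hα) (by linear_combination hβ)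
  have hVx : IsUnit (P.h.eval₂ (ρV V) x + u * e2 (ρV V) P.M x u) := by
    refine unit_add hx ?_
    rw [h2, pow_succ', mul_assoc, mul_assoc]
    exact not_unit_mul hpu
  have hVy : IsUnit (P.h.eval₂ (ρV V) y + w * e2 (ρV V) P.M y w) := by
    refine unit_add hy ?_
    rw [h2', pow_succ', mul_assoc, mul_assoc]
    exact not_unit_mul hpu
  obtain ⟨v, hv⟩ := hVx.exists_right_inv
  obtain ⟨v', hv'⟩ := hVy.exists_right_inv
  exact contr (p := p) (c := (p : V) ^ 12) (c' := (p : V) ^ 11) (by ring) hr hqh hv hv' hx hy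

theorem phi_unique {hl : 0 < p} (P : Pkg p hl) (hpV : V.valuation (p : ℂ) < 1) {x φx φy : V}
    (hx : IsUnit (P.h.eval₂ (ρV V) x)) (h : IsPhi P x φx) (h' : IsPhi P x φy) : φx = φy := by
  obtain ⟨a, b, -, hab⟩ := phi_sub P hpV hx hx h h'
  rw [sub_self, sub_self, zero_mul, mul_zero, zero_mul, add_zero] at hab
  exact (sub_eq_zero.1 hab).symm

theorem phi_sq {hl : 0 < p} (hp : p.Prime) (hp2 : p ≠ 2) (P : Pkg p hl)
    (hpV : V.valuation (p : ℂ) < 1) {x y φx φy : V}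
    (hx : IsUnit (P.h.eval₂ (ρV V) x)) (hy : IsUnit (P.h.eval₂ (ρV V) y)) (h : IsPhi P x φx)
    (h' : IsPhi P y φy) : ∃ a b, φy - φx = (y - x) ^ 2 * a + p * b := by
  obtain ⟨a, b, -, hab⟩ := phi_sub P hpV hx hy h h'
  obtain ⟨r, hr⟩ := pow_prime_add hp hp2 x (y - x)
  obtain ⟨m, hm⟩ : ∃ m, p = m + 2 := ⟨p - 2, by
    have := hp.two_le
    omega⟩
  have e : (y - x) ^ p = (y - x) ^ 2 * (y - x) ^ m := by
    nth_rw 1 [hm]
    rw [pow_add, mul_comm]
  rw [show x + (y - x) = y by ring, e] at hr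
  refine ⟨(y - x) ^ m * a, (x ^ (p - 1) * (y - x) + (y - x) ^ 2 * r) * a + (y - x) * b, ?_⟩
  rw [hab, hr]
  ring

/-- small differences -/
def Cl (p : ℕ) (t : V) : Prop := ∃ w, ¬ IsUnit w ∧ t ^ (p - 1) = p * w

theorem Cl.next (hp : p.Prime) (hp2 : p ≠ 2) (hpV : V.valuation (p : ℂ) < 1) (t b : V) :
    Cl p ((p : V) * t * b) := by
  have hpu := not_unit_p hpV
  obtain ⟨m, hm⟩ : ∃ m, p - 1 = m + 2 := ⟨p - 3, by
    have := hp.two_le
    omega⟩
  refine ⟨p * (p ^ m * (t ^ (m + 2) * b ^ (m + 2))), not_unit_mul hpu, ?_⟩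
  rw [hm]
  ring

theorem phi_p {hl : 0 < p} (hp : p.Prime) (hp2 : p ≠ 2) (P : Pkg p hl)
    (hpV : V.valuation (p : ℂ) < 1) {x y φx φy : V}
    (hx : IsUnit (P.h.eval₂ (ρV V) x)) (hy : IsUnit (P.h.eval₂ (ρV V) y)) (h : IsPhi P x φx)
    (h' : IsPhi P y φy) (ht : Cl p (y - x)) : ∃ b, φy - φx = p * (y - x) * b := by
  obtain ⟨a, b, -, hab⟩ := phi_sub P hpV hx hy h h'
  obtain ⟨r, hr⟩ := pow_prime_add hp hp2 x (y - x)
  obtain ⟨w, -, hw⟩ := ht
  have e : (y - x) ^ p = p * (y - x) * w := by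
    have : p = (p - 1) + 1 := by
      have := hp.two_le
      omega
    have e1 : (y - x) ^ p = (y - x) ^ (p - 1) * (y - x) := by
      nth_rw 1 [this]
      rw [pow_succ]
    rw [e1, hw]
    ring
  rw [show x + (y - x) = y by ring, e] at hr
  refine ⟨(x ^ (p - 1) + (y - x) * r + w) * a + b, ?_⟩
  rw [hab, hr]
  ring

/-- large differences -/
theorem phi_far {hl : 0 < p} (hp : p.Prime) (hp2 : p ≠ 2) (P : Pkg p hl)
    (hpV : V.valuation (p : ℂ) < 1) {x y φx φy : V}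
    (hx : IsUnit (P.h.eval₂ (ρV V) x)) (hy : IsUnit (P.h.eval₂ (ρV V) y)) (h : IsPhi P x φx)
    (h' : IsPhi P y φy)
    (ht : V.valuation (p : ℂ) < V.valuation ((y - x : V) : ℂ) ^ (p - 1)) :
    V.valuation ((φy - φx : V) : ℂ) = V.valuation ((y - x : V) : ℂ) ^ p := by
  obtain ⟨a, b, ha, hab⟩ := phi_sub P hpV hx hy h h'
  obtain ⟨r, hr⟩ := pow_prime_add hp hp2 x (y - x)
  rw [show x + (y - x) = y by ring] at hr
  set t : V := y - x with htdef
  have e : φy - φx = t ^ p * a + p * t * ((x ^ (p - 1) + t * r) * a + b) := by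
    rw [hab, hr]
    ring
  have hva : V.valuation (a : ℂ) = 1 := (V.valuation_eq_one_iff a).1 ha
  have h1 : V.valuation ((t ^ p * a : V) : ℂ) = V.valuation (t : ℂ) ^ p := by
    push_cast
    rw [map_mul, map_pow, hva, mul_one]
  have htne : V.valuation (t : ℂ) ≠ 0 := by
    intro h0
    rw [h0, zero_pow (by have := hp.two_le; omega)] at ht
    exact absurd ht (not_lt.2 zero_le)
  have h2 : V.valuation ((p * t * ((x ^ (p - 1) + t * r) * a + b) : V) : ℂ) <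
      V.valuation (t : ℂ) ^ p := by
    generalize (x ^ (p - 1) + t * r) * a + b = z
    push_cast
    rw [map_mul, map_mul]
    have hp1 : V.valuation (t : ℂ) ^ p = V.valuation (t : ℂ) ^ (p - 1) * V.valuation (t : ℂ) := by
      rw [← pow_succ]
      congr 1
      have := hp.two_le
      omega
    rw [hp1]
    calc V.valuation (p : ℂ) * V.valuation (t : ℂ) * V.valuation (z : ℂ) ≤
        V.valuation (p : ℂ) * V.valuation (t : ℂ) * 1 := mul_le_mul_right (val_le z.2) _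
      _ = V.valuation (p : ℂ) * V.valuation (t : ℂ) := mul_one _
      _ < V.valuation (t : ℂ) ^ (p - 1) * V.valuation (t : ℂ) :=
        mul_lt_mul_of_pos_right ht (zero_lt_iff.2 htne)
  rw [e]
  have h3 : ((t ^ p * a + p * t * ((x ^ (p - 1) + t * r) * a + b) : V) : ℂ) =
      ((t ^ p * a : V) : ℂ) + ((p * t * ((x ^ (p - 1) + t * r) * a + b) : V) : ℂ) := by
    push_cast
    ring
  rw [h3, Valuation.map_add_eq_of_lt_left _ (by rw [h1]; exact h2), h1]

/-! ### the derivative -/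

theorem hd_e1 (P : ZZ[X]) {f : ℂ → ℂ} {f' z : ℂ} (hf : HasDerivAt f f' z) :
    HasDerivAt (fun w => P.eval₂ ιZ (f w)) ((derivative P).eval₂ ιZ (f z) * f') z := by
  have h1 := ((P.map ιZ).hasDerivAt (f z)).comp z hf
  have e : (fun w => P.eval₂ ιZ (f w)) = (fun x => (P.map ιZ).eval x) ∘ f := by
    funext w
    simp only [Function.comp]
    rw [eval_map]
  rw [e]
  rw [derivative_map, eval_map] at h1
  exact h1

theorem hd_e2 (Q : ZZ[X][X]) {f g : ℂ → ℂ} {f' g' z : ℂ} (hf : HasDerivAt f f' z)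
    (hg : HasDerivAt g g' z) {x u : V} (hx : f z = x) (hu : g z = u) :
    ∃ a b : V, HasDerivAt (fun w => e2 ιZ Q (f w) (g w)) (a * f' + b * g') z := by
  classical
  have h1 : HasDerivAt (fun w => ∑ i ∈ Q.support, (Q.coeff i).eval₂ ιZ (f w) * g w ^ i)
      (∑ i ∈ Q.support, ((derivative (Q.coeff i)).eval₂ ιZ (f z) * f' * g z ^ i +
        (Q.coeff i).eval₂ ιZ (f z) * (i * g z ^ (i - 1) * g'))) z := by
    refine HasDerivAt.fun_sum fun i _ => ?_
    exact (hd_e1 (Q.coeff i) hf).mul (hg.pow i)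
  refine ⟨∑ i ∈ Q.support, (derivative (Q.coeff i)).eval₂ (ρV V) x * u ^ i,
    ∑ i ∈ Q.support, (Q.coeff i).eval₂ (ρV V) x * (i * u ^ (i - 1)), ?_⟩
  have e : (fun w => e2 ιZ Q (f w) (g w)) =
      fun w => ∑ i ∈ Q.support, (Q.coeff i).eval₂ ιZ (f w) * g w ^ i := by
    funext w
    rw [e2_eq]
  rw [e]
  refine h1.congr_deriv ?_
  push_cast
  rw [Finset.sum_mul, Finset.sum_mul, ← Finset.sum_add_distrib]
  refine Finset.sum_congr rfl fun i _ => ?_
  rw [coe_e1, coe_e1, hx, hu]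
  ring

/-- the derivative of the canonical value -/
theorem exists_D (hl : p.Prime) (hpV : V.valuation (p : ℂ) < 1) (P : Pkg p hl.pos) {τ : ℍ}
    {k : Option (Fin p)} {x φ u u' : V} (hx : (x : ℂ) = jj τ) (hφ : (φ : ℂ) = jj (hh hl.pos k τ))
    (hu : (u : ℂ) = uu hl.pos k τ) (hu' : u = (p : V) ^ 12 * u')
    (hxu : IsUnit (P.h.eval₂ (ρV V) x)) :
    ∃ D s : V, (D : ℂ) * dd jj τ = dd (fun w => jj (hh hl.pos k w)) τ ∧
      D * (P.h.eval₂ (ρV V) x + u * e2 (ρV V) P.M x u) =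
        (p * x ^ (p - 1) * P.h.eval₂ (ρV V) x + x ^ p * (derivative P.h).eval₂ (ρV V) x +
          p * (derivative P.g).eval₂ (ρV V) x) - φ * (derivative P.h).eval₂ (ρV V) x +
          (p : V) ^ 12 * s := by
  have hpu := not_unit_p hpV
  set f : ℂ → ℂ := jj ∘ ofComplex with hf
  set g : ℂ → ℂ := (uu hl.pos k) ∘ ofComplex with hg
  set q : ℂ → ℂ := (fun w => jj (hh hl.pos k w)) ∘ ofComplex with hq
  have df : HasDerivAt f (dd jj τ) (τ : ℂ) := hasDerivAt_dd hTA.2.1 τ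
  have dg : HasDerivAt g (dd (uu hl.pos k) τ) (τ : ℂ) := hasDerivAt_dd (LX.uu hl.pos k).2 τ
  have dq : HasDerivAt q (dd (fun w => jj (hh hl.pos k w)) τ) (τ : ℂ) :=
    hasDerivAt_dd (LX.jj_hh hl.pos k).2 τ
  have fx : f (τ : ℂ) = x := by rw [hx]; simp [hf]
  have gu : g (τ : ℂ) = u := by rw [hu]; simp [hg]
  have qφ : q (τ : ℂ) = φ := by rw [hφ]; simp [hq]
  generalize dd jj τ = X' at *
  generalize dd (uu hl.pos k) τ = U' at *
  generalize dd (fun w => jj (hh hl.pos k w)) τ = F' at *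
  obtain ⟨aK, bK, dK⟩ := hd_e2 P.K df dg fx gu
  obtain ⟨aL, bL, dL⟩ := hd_e2 P.L df dg fx gu
  obtain ⟨aM, bM, dM⟩ := hd_e2 P.M df dg fx gu
  have dh := hd_e1 P.h df
  have dgg := hd_e1 P.g df
  -- first identity
  have id1 : ∀ z, (p : ℂ) ^ 12 + P.h.eval₂ ιZ (f z) * g z + g z ^ 2 * e2 ιZ P.K (f z) (g z) = 0 := by
    intro z
    have h1 := P.hp_eval (ofComplex z) (uu hl.pos k (ofComplex z))
    rw [eval_hp] at h1
    exact h1.symm
  have d1 := (((hasDerivAt_const (τ : ℂ) ((p : ℂ) ^ 12)).add (dh.mul dg)).add ((dg.pow 2).mul dK))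
  have e1 := d1.unique (by
    refine (hasDerivAt_const (τ : ℂ) (0 : ℂ)).congr_of_eventuallyEq (Filter.Eventually.of_forall ?_)
    intro z
    exact id1 z)
  have id2 : ∀ z, q z * (P.h.eval₂ ιZ (f z) + g z * e2 ιZ P.M (f z) (g z)) =
      f z ^ p * P.h.eval₂ ιZ (f z) + p * P.g.eval₂ ιZ (f z) + g z * e2 ιZ P.L (f z) (g z) := by
    intro z
    have h1 := P.hp_der (ofComplex z) (uu hl.pos k (ofComplex z))
    have h2 := P.qp_eval (ofComplex z) (uu hl.pos k (ofComplex z))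
    rw [eval_qp, h1] at h2
    exact h2
  have d2 := dq.mul (dh.add (dg.mul dM))
  have d3 := (((df.pow p).mul dh).add (dgg.const_mul (p : ℂ))).add (dg.mul dL)
  have e3 := d2.unique (by
    refine d3.congr_of_eventuallyEq (Filter.Eventually.of_forall ?_)
    intro z
    exact id2 z)
  simp only [Pi.pow_apply, Pi.add_apply, Pi.mul_apply] at e1 e3
  rw [fx, gu] at e1
  rw [fx, gu, qφ] at e3
  rw [← coe_e1 V P.h x, ← coe_e1 V (derivative P.h) x, ← coe_e2 V P.K x u] at e1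
  rw [← coe_e1 V P.h x, ← coe_e1 V (derivative P.h) x, ← coe_e1 V (derivative P.g) x,
    ← coe_e2 V P.L x u, ← coe_e2 V P.M x u] at e3
  generalize P.h.eval₂ (ρV V) x = hx0 at *
  generalize (derivative P.h).eval₂ (ρV V) x = h' at *
  generalize (derivative P.g).eval₂ (ρV V) x = g' at *
  generalize e2 (ρV V) P.K x u = K at *
  generalize e2 (ρV V) P.L x u = L at *
  generalize e2 (ρV V) P.M x u = M at *
  have hω : IsUnit (hx0 + (u * K + u * K + u ^ 2 * bK)) := by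
    refine unit_add hxu ?_
    have : u * K + u * K + u ^ 2 * bK = p * (p ^ 11 * u' * (K + K + u * bK)) := by
      linear_combination (K + K + u * bK) * hu'
    rw [this]
    exact not_unit_mul hpu
  obtain ⟨ω, hω⟩ := hω.exists_right_inv
  have hV : IsUnit (hx0 + u * M) := by
    refine unit_add hxu ?_
    rw [hu', pow_succ', mul_assoc, mul_assoc]
    exact not_unit_mul hpu
  obtain ⟨v, hv⟩ := hV.exists_right_inv
  set e := -ω * (h' + u * aK) with he
  have hωC := congrArg (fun z : V => (z : ℂ)) hω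
  have hvC := congrArg (fun z : V => (z : ℂ)) hv
  have heC := congrArg (fun z : V => (z : ℂ)) he
  push_cast at hωC hvC heC e1 e3
  have hU : U' = X' * u * e := by
    have : U' * ((hx0 : ℂ) + (u * K + u * K + u ^ 2 * bK)) = -(X' * u * (h' + u * aK)) := by
      linear_combination e1
    have h2 : U' = U' * ((hx0 : ℂ) + (u * K + u * K + u ^ 2 * bK)) * ω := by
      linear_combination -U' * hωC
    rw [h2, this, heC]
    ring
  set s := u' * (e * L + aL + bL * u * e - φ * (e * M + aM + bM * u * e)) with hs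
  refine ⟨v * ((p * x ^ (p - 1) * hx0 + x ^ p * h' + p * g') - φ * h' + (p : V) ^ 12 * s), s, ?_, ?_⟩
  · have hsC : (((p : V) ^ 12 * s : V) : ℂ) =
        u * (e * L + aL + bL * u * e - φ * (e * M + aM + bM * u * e)) := by
      have : (p : V) ^ 12 * s = u * (e * L + aL + bL * u * e - φ * (e * M + aM + bM * u * e)) := by
        rw [hs, ← mul_assoc, ← hu']
      rw [this]
      push_cast
      ring
    have h4 : F' * (hx0 + u * M) = ((p * x ^ (p - 1) * hx0 + x ^ p * h' + p * g') - φ * h' +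
        u * (e * L + aL + bL * u * e - φ * (e * M + aM + bM * u * e))) * X' := by
      rw [hU] at e3
      linear_combination e3
    rw [← hsC] at h4
    have h5 : F' = v * (F' * (hx0 + u * M)) := by linear_combination -F' * hvC
    rw [h5, h4]
    push_cast
    ring
  · linear_combination ((p * x ^ (p - 1) * hx0 + x ^ p * h' + p * g') - φ * h' +
      (p : V) ^ 12 * s) * hv

theorem val_p_dvd (hl : p.Prime) (a : ℕ) : ∃ z : ℤ, (a : ℤ) ^ p = a + p * z := by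
  have : Fact p.Prime := ⟨hl⟩
  have h1 : (((a : ℤ) ^ p - a : ℤ) : ZMod p) = 0 := by
    push_cast
    rw [ZMod.pow_card, sub_self]
  obtain ⟨z, hz⟩ := (ZMod.intCast_zmod_eq_zero_iff_dvd _ p).1 h1
  exact ⟨z, by linear_combination hz⟩

theorem phi_res {hl : 0 < p} (hp : p.Prime) (P : Pkg p hl) (hpV : V.valuation (p : ℂ) < 1)
    {x φ : V} (h : IsPhi P x φ) (hx : IsUnit (P.h.eval₂ (ρV V) x)) (h0 : IsUnit x)
    (h1 : IsUnit (x - 1728)) : IsUnit φ ∧ IsUnit (φ - 1728) := by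
  obtain ⟨a, ha⟩ := phi_pow P hpV h hx
  have hpu := not_unit_p hpV
  constructor
  · rw [ha]
    exact unit_add (h0.pow p) (not_unit_mul hpu)
  · obtain ⟨z, hz⟩ := val_p_dvd hp 1728
    have h3 := add_pow_prime_eq hp (x - 1728) 1728
    obtain ⟨r, hr⟩ : ∃ r, x ^ p = (x - 1728) ^ p + 1728 ^ p + p * r := by
      rw [sub_add_cancel] at h3
      refine ⟨(x - 1728) * 1728 * ∑ k ∈ Finset.Ioo 0 p,
        (x - 1728) ^ (k - 1) * 1728 ^ (p - k - 1) * ↑(p.choose k / p), ?_⟩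
      rw [h3]
      ring
    have hz' : (1728 : V) ^ p = 1728 + p * z := by
      have := congrArg (fun n : ℤ => (n : V)) hz
      push_cast at this
      exact this
    have e : φ - 1728 = (x - 1728) ^ p + p * (z + r + a) := by
      rw [ha, hr, hz']
      ring
    rw [e]
    exact unit_add (h1.pow p) (not_unit_mul hpu)

/-- The canonical value is injective for small differences. -/
theorem phi_inj (hl : p.Prime) (hp2 : p ≠ 2) (hpV : V.valuation (p : ℂ) < 1) (P : Pkg p hl.pos)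
    {τ : ℍ} {k : Option (Fin p)}
    (hk : V.valuation (uu hl.pos k τ) = V.valuation (p : ℂ) ^ 12)
    {x y φ : V} (hx : (x : ℂ) = jj τ) (hφ : (φ : ℂ) = jj (hh hl.pos k τ))
    (hxu : IsUnit (P.h.eval₂ (ρV V) x)) (hyu : IsUnit (P.h.eval₂ (ρV V) y)) (h0 : IsUnit x)
    (h1 : IsUnit (x - 1728)) (hy : IsPhi P y φ) (ht : Cl p (y - x)) : y = x := by
  by_contra hne
  have htC := ht
  obtain ⟨tw, htw, ht⟩ := ht
  have hpB : (p : V) ≠ 0 := by
    intro h
    have := congrArg (fun z : V => (z : ℂ)) h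
    push_cast at this
    exact hl.ne_zero (by exact_mod_cast this)
  obtain ⟨u, u', huu, e1, e2', e3⟩ := IsPhi.intro hl P hk hx hφ
  obtain ⟨w, w', f1, f2, f3⟩ := hy
  obtain ⟨r, hr⟩ := phi_core P hpV hxu hyu e1 e2' e3 f1 f2 f3
  obtain ⟨D, s, hD1, hD2⟩ := exists_D hl hpV P hx hφ huu e2' hxu
  obtain ⟨η, hη⟩ := e1_taylor (ρV V) P.h x y
  obtain ⟨γ, hγ⟩ := e1_taylor (ρV V) P.g x y
  have hpu := not_unit_p hpV
  have hV : IsUnit (P.h.eval₂ (ρV V) x + u * e2 (ρV V) P.M x u) := by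
    refine unit_add hxu ?_
    rw [e2', pow_succ', mul_assoc, mul_assoc]
    exact not_unit_mul hpu
  obtain ⟨v, hv⟩ := hV.exists_right_inv
  obtain ⟨d₁, d₂, d₃, hd⟩ := noninj (B := V) hl hp2 hpB (x := x) (y := y) (t := y - x) (w := tw)
    (hx := P.h.eval₂ (ρV V) x) (hy := P.h.eval₂ (ρV V) y)
    (gx := P.g.eval₂ (ρV V) x) (gy := P.g.eval₂ (ρV V) y)
    (h' := (derivative P.h).eval₂ (ρV V) x) (g' := (derivative P.g).eval₂ (ρV V) x)
    (η := η) (γ := γ) (c := (p : V) ^ 12) (c' := (p : V) ^ 10) (r := r) (u' := u')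
    (L := e2 (ρV V) P.L x u) (M := e2 (ρV V) P.M x u) (φx := φ) (D := D) (s := s) (vx := v)
    (Vx := P.h.eval₂ (ρV V) x + u * e2 (ρV V) P.M x u)
    (Qx := x ^ p * P.h.eval₂ (ρV V) x + p * P.g.eval₂ (ρV V) x + u * e2 (ρV V) P.L x u)
    (by ring) ht (sub_ne_zero.2 hne) rfl rfl (by linear_combination hη) (by linear_combination hγ)
    (by ring) (by rw [← hr]; ring) (by rw [← e2']) (by rw [← e2']) e3 hv hD2
  -- the contradiction
  have hτ : jj τ ∈ V := hx ▸ x.2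
  obtain ⟨g0, g1⟩ := phi_res hl P hpV ⟨u, u', e1, e2', e3⟩ hxu h0 h1
  have h6 := der6 hl.pos k τ
  rw [← hD1] at h6
  have vx0 : V.valuation (jj τ) = 1 := by rw [← hx]; exact (V.valuation_eq_one_iff x).1 h0
  have vx1 : V.valuation (jj τ - 1728) = 1 := by
    have := (V.valuation_eq_one_iff (x - 1728)).1 h1
    push_cast at this
    rw [hx] at this
    exact this
  have vf0 : V.valuation (jj (hh hl.pos k τ)) = 1 := by
    rw [← hφ]; exact (V.valuation_eq_one_iff φ).1 g0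
  have vf1 : V.valuation (jj (hh hl.pos k τ) - 1728) = 1 := by
    have := (V.valuation_eq_one_iff (φ - 1728)).1 g1
    push_cast at this
    rw [hφ] at this
    exact this
  have hnz0 : jj τ ≠ 0 := by
    intro h
    rw [h, map_zero] at vx0
    exact zero_ne_one vx0
  have hnz1 : jj τ ≠ 1728 := by
    intro h
    rw [h, sub_self, map_zero] at vx1
    exact zero_ne_one vx1
  have hdd := dd_jj_ne hnz0 hnz1
  have h7 : (p : ℂ) ^ 6 * (D : ℂ) ^ 6 * (jj τ ^ 4 * (jj τ - 1728) ^ 3) =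
      uu hl.pos k τ * (jj (hh hl.pos k τ) ^ 4 * (jj (hh hl.pos k τ) - 1728) ^ 3) := by
    have h8 : dd jj τ ^ 6 ≠ 0 := pow_ne_zero _ hdd
    apply mul_right_cancel₀ h8
    rw [← h6]
    ring
  have h8 := congrArg V.valuation h7
  simp only [map_mul, map_pow, vx0, vx1, vf0, vf1, hk, one_pow, mul_one] at h8
  have hpne : V.valuation (p : ℂ) ≠ 0 := by
    rw [Valuation.ne_zero_iff]
    exact_mod_cast hl.ne_zero
  have h9 : V.valuation (D : ℂ) ^ 6 = V.valuation (p : ℂ) ^ 6 := by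
    have : V.valuation (p : ℂ) ^ 6 * V.valuation (D : ℂ) ^ 6 =
        V.valuation (p : ℂ) ^ 6 * V.valuation (p : ℂ) ^ 6 := by rw [h8, ← pow_add]
    exact mul_left_cancel₀ (pow_ne_zero _ hpne) this
  have htu : ¬ IsUnit (y - x) := by
    intro hu
    have h10 : IsUnit ((y - x) ^ (p - 1)) := hu.pow _
    rw [ht] at h10
    exact not_unit_mul hpu h10
  have hnu : ¬ IsUnit ((y - x) * d₁ + tw * d₂ + p * d₃) := by
    have m1 := (IsLocalRing.mem_maximalIdeal _).2 htu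
    have m2 := (IsLocalRing.mem_maximalIdeal _).2 htw
    have m3 := (IsLocalRing.mem_maximalIdeal _).2 hpu
    exact (IsLocalRing.mem_maximalIdeal _).1 (Ideal.add_mem _ (Ideal.add_mem _
      (Ideal.mul_mem_right _ _ m1) (Ideal.mul_mem_right _ _ m2)) (Ideal.mul_mem_right _ _ m3))
  rw [V.valuation_eq_one_iff] at hnu
  set z : V := (y - x) * d₁ + tw * d₂ + p * d₃ with hz
  have hz1 : V.valuation (z : ℂ) < 1 := lt_of_ne_one z.2 hnu
  have h10 : V.valuation (D : ℂ) < V.valuation (p : ℂ) := by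
    rw [hd]
    push_cast
    rw [map_mul]
    calc V.valuation (p : ℂ) * V.valuation (z : ℂ) < V.valuation (p : ℂ) * 1 :=
          mul_lt_mul_of_pos_left hz1 (zero_lt_iff.2 hpne)
      _ = _ := mul_one _
  have h11 : V.valuation (D : ℂ) ^ 6 < V.valuation (p : ℂ) ^ 6 :=
    pow_lt_pow_left₀ h10 zero_le (by norm_num)
  rw [h9] at h11
  exact lt_irrefl _ h11

end Pool.Agent.N135.ZO
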