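import Pool.Agent.N135.ZO.Prd
import Pool.Agent.N135.ZO.Alg

/-!
The polynomials in two variables.
-/

set_option autoImplicit false

namespace Pool.Agent.N135.ZO

open UpperHalfPlane H294ZP Function ModularForm Polynomial
open Pool.Agent.Y226 (ZZ ιZ ιZ_apply)

/-- polynomials with algebraic integer coefficients which describe the quotients `u_k` and the
values `j (g_k τ)` -/
structure Pkg (l : ℕ) (hl : 0 < l) where
  h : ZZ[X]
  g : ZZ[X]
  K : ZZ[X][X]
  L : ZZ[X][X]
  M : ZZ[X][X]
  hp_eval : ∀ τ u, (hp hl τ).eval u =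
    (l : ℂ) ^ 12 + h.eval₂ ιZ (jj τ) * u + u ^ 2 * e2 ιZ K (jj τ) u
  hp_der : ∀ τ u, (derivative (hp hl τ)).eval u = h.eval₂ ιZ (jj τ) + u * e2 ιZ M (jj τ) u
  qp_eval : ∀ τ u, (qp hl τ).eval u =
    jj τ ^ l * h.eval₂ ιZ (jj τ) + l * g.eval₂ ιZ (jj τ) + u * e2 ιZ L (jj τ) u

theorem e2_sum (s : Finset ℕ) (P : ℕ → ZZ[X]) (x u : ℂ) :
    e2 ιZ (∑ i ∈ s, monomial i (P i)) x u = ∑ i ∈ s, (P i).eval₂ ιZ x * u ^ i := by
  unfold e2
  rw [eval₂_finsetSum]
  refine Finset.sum_congr rfl fun i _ => ?_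
  rw [eval₂_monomial]
  rfl

variable {l : ℕ}

theorem ff_monic (hl : 0 < l) (k : Option (Fin l)) (τ : ℍ) : (ff hl k τ).Monic := monic_X_sub_C _

theorem hp_monic (hl : 0 < l) (τ : ℍ) : (hp hl τ).Monic :=
  monic_prod_of_monic _ _ fun k _ => ff_monic hl k τ

theorem hp_natDegree (hl : 0 < l) (τ : ℍ) : (hp hl τ).natDegree = l + 1 := by
  unfold hp
  rw [natDegree_prod_of_monic _ _ fun k _ => ff_monic hl k τ]
  have : ∀ k : Option (Fin l), (ff hl k τ).natDegree = 1 := fun k => natDegree_X_sub_C _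
  simp [this]

theorem qp_natDegree (hl : 0 < l) (τ : ℍ) : (qp hl τ).natDegree ≤ l := by
  unfold qp
  refine natDegree_sum_le_of_forall_le _ _ fun k _ => ?_
  refine (natDegree_C_mul_le _ _).trans ?_
  rw [natDegree_prod_of_monic _ _ fun k _ => ff_monic hl k τ]
  have : ∀ k : Option (Fin l), (ff hl k τ).natDegree = 1 := fun k => natDegree_X_sub_C _
  simp [this]

theorem exists_pkg (hl : l.Prime) (hl2 : l ≠ 2) : Nonempty (Pkg l hl.pos) := by
  choose H hH using exists_hc hl
  choose Q hQ using exists_qc hl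
  obtain ⟨g, hg⟩ := exists_frob hl
  have h0 : ∀ τ, (hp hl.pos τ).coeff 0 = (l : ℂ) ^ 12 := by
    intro τ
    unfold hp
    rw [coeff_zero_prod]
    have e : ∀ k : Option (Fin l), (ff hl.pos k τ).coeff 0 = -uu hl.pos k τ := by
      intro k; simp [ff]
    simp only [e]
    rw [Finset.prod_neg, prod_uu hl hl2, Finset.card_univ, Fintype.card_option, Fintype.card_fin]
    have hev : Even (l + 1) := (hl.odd_of_ne_two hl2).add_one
    rw [hev.neg_one_pow, one_mul]
  refine ⟨⟨H 1, g, (∑ i ∈ Finset.range l, monomial i (H (i + 2))),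
      (∑ i ∈ Finset.range l, monomial i (Q (i + 1))),
      (∑ i ∈ Finset.range l, monomial i (C ((i + 2 : ℕ) : ZZ) * H (i + 2))), ?_, ?_, ?_⟩⟩
  · intro τ u
    rw [eval_eq_sum_range, hp_natDegree, Finset.sum_range_succ', Finset.sum_range_succ', h0, e2_sum,
      hH, Finset.mul_sum]
    have : ∀ i, (hp hl.pos τ).coeff (i + 1 + 1) * u ^ (i + 1 + 1) =
        u ^ 2 * ((H (i + 2)).eval₂ ιZ (jj τ) * u ^ i) := by
      intro i
      rw [hH]
      ring
    simp only [this]
    ring
  · intro τ u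
    have hd : (derivative (hp hl.pos τ)).natDegree < l + 1 := by
      refine lt_of_le_of_lt (natDegree_derivative_le _) ?_
      rw [hp_natDegree]
      omega
    rw [eval_eq_sum_range' hd, Finset.sum_range_succ', e2_sum, Finset.mul_sum]
    have : ∀ i, (derivative (hp hl.pos τ)).coeff (i + 1) * u ^ (i + 1) =
        u * ((C ((i + 2 : ℕ) : ZZ) * H (i + 2)).eval₂ ιZ (jj τ) * u ^ i) := by
      intro i
      rw [coeff_derivative, hH, eval₂_mul, eval₂_C, map_natCast]
      push_cast
      ring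
    simp only [this]
    rw [coeff_derivative, zero_add, hH]
    push_cast
    ring
  · intro τ u
    rw [eval_eq_sum_range' (Nat.lt_succ_of_le (qp_natDegree hl.pos τ)), Finset.sum_range_succ',
      e2_sum, Finset.mul_sum]
    have : ∀ i, (qp hl.pos τ).coeff (i + 1) * u ^ (i + 1) =
        u * ((Q (i + 1)).eval₂ ιZ (jj τ) * u ^ i) := by
      intro i
      rw [hQ]
      ring
    simp only [this]
    have h1 := hg τ
    rw [hH 1 τ] at h1
    rw [pow_zero, mul_one]
    linear_combination h1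

/-- the values at the roots -/
theorem eval_hp (hl : 0 < l) (k : Option (Fin l)) (τ : ℍ) : (hp hl τ).eval (uu hl k τ) = 0 := by
  unfold hp
  rw [eval_prod]
  exact Finset.prod_eq_zero (Finset.mem_univ k) (by simp [ff])

theorem eval_der (hl : 0 < l) (k : Option (Fin l)) (τ : ℍ) :
    (derivative (hp hl τ)).eval (uu hl k τ) =
      ∏ k' ∈ Finset.univ.erase k, (uu hl k τ - uu hl k' τ) := by
  classical
  unfold hp
  rw [derivative_prod_finset, eval_finsetSum, Finset.sum_eq_single k]
  · have : derivative (ff hl k τ) = 1 := by simp [ff]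
    rw [this, mul_one, eval_prod]
    refine Finset.prod_congr rfl fun k' _ => ?_
    simp [ff]
  · intro k' _ hk'
    rw [eval_mul, eval_prod]
    rw [Finset.prod_eq_zero (Finset.mem_erase.2 ⟨hk'.symm, Finset.mem_univ k⟩) (by simp [ff]),
      zero_mul]
  · intro h
    exact absurd (Finset.mem_univ k) h

theorem eval_qp (hl : 0 < l) (k : Option (Fin l)) (τ : ℍ) :
    (qp hl τ).eval (uu hl k τ) = jj (hh hl k τ) * (derivative (hp hl τ)).eval (uu hl k τ) := by
  classical
  rw [eval_der]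
  unfold qp
  rw [eval_finsetSum, Finset.sum_eq_single k]
  · rw [eval_mul, eval_C, eval_prod]
    congr 1
    refine Finset.prod_congr rfl fun k' _ => ?_
    simp [ff]
  · intro k' _ hk'
    rw [eval_mul, eval_prod]
    rw [Finset.prod_eq_zero (Finset.mem_erase.2 ⟨hk'.symm, Finset.mem_univ k⟩) (by simp [ff]),
      mul_zero]
  · intro h
    exact absurd (Finset.mem_univ k) h

end Pool.Agent.N135.ZO
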