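import Pool.Agent.N135.ZO.Exp

/-!
The polynomials with the roots `u_k`.
-/

set_option autoImplicit false

namespace Pool.Agent.N135.ZO

open UpperHalfPlane H294ZP Function ModularForm Polynomial
open Pool.Agent.Y226 (ZZ ιZ ιZ_apply eZ eZ_mul qq_h)
open H294ZP.TA2 (R mp R_mul R_D R_U R_V R_E4 E4_eq D U V U0 UV)

/-- all coefficients have expansions with coefficients in `I` -/
def PL (I : Ideal ZZ) (N : ℕ) (F : ℍ → ℂ[X]) : Prop := ∀ j, LX I N (fun τ => (F τ).coeff j)

theorem PL.mono {I J : Ideal ZZ} (h : I ≤ J) {N : ℕ} {F : ℍ → ℂ[X]} (hF : PL I N F) : PL J N F :=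
  fun j => (hF j).mono h

theorem PL.mul_left {I : Ideal ZZ} {N : ℕ} {F G : ℍ → ℂ[X]} (hF : PL ⊤ N F) (hG : PL I N G) :
    PL I N (fun τ => F τ * G τ) := by
  intro j
  simp only [coeff_mul]
  exact LX.sum _ _ fun i _ => (hF _).mul_left (hG _)

theorem PL.mul_right {I : Ideal ZZ} {N : ℕ} {F G : ℍ → ℂ[X]} (hF : PL I N F) (hG : PL ⊤ N G) :
    PL I N (fun τ => F τ * G τ) := by
  intro j
  simp only [coeff_mul]
  exact LX.sum _ _ fun i _ => (hF _).mul_right (hG _)

theorem PL.add {I : Ideal ZZ} {N : ℕ} {F G : ℍ → ℂ[X]} (hF : PL I N F) (hG : PL I N G) :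
    PL I N (fun τ => F τ + G τ) := by
  intro j
  simp only [coeff_add]
  exact (hF _).add (hG _)

theorem PL.sub {I : Ideal ZZ} {N : ℕ} {F G : ℍ → ℂ[X]} (hF : PL I N F) (hG : PL I N G) :
    PL I N (fun τ => F τ - G τ) := by
  intro j
  simp only [coeff_sub]
  exact (hF _).sub (hG _)

theorem LX.zero {I : Ideal ZZ} {N : ℕ} : LX I N (fun _ => (0 : ℂ)) := by
  have := LX.const (N := N) I.zero_mem
  simpa using this

theorem PL.sum {I : Ideal ZZ} {N : ℕ} {ι : Type} (s : Finset ι) (F : ι → ℍ → ℂ[X])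
    (h : ∀ i ∈ s, PL I N (F i)) : PL I N (fun τ => ∑ i ∈ s, F i τ) := by
  intro j
  simp only [finsetSum_coeff]
  exact LX.sum _ _ fun i hi => h i hi j

theorem PL.C {I : Ideal ZZ} {N : ℕ} {f : ℍ → ℂ} (hf : LX I N f) :
    PL I N (fun τ => Polynomial.C (f τ)) := by
  intro j
  by_cases hj : j = 0
  · subst hj
    simpa using hf
  · simp only [coeff_C, if_neg hj]
    exact LX.zero

theorem PL.X {N : ℕ} : PL ⊤ N (fun _ => (Polynomial.X : ℂ[X])) := by
  intro j
  by_cases hj : j = 1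
  · subst hj
    simpa using LX.one
  · have : ∀ τ : ℍ, (Polynomial.X : ℂ[X]).coeff j = 0 := fun _ => coeff_X_of_ne_one hj
    simp only [coeff_X_of_ne_one hj]
    exact LX.zero

theorem PL.one {N : ℕ} : PL ⊤ N (fun _ => (1 : ℂ[X])) := by
  intro j
  by_cases hj : j = 0
  · subst hj
    simpa using LX.one
  · simp only [coeff_one, if_neg hj]
    exact LX.zero

theorem PL.prod {N : ℕ} {ι : Type} (s : Finset ι) (F : ι → ℍ → ℂ[X])
    (h : ∀ i ∈ s, PL ⊤ N (F i)) : PL ⊤ N (fun τ => ∏ i ∈ s, F i τ) := by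
  classical
  induction s using Finset.induction_on with
  | empty => simpa using PL.one
  | insert a s ha ih =>
    simp only [Finset.prod_insert ha]
    exact (h a (Finset.mem_insert_self _ _)).mul_left
      (ih fun i hi => h i (Finset.mem_insert_of_mem hi))

/-- congruence of products -/
theorem PL.prod_sub {I : Ideal ZZ} {N : ℕ} {ι : Type} (s : Finset ι) (F G : ι → ℍ → ℂ[X])
    (hF : ∀ i ∈ s, PL ⊤ N (F i)) (hG : ∀ i ∈ s, PL ⊤ N (G i))
    (h : ∀ i ∈ s, PL I N (fun τ => F i τ - G i τ)) :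
    PL I N (fun τ => ∏ i ∈ s, F i τ - ∏ i ∈ s, G i τ) := by
  classical
  induction s using Finset.induction_on with
  | empty =>
    intro j
    simp only [Finset.prod_empty, sub_self, coeff_zero]
    exact LX.zero
  | insert a s ha ih =>
    have h1 := ih (fun i hi => hF i (Finset.mem_insert_of_mem hi))
      (fun i hi => hG i (Finset.mem_insert_of_mem hi))
      (fun i hi => h i (Finset.mem_insert_of_mem hi))
    have h2 := (hF a (Finset.mem_insert_self _ _)).mul_left h1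
    have h3 := (h a (Finset.mem_insert_self _ _)).mul_right
      (PL.prod s G fun i hi => hG i (Finset.mem_insert_of_mem hi))
    have h4 := h2.add h3
    have e : (fun τ => ∏ i ∈ insert a s, F i τ - ∏ i ∈ insert a s, G i τ) = fun τ =>
        F a τ * (∏ i ∈ s, F i τ - ∏ i ∈ s, G i τ) + (F a τ - G a τ) * ∏ i ∈ s, G i τ := by
      funext τ
      rw [Finset.prod_insert ha, Finset.prod_insert ha]
      ring
    rw [e]
    exact h4

variable {l : ℕ}

/-- the factor `T - u_k` -/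
noncomputable def ff (hl : 0 < l) (k : Option (Fin l)) (τ : ℍ) : ℂ[X] := X - C (uu hl k τ)

/-- the polynomial with the roots `u_k` -/
noncomputable def hp (hl : 0 < l) (τ : ℍ) : ℂ[X] := ∏ k, ff hl k τ

/-- the polynomial with the values `j (g_k τ) H' (u_k)` at `u_k` -/
noncomputable def qp (hl : 0 < l) (τ : ℍ) : ℂ[X] :=
  ∑ k, C (jj (hh hl k τ)) * ∏ k' ∈ Finset.univ.erase k, ff hl k' τ

theorem PL.ff (hl : 0 < l) (k : Option (Fin l)) : PL ⊤ l (ff hl k) := by
  have := (PL.X (N := l)).sub (PL.C (LX.uu hl k))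
  exact this

theorem PL.hp (hl : 0 < l) : PL ⊤ l (hp hl) := PL.prod _ _ fun k _ => PL.ff hl k

theorem PL.qp (hl : 0 < l) : PL ⊤ l (qp hl) :=
  PL.sum _ _ fun k _ => (PL.C (LX.jj_hh hl k)).mul_left (PL.prod _ _ fun k' _ => PL.ff hl k')

theorem rel_iff {γ : M2} {τ w : ℍ} : Rel γ τ w ↔
    (w : ℂ) * ((γ 1 0 : ℂ) * τ + (γ 1 1 : ℂ)) = (γ 0 0 : ℂ) * τ + (γ 0 1 : ℂ) := Iff.rfl

theorem inv_of_rel {f : ℍ → ℂ} (h : ∀ (γ : M2), γ.det = 1 → ∀ τ w : ℍ, Rel γ τ w → f w = f τ) :
    Inv f := by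
  intro a b c d hdet τ w hw
  refine h !![a, b; c, d] ?_ τ w ?_
  · rw [Matrix.det_fin_two_of]; exact hdet
  · rw [rel_iff]
    simpa using hw

theorem hp_inv (hl : l.Prime) {γ : M2} (hγ : γ.det = 1) {τ w : ℍ} (hw : Rel γ τ w) :
    hp hl.pos w = hp hl.pos τ := by
  obtain ⟨σ, hσ⟩ := perm hl hγ hw
  unfold hp
  rw [← Equiv.prod_comp σ (fun k => ff hl.pos k τ)]
  refine Finset.prod_congr rfl fun k _ => ?_
  unfold ff
  rw [show uu hl.pos k w = uu hl.pos (σ k) τ from (hσ k).2]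

theorem qp_inv (hl : l.Prime) {γ : M2} (hγ : γ.det = 1) {τ w : ℍ} (hw : Rel γ τ w) :
    qp hl.pos w = qp hl.pos τ := by
  obtain ⟨σ, hσ⟩ := perm hl hγ hw
  unfold qp
  rw [← Equiv.sum_comp σ (fun k => C (jj (hh hl.pos k τ)) *
    ∏ k' ∈ Finset.univ.erase k, ff hl.pos k' τ)]
  refine Finset.sum_congr rfl fun k _ => ?_
  have h1 : ∏ k' ∈ Finset.univ.erase k, ff hl.pos k' w =
      ∏ k' ∈ Finset.univ.erase (σ k), ff hl.pos k' τ := by
    refine Finset.prod_equiv σ (fun a => ?_) (fun a _ => ?_)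
    · simp only [Finset.mem_erase, Finset.mem_univ, and_true, ne_eq, EmbeddingLike.apply_eq_iff_eq]
    · unfold ff
      rw [show uu hl.pos a w = uu hl.pos (σ a) τ from (hσ a).2]
  rw [(hσ k).1, h1]

theorem exists_hc (hl : l.Prime) (j : ℕ) : ∃ P : ZZ[X], ∀ τ,
    (hp hl.pos τ).coeff j = P.eval₂ ιZ (jj τ) := by
  obtain ⟨P, -, hP⟩ := tbX ⊤ l hl.pos (fun τ => (hp hl.pos τ).coeff j)
    (inv_of_rel fun γ hγ τ w hw => by rw [hp_inv hl hγ hw]) (PL.hp hl.pos j)
  exact ⟨P, hP⟩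

theorem exists_qc (hl : l.Prime) (j : ℕ) : ∃ P : ZZ[X], ∀ τ,
    (qp hl.pos τ).coeff j = P.eval₂ ιZ (jj τ) := by
  obtain ⟨P, -, hP⟩ := tbX ⊤ l hl.pos (fun τ => (qp hl.pos τ).coeff j)
    (inv_of_rel fun γ hγ τ w hw => by rw [qp_inv hl hγ hw]) (PL.qp hl.pos j)
  exact ⟨P, hP⟩

/-- the coefficients of `H` besides those of `T` and `T ^ (l + 1)` vanish modulo the primes
above `l` -/
theorem exists_hcI (hl : l.Prime) {I : Ideal ZZ} (hI : I.IsPrime) (hlI : ((l : ℕ) : ZZ) ∈ I)
    (j : ℕ) (hj1 : j ≠ 1) (hj2 : j ≠ l + 1) : ∃ P : ZZ[X], (∀ i, P.coeff i ∈ I) ∧ ∀ τ,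
    (hp hl.pos τ).coeff j = P.eval₂ ιZ (jj τ) := by
  have : NeZero l := ⟨hl.ne_zero⟩
  refine tbX I l hl.pos (fun τ => (hp hl.pos τ).coeff j)
    (inv_of_rel fun γ hγ τ w hw => by rw [hp_inv hl hγ hw]) ?_
  have hspan : Ideal.span {((l : ℕ) : ZZ) ^ 12} ≤ I := by
    rw [Ideal.span_singleton_le_iff_mem]
    exact I.pow_mem_of_mem hlI 12 (by norm_num)
  set g : ℍ → ℂ := uu hl.pos (some 0) with hg
  have hgL : LX ⊤ l g := LX.uu hl.pos _
  -- the product over the non canonical elements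
  have h1 : PL I l (fun τ => ∏ b : Fin l, ff hl.pos (some b) τ - ∏ b : Fin l, ff hl.pos (some 0) τ) := by
    refine PL.prod_sub Finset.univ (fun b => ff hl.pos (some b)) (fun _ => ff hl.pos (some 0))
      (fun b _ => PL.ff _ _) (fun b _ => PL.ff _ _) fun b _ => ?_
    have := PL.C (LX.uu_sub hl hI hlI 0 b)
    have e : (fun τ => ff hl.pos (some b) τ - ff hl.pos (some 0) τ) = fun τ =>
        C (uu hl.pos (some 0) τ - uu hl.pos (some b) τ) := by
      funext τ
      unfold ff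
      rw [C_sub]
      ring
    rw [e]
    exact this
  have h2 : PL I l (fun τ => ff hl.pos none τ *
      (∏ b : Fin l, ff hl.pos (some b) τ - ∏ b : Fin l, ff hl.pos (some 0) τ)) :=
    (PL.ff hl.pos none).mul_left h1
  have h3 : PL I l (fun τ => C (uu hl.pos none τ) * ∏ b : Fin l, ff hl.pos (some 0) τ) :=
    (PL.C ((LX.uu_none hl.pos).mono hspan)).mul_right (PL.prod _ _ fun b _ => PL.ff _ _)
  -- the power
  have h4 : LX I l (fun τ => (X * ∏ b : Fin l, ff hl.pos (some 0) τ).coeff j) := by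
    have e : ∀ τ, (∏ b : Fin l, ff hl.pos (some 0) τ) = (X + C (-g τ)) ^ l := by
      intro τ
      rw [Finset.prod_const, Finset.card_univ, Fintype.card_fin]
      unfold ff
      rw [hg, C_neg, sub_eq_add_neg]
    simp only [e]
    cases j with
    | zero =>
      simp only [coeff_X_mul_zero]
      exact LX.zero
    | succ i =>
      simp only [coeff_X_mul, coeff_X_add_C_pow]
      have hi : i ≠ 0 := fun h => hj1 (by omega)
      have hi' : i ≠ l := fun h => hj2 (by omega)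
      have hdvd : l ∣ l.choose i := by
        rcases lt_or_gt_of_ne hi' with h | h
        · exact hl.dvd_choose_self hi h
        · rw [Nat.choose_eq_zero_of_lt h]
          exact dvd_zero l
      obtain ⟨t, ht⟩ := hdvd
      have hc : (((l.choose i : ℕ) : ZZ)) ∈ I := by
        rw [ht, Nat.cast_mul]
        exact I.mul_mem_right _ hlI
      have := ((hgL.neg).pow (l - i)).mul_left (LX.const (N := l) hc)
      simpa using this
  have h5 := ((h2 j).sub (h3 j)).add h4
  have e : (fun τ => (hp hl.pos τ).coeff j) = fun τ => ((ff hl.pos none τ *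
      (∏ b : Fin l, ff hl.pos (some b) τ - ∏ b : Fin l, ff hl.pos (some 0) τ)).coeff j -
      (C (uu hl.pos none τ) * ∏ b : Fin l, ff hl.pos (some 0) τ).coeff j) +
      (X * ∏ b : Fin l, ff hl.pos (some 0) τ).coeff j := by
    funext τ
    rw [← coeff_sub, ← coeff_add]
    congr 1
    unfold hp
    rw [Fintype.prod_option]
    have : ff hl.pos none τ = X - C (uu hl.pos none τ) := rfl
    rw [this]
    ring
  rw [e]
  exact h5

/-- `Q_0 - j ^ l H_1` is divisible by `l` -/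
theorem exists_frob (hl : l.Prime) : ∃ P : ZZ[X], ∀ τ,
    (qp hl.pos τ).coeff 0 - jj τ ^ l * (hp hl.pos τ).coeff 1 = l * P.eval₂ ιZ (jj τ) := by
  classical
  have hspan : Ideal.span {((l : ℕ) : ZZ) ^ 12} ≤ Ideal.span {((l : ℕ) : ZZ)} := by
    rw [Ideal.span_singleton_le_iff_mem]
    exact Ideal.pow_mem_of_mem _ (Ideal.subset_span (Set.mem_singleton _)) 12 (by norm_num)
  have hq0 : ∀ τ, (qp hl.pos τ).coeff 0 =
      ∑ k, jj (hh hl.pos k τ) * ∏ k' ∈ Finset.univ.erase k, (-uu hl.pos k' τ) := by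
    intro τ
    unfold qp
    rw [finsetSum_coeff]
    refine Finset.sum_congr rfl fun k _ => ?_
    rw [coeff_C_mul, coeff_zero_prod]
    congr 1
    refine Finset.prod_congr rfl fun k' _ => ?_
    simp [ff]
  have hh1 : ∀ τ, (hp hl.pos τ).coeff 1 =
      ∑ k, ∏ k' ∈ Finset.univ.erase k, (-uu hl.pos k' τ) := by
    intro τ
    have h1 : (derivative (hp hl.pos τ)).coeff 0 = (hp hl.pos τ).coeff 1 := by
      rw [coeff_derivative]
      simp
    rw [← h1]
    unfold hp
    rw [derivative_prod_finset, finsetSum_coeff]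
    refine Finset.sum_congr rfl fun k _ => ?_
    have h2 : derivative (ff hl.pos k τ) = 1 := by simp [ff]
    rw [h2, mul_one, coeff_zero_prod]
    refine Finset.prod_congr rfl fun k' _ => ?_
    simp [ff]
  have hL : LX (Ideal.span {((l : ℕ) : ZZ)}) l
      (fun τ => (qp hl.pos τ).coeff 0 - jj τ ^ l * (hp hl.pos τ).coeff 1) := by
    have h1 : LX (Ideal.span {((l : ℕ) : ZZ)}) l (fun τ => ∑ k : Option (Fin l),
        (jj (hh hl.pos k τ) - jj τ ^ l) * ∏ k' ∈ Finset.univ.erase k, (-uu hl.pos k' τ)) := by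
      refine LX.sum _ _ fun k _ => ?_
      cases k with
      | none =>
        exact (LX.jj_frob hl).mul_right (LX.prod _ _ fun k' _ => (LX.uu hl.pos k').neg)
      | some b =>
        have hmem : (none : Option (Fin l)) ∈ Finset.univ.erase (some b) := by simp
        have h2 : LX (Ideal.span {((l : ℕ) : ZZ)}) l
            (fun τ => ∏ k' ∈ Finset.univ.erase (some b), (-uu hl.pos k' τ)) := by
          have h3 := ((LX.uu_none hl.pos).neg.mono hspan).mul_right
            (LX.prod ((Finset.univ.erase (some b)).erase none) (fun k' τ => -uu hl.pos k' τ)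
              fun k' _ => (LX.uu hl.pos k').neg)
          have e : (fun τ => ∏ k' ∈ Finset.univ.erase (some b), (-uu hl.pos k' τ)) = fun τ =>
              -uu hl.pos none τ *
                ∏ k' ∈ (Finset.univ.erase (some b)).erase none, (-uu hl.pos k' τ) := by
            funext τ
            rw [Finset.mul_prod_erase _ (fun k' => -uu hl.pos k' τ) hmem]
          rw [e]
          exact h3
        exact ((LX.jj_hh hl.pos (some b)).sub ((LX.jj hl.pos).pow l)).mul_left h2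
    have e : (fun τ => (qp hl.pos τ).coeff 0 - jj τ ^ l * (hp hl.pos τ).coeff 1) = fun τ =>
        ∑ k : Option (Fin l), (jj (hh hl.pos k τ) - jj τ ^ l) *
          ∏ k' ∈ Finset.univ.erase k, (-uu hl.pos k' τ) := by
      funext τ
      rw [hq0, hh1, Finset.mul_sum, ← Finset.sum_sub_distrib]
      refine Finset.sum_congr rfl fun k _ => ?_
      ring
    rw [e]
    exact h1
  obtain ⟨P, hP1, hP2⟩ := tbX _ l hl.pos _ (inv_of_rel fun γ hγ τ w hw => by
    rw [hp_inv hl hγ hw, qp_inv hl hγ hw, hw.jj hγ]) hL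
  have h2 : ∀ i, ∃ z : ZZ, P.coeff i = (l : ZZ) * z := by
    intro i
    obtain ⟨z, hz⟩ := Ideal.mem_span_singleton'.1 (hP1 i)
    exact ⟨z, by rw [← hz, mul_comm]⟩
  choose z hz using h2
  refine ⟨∑ i ∈ Finset.range (P.natDegree + 1), monomial i (z i), fun τ => ?_⟩
  rw [hP2 τ, eval₂_eq_sum_range, eval₂_finsetSum, Finset.mul_sum]
  refine Finset.sum_congr rfl fun i _ => ?_
  rw [eval₂_monomial, hz i, map_mul, map_natCast]
  ring

end Pool.Agent.N135.ZO
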