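import Pool.Agent.N135.ZO.Pol

/-!
The product of the `u_k`.
-/

set_option autoImplicit false

namespace Pool.Agent.N135.ZO

open UpperHalfPlane H294ZP Function ModularForm Polynomial
open Pool.Agent.Y226 (ZZ ιZ ιZ_apply eZ eZ_mul qq_h)
open H294ZP.TA2 (R mp R_mul R_D R_U R_V R_E4 E4_eq D U V U0 UV)

variable {l : ℕ}

theorem lau_U_hh (hl : 0 < l) (k : Option (Fin l)) :
    Lau l 0 1 (fun τ => discriminant (hh hl k τ) / qq 1 (hh hl k τ)) := by
  refine ⟨fun n => (cf U (ka l k) (eZ (kb l k) (kd l k) (kd_pos hl k)) n : ZZ), ?_,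
    fun n => (cf U _ _ n).2, fun τ => ?_⟩
  · have h0 : U.coeff 0 = 1 := by
      rw [PowerSeries.coeff_zero_eq_constantCoeff_apply, U0]
    simp [cf, h0]
  · have := hasSum_cf R_U (ka_pos hl k) (kd_pos hl k) (hh_mul hl k τ)
    rw [ka_mul_kd] at this
    simpa using this

theorem lau_V : Lau 1 0 1 (fun τ => qq 1 τ / discriminant τ) := by
  refine ⟨fun n => ((V.coeff n : ℤ) : ℂ), ?_, fun n => isIntegral_algebraMap (R := ℤ) (x := V.coeff n),
    fun τ => ?_⟩
  · have h1 : V.coeff 0 = 1 := by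
      have := congrArg PowerSeries.constantCoeff UV
      rw [map_mul, U0, one_mul, map_one] at this
      rw [PowerSeries.coeff_zero_eq_constantCoeff_apply, this]
    simp [h1]
  · have := R_V τ
    simpa using this

theorem lau_prod_one {N : ℕ} (hN : 0 < N) {ι : Type} (s : Finset ι)
    (f : ι → ℍ → ℂ) (h : ∀ i, Lau N 0 1 (f i)) : Lau N 0 1 (fun τ => ∏ i ∈ s, f i τ) := by
  classical
  induction s using Finset.induction_on with
  | empty =>
    have := tc.1 N 1 hN isIntegral_one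
    simpa using this
  | insert a s ha ih =>
    simp only [Finset.prod_insert ha]
    have := tc.2.2.2.1 N 0 0 1 1 _ _ hN (h a) ih
    simpa using this

theorem lau_pow_one {N : ℕ} (hN : 0 < N) {f : ℍ → ℂ} (h : Lau N 0 1 f) (n : ℕ) :
    Lau N 0 1 (fun τ => f τ ^ n) := by
  have := lau_prod_one hN (Finset.range n) (fun _ => f) (fun _ => h)
  simpa using this

theorem prod_qq (hl : l.Prime) (hl2 : l ≠ 2) (τ : ℍ) :
    ∏ k, qq 1 (hh hl.pos k τ) = qq 1 τ ^ (l + 1) := by
  have hl0 : (l : ℂ) ≠ 0 := by exact_mod_cast hl.ne_zero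
  have h0 : (hh hl.pos none τ : ℂ) = l * τ := by
    have := hh_mul hl.pos none τ
    simpa [ka, kb, kd] using this
  have h1 : ∀ b : Fin l, (hh hl.pos (some b) τ : ℂ) = (τ + (b : ℕ)) / l := by
    intro b
    have := hh_mul hl.pos (some b) τ
    rw [eq_div_iff hl0]
    simpa [ka, kb, kd] using this
  rw [Fintype.prod_option]
  unfold qq
  rw [← Complex.exp_sum, ← Complex.exp_add, ← Complex.exp_nat_mul]
  simp only [h0, h1]
  obtain ⟨m, hm⟩ : Odd l := hl.odd_of_ne_two hl2
  have hsum : ∑ b : Fin l, (((b : ℕ) : ℂ)) = l * m := by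
    rw [Fin.sum_univ_eq_sum_range (fun i => ((i : ℕ) : ℂ)) l]
    have h2 := Finset.sum_range_id_mul_two l
    have h3 : (∑ i ∈ Finset.range l, i) = l * m := by
      have : l - 1 = m * 2 := by omega
      rw [this, ← mul_assoc] at h2
      exact Nat.eq_of_mul_eq_mul_right (by norm_num) h2
    rw [← Nat.cast_sum, h3, Nat.cast_mul]
  have e : 2 * (Real.pi : ℂ) * Complex.I * (l * τ) / (1 : ℕ) +
      ∑ b : Fin l, 2 * (Real.pi : ℂ) * Complex.I * ((τ + (b : ℕ)) / l) / (1 : ℕ) =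
      ((l + 1 : ℕ) : ℂ) * (2 * Real.pi * Complex.I * τ / (1 : ℕ)) + m * (2 * Real.pi * Complex.I) := by
    have h4 : ∑ b : Fin l, 2 * (Real.pi : ℂ) * Complex.I * ((τ + (b : ℕ)) / l) / (1 : ℕ) =
        2 * Real.pi * Complex.I / l * (∑ b : Fin l, ((τ : ℂ) + (b : ℕ))) := by
      rw [Finset.mul_sum]
      refine Finset.sum_congr rfl fun b _ => ?_
      push_cast
      field_simp
    rw [h4, Finset.sum_add_distrib, hsum, Finset.sum_const, Finset.card_univ, Fintype.card_fin]
    push_cast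
    rw [nsmul_eq_mul]
    field_simp
    ring
  rw [e]
  exact Complex.exp_periodic.nat_mul m _

/-- the product of all `u_k` -/
theorem prod_uu (hl : l.Prime) (hl2 : l ≠ 2) (τ : ℍ) : ∏ k, uu hl.pos k τ = (l : ℂ) ^ 12 := by
  have hka : ∏ k : Option (Fin l), ((ka l k : ℕ) : ℂ) ^ 12 = (l : ℂ) ^ 12 := by
    rw [Fintype.prod_option]
    simp [ka]
  -- the normalized product
  set f : ℍ → ℂ := fun τ => (∏ k, (discriminant (hh hl.pos k τ) / qq 1 (hh hl.pos k τ))) *
    (qq 1 τ / discriminant τ) ^ (l + 1) with hf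
  have hval : ∀ τ, ∏ k, uu hl.pos k τ = (l : ℂ) ^ 12 * f τ := by
    intro τ
    simp only [uu_eq]
    rw [Finset.prod_mul_distrib, Finset.prod_mul_distrib, hka, hf]
    simp only
    rw [Finset.prod_div_distrib, prod_qq hl hl2, Finset.prod_const, Finset.card_univ,
      Fintype.card_option, Fintype.card_fin, div_pow, inv_pow]
    have hq : qq 1 τ ^ (l + 1) ≠ 0 := pow_ne_zero _ (Complex.exp_ne_zero _)
    have hΔ : discriminant τ ^ (l + 1) ≠ 0 := pow_ne_zero _ (discriminant_ne_zero τ)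
    generalize qq 1 τ ^ (l + 1) = x at hq ⊢
    generalize discriminant τ ^ (l + 1) = y at hΔ ⊢
    field_simp
  have hlau : Lau l 0 1 f := by
    have h1 := lau_prod_one hl.pos Finset.univ _ (lau_U_hh hl.pos)
    have h2 := lau_pow_one hl.pos (by
      have := H610.lau_reindex hl.pos lau_V
      simpa using this) (l + 1)
    have := tc.2.2.2.1 l 0 0 1 1 _ _ hl.pos h1 h2
    rw [mul_one, add_zero] at this
    exact this
  have hlau2 : Lau l 0 ((l : ℂ) ^ 12) (fun τ => ∏ k, uu hl.pos k τ) := by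
    have h1 := tc.1 l ((l : ℂ) ^ 12) hl.pos (by
      have : IsIntegral ℤ (((l : ℤ) ^ 12 : ℤ) : ℂ) := isIntegral_algebraMap (R := ℤ) (x := (l : ℤ) ^ 12)
      simpa using this)
    have := tc.2.2.2.1 l 0 0 ((l : ℂ) ^ 12) 1 _ _ hl.pos h1 hlau
    simp only [add_zero, mul_one] at this
    have e : (fun τ => ∏ k, uu hl.pos k τ) = fun τ => (l : ℂ) ^ 12 * f τ := funext hval
    rw [e]
    exact this
  have hinv : Inv (fun τ => ∏ k, uu hl.pos k τ) := by
    refine inv_of_rel fun γ hγ τ w hw => ?_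
    obtain ⟨σ, hσ⟩ := perm hl hγ hw
    rw [← Equiv.prod_comp σ (fun k => uu hl.pos k τ)]
    exact Finset.prod_congr rfl fun k _ => (hσ k).2
  have hhol : Hol (fun τ => ∏ k, uu hl.pos k τ) :=
    (LX.prod Finset.univ (fun k => uu hl.pos k) fun k _ => LX.uu hl.pos k).2
  exact TBproof.const_of_lau_zero _ l _ hl.pos hinv hhol hlau2 τ

end Pool.Agent.N135.ZO
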