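import Pool.Agent.N135.ZO.Pkg
import Pool.Agent.N135.ZO.Der
import Pool.Agent.H294ZP.Main

/-!
The quotients of the discriminants in a valuation ring.
-/

set_option autoImplicit false

namespace Pool.Agent.N135.ZO

open UpperHalfPlane H294ZP Function ModularForm Polynomial
open Pool.Agent.Y226 (ZZ ιZ ιZ_apply)

variable (V : ValuationSubring ℂ)

/-- the algebraic integers in a valuation ring -/
noncomputable def ρV : ZZ →+* V where
  toFun z := ⟨ιZ z, mem_of_integral_int V (by rw [ιZ_apply]; exact z.2)⟩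
  map_one' := Subtype.ext (map_one ιZ)
  map_mul' x y := Subtype.ext (map_mul ιZ x y)
  map_zero' := Subtype.ext (map_zero ιZ)
  map_add' x y := Subtype.ext (map_add ιZ x y)

theorem ρV_coe (z : ZZ) : ((ρV V z : V) : ℂ) = ιZ z := rfl

theorem sub_comp : V.subtype.comp (ρV V) = ιZ := rfl

theorem coe_e1 (P : ZZ[X]) (x : V) : ((P.eval₂ (ρV V) x : V) : ℂ) = P.eval₂ ιZ (x : ℂ) := by
  have := hom_eval₂ P (ρV V) V.subtype x
  exact this

theorem coe_e2 (P : ZZ[X][X]) (x u : V) : ((e2 (ρV V) P x u : V) : ℂ) = e2 ιZ P (x : ℂ) (u : ℂ) := by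
  have := map_e2 (ρV V) V.subtype P x u
  exact this

variable {V}

theorem e1_mem (P : ZZ[X]) {x : ℂ} (hx : x ∈ V) : P.eval₂ ιZ x ∈ V := by
  have := coe_e1 V P ⟨x, hx⟩
  rw [← this]
  exact Subtype.mem _

theorem rel_mem {M : M2} (hM : 0 < M.det) {τ w : ℍ} (h : Rel M τ w) (hτ : jj τ ∈ V) : jj w ∈ V := by
  refine mem_of_integral V hτ (isogenous_integral τ w (M 0 0) (M 0 1) (M 1 0) (M 1 1) ?_ h)
  rwa [det_eq] at hM

theorem monic_root_mem {P : ℂ[X]} (hP : P.Monic) (hc : ∀ i, P.coeff i ∈ V) {z : ℂ}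
    (hz : P.eval z = 0) : z ∈ V := by
  have hlift : P ∈ Polynomial.lifts (algebraMap V ℂ) := by
    rw [Polynomial.lifts_iff_coeff_lifts]
    intro n
    exact ⟨⟨P.coeff n, hc n⟩, rfl⟩
  obtain ⟨q, hq1, -, hq3⟩ := Polynomial.lifts_and_natDegree_eq_and_monic hlift hP
  have hB : IsIntegral V z := by
    refine ⟨q, hq3, ?_⟩
    rw [← Polynomial.eval_map, hq1, hz]
  obtain ⟨y, hy⟩ := IsIntegrallyClosed.isIntegral_iff.1 hB
  rw [← hy]
  exact y.2

theorem uu_mem {l : ℕ} (hl : l.Prime) (k : Option (Fin l)) {τ : ℍ} (hτ : jj τ ∈ V) :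
    uu hl.pos k τ ∈ V := by
  refine monic_root_mem (hp_monic hl.pos τ) (fun i => ?_) (eval_hp hl.pos k τ)
  obtain ⟨P, hP⟩ := exists_hc hl i
  rw [hP]
  exact e1_mem P hτ

theorem exists_fac {M : M2} (hM : 0 < M.det) {l : ℕ} (hl : l.Prime) (hdvd : (l : ℤ) ∣ M.det)
    {τ w : ℍ} (h : Rel M τ w) : ∃ (k : Option (Fin l)) (C : M2), M = C * gk l k ∧ 0 < C.det ∧
      M.det = C.det * l ∧ Rel C (hh hl.pos k τ) w ∧
      GG M τ w = GG C (hh hl.pos k τ) w * uu hl.pos k τ := by
  obtain ⟨k, C, hC⟩ := factor hl M hdvd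
  have hlZ : (0 : ℤ) < l := by exact_mod_cast hl.pos
  have hdet : M.det = C.det * l := by rw [hC, det_mul', det_gk]
  have hCpos : 0 < C.det := by
    rw [hdet] at hM
    exact (mul_pos_iff_of_pos_right hlZ).1 hM
  obtain ⟨z, hz⟩ := exists_rel hCpos (hh hl.pos k τ)
  have r := (rel_hh hl.pos k τ).mul hz
  rw [← hC] at r
  have hzw : w = z := Rel.unique hM h r
  subst hzw
  refine ⟨k, C, hC, hCpos, hdet, hz, ?_⟩
  have := GG_mul hCpos (by rw [det_gk]; exact hlZ) (z := w) (rel_hh hl.pos k τ)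
  rw [← hC] at this
  exact this

theorem GG_mem {M : M2} (hM : 0 < M.det) {τ w : ℍ} (h : Rel M τ w) (hτ : jj τ ∈ V) :
    GG M τ w ∈ V := by
  obtain ⟨n, hn⟩ : ∃ n : ℕ, M.det.toNat = n := ⟨_, rfl⟩
  induction n using Nat.strong_induction_on generalizing M τ with
  | _ n ih =>
    have hMn : M.det = n := by omega
    by_cases h1 : n = 1
    · rw [GG_sl (by rw [hMn, h1]; rfl) h]
      exact V.one_mem
    · obtain ⟨l, hl, hdvd⟩ := Nat.exists_prime_and_dvd h1
      obtain ⟨k, C, -, hCpos, hdet, hrel, hGG⟩ := exists_fac hM hl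
        (by rw [hMn]; exact_mod_cast hdvd) h
      rw [hGG]
      refine V.mul_mem _ _ ?_ (uu_mem hl k hτ)
      refine ih C.det.toNat ?_ hCpos hrel ?_ rfl
      · have h2 := hl.two_le
        have h3 : C.det * l = n := by rw [← hdet, hMn]
        have h4 : C.det * 2 ≤ C.det * l := mul_le_mul_of_nonneg_left (by exact_mod_cast h2) hCpos.le
        omega
      · refine rel_mem (M := gk l k) ?_ (rel_hh hl.pos k τ) hτ
        rw [det_gk]
        exact_mod_cast hl.pos

theorem rel_adj {M : M2} {τ w : ℍ} (h : Rel M τ w) : Rel M.adjugate w τ := by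
  have h1 := h
  unfold Rel den num at h1 ⊢
  rw [Matrix.adjugate_fin_two]
  simp only [Matrix.of_apply, Matrix.cons_val', Matrix.cons_val_zero, Matrix.cons_val_one,
    Matrix.cons_val_fin_one]
  push_cast
  linear_combination -h1

theorem det_adj (M : M2) : M.adjugate.det = M.det := by
  rw [Matrix.det_adjugate]
  simp

theorem GG_adj {M : M2} (hM : 0 < M.det) {τ w : ℍ} (h : Rel M τ w) :
    GG M.adjugate w τ * GG M τ w = (M.det : ℂ) ^ 12 := by
  have h1 := GG_mul (A := M.adjugate) (B := M) (by rw [det_adj]; exact hM) hM (z := τ) h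
  rw [← h1]
  have h2 : (0 : ℤ) < M.det := hM
  obtain ⟨n, hn⟩ : ∃ n : ℕ, M.det = n := ⟨M.det.toNat, by omega⟩
  have h3 := GG_smul n (by omega) (M := M.adjugate * M) (by rw [Matrix.adjugate_mul, hn]) τ
  rw [h3.2, hn]
  push_cast
  rfl

theorem val_mul_one {a b : ℂ} (ha : a ∈ V) (hb : b ∈ V) (h : V.valuation (a * b) = 1) :
    V.valuation a = 1 ∧ V.valuation b = 1 := by
  rw [← V.valuation_le_one_iff] at ha hb
  rw [map_mul] at h
  constructor
  · refine le_antisymm ha ?_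
    calc (1 : V.ValueGroup) = V.valuation a * V.valuation b := h.symm
      _ ≤ V.valuation a * 1 := mul_le_mul_right hb _
      _ = V.valuation a := mul_one _
  · refine le_antisymm hb ?_
    calc (1 : V.ValueGroup) = V.valuation a * V.valuation b := h.symm
      _ ≤ 1 * V.valuation b := mul_le_mul_left ha _
      _ = V.valuation b := one_mul _

theorem GG_unit {M : M2} (hM : 0 < M.det) (hv : V.valuation (M.det : ℂ) = 1) {τ w : ℍ}
    (h : Rel M τ w) (hτ : jj τ ∈ V) : V.valuation (GG M τ w) = 1 := by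
  have h1 := GG_adj hM h
  have hw := rel_mem hM h hτ
  have h2 := GG_mem (V := V) (M := M.adjugate) (by rw [det_adj]; exact hM) (rel_adj h) hw
  have h3 := GG_mem hM h hτ
  refine (val_mul_one h2 h3 ?_).2
  rw [h1, map_pow, hv, one_pow]

end Pool.Agent.N135.ZO
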